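import Pool.Agent.Lib.MP_d42654_co.Compress

namespace Pool.Agent.Lib.MP_d42654_co

open Finset

def IsIdl {n : ℕ} (Z : Finset (Fin n → ℕ)) : Prop :=
  (∀ u ∈ Z, ∀ v, v ≤ u → v ∈ Z) ∧ (0 : Fin n → ℕ) ∈ Z

/-- the part of degree `q` -/
def rk {n : ℕ} (F : Finset (Fin n → ℕ)) (q : ℕ) : Finset (Fin n → ℕ) :=
  F.filter fun u => deg u = q

lemma mem_rk {n : ℕ} {F : Finset (Fin n → ℕ)} {q : ℕ} {u : Fin n → ℕ} :
    u ∈ rk F q ↔ u ∈ F ∧ deg u = q := by
  simp [rk]

lemma deg_sub {n : ℕ} {a u : Fin n → ℕ} (h : u ≤ a) : deg (a - u) = deg a - deg u := by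
  have : deg (a - u) + deg u = deg a := by
    rw [← deg_add, tsub_add_cancel_of_le h]
  omega

lemma card_P_symm {n : ℕ} (a : Fin n → ℕ) {q : ℕ} (hq : q ≤ deg a) :
    #(P a (deg a - q)) = #(P a q) := by
  refine Finset.card_bij (fun u _ => a - u) ?_ ?_ ?_
  · intro u hu
    obtain ⟨h1, h2⟩ := mem_P.1 hu
    refine mem_P.2 ⟨tsub_le_self, ?_⟩
    rw [deg_sub h1]
    omega
  · intro u hu v hv huv
    have h1 := (mem_P.1 hu).1
    have h2 := (mem_P.1 hv).1
    rw [← tsub_tsub_cancel_of_le h1, huv, tsub_tsub_cancel_of_le h2]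
  · intro u hu
    obtain ⟨h1, h2⟩ := mem_P.1 hu
    refine ⟨a - u, mem_P.2 ⟨tsub_le_self, ?_⟩, tsub_tsub_cancel_of_le h1⟩
    rw [deg_sub h1, h2]

lemma Shifted.rk {n : ℕ} {a : Fin n → ℕ} {G : Finset (Fin n → ℕ)} (h : Shifted a G) (q : ℕ) :
    Shifted a (rk G q) := by
  intro v k i hki hv hva
  obtain ⟨h1, h2⟩ := mem_rk.1 hv
  refine mem_rk.2 ⟨h v k i hki h1 hva, ?_⟩
  rw [deg_add_un] at h2 ⊢
  exact h2

lemma IsUp.up_rk {n : ℕ} {a : Fin n → ℕ} {G : Finset (Fin n → ℕ)} (h : IsUp a G) (q : ℕ) :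
    upS a (rk G q) ⊆ rk G (q + 1) := by
  intro w hw
  obtain ⟨hwa, u, hu, i, rfl⟩ := mem_up.1 hw
  obtain ⟨h1, h2⟩ := mem_rk.1 hu
  refine mem_rk.2 ⟨h.2 u h1 i hwa, ?_⟩
  rw [deg_add_un, h2]

lemma IsUp.rk_subset {n : ℕ} {a : Fin n → ℕ} {G : Finset (Fin n → ℕ)} (h : IsUp a G) (q : ℕ) :
    rk G q ⊆ P a q := by
  intro w hw
  obtain ⟨h1, h2⟩ := mem_rk.1 hw
  exact mem_P.2 ⟨h.1 w h1, h2⟩

theorem key_antitone {n : ℕ} {a : Fin n → ℕ} (ha : Antitone a) {B : Finset (Fin n → ℕ)}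
    (hBa : ∀ u ∈ B, u ≤ a) (hB : IsIdl B) (hna : a ∉ B) :
    ∃ Z : Finset (Fin n → ℕ), IsIdl Z ∧
      ∀ q, 2 * q < deg a → #(rk B q) = #(rk B (deg a - q)) + #(rk Z q) := by
  classical
  -- the two up-sets
  have hF : IsUp a (Finset.Iic a \ B) := by
    refine ⟨fun u hu => Finset.mem_Iic.1 (Finset.mem_sdiff.1 hu).1, fun u hu j hj => ?_⟩
    refine Finset.mem_sdiff.2 ⟨Finset.mem_Iic.2 hj, fun hcon => ?_⟩
    exact (Finset.mem_sdiff.1 hu).2 (hB.1 _ hcon _ (le_add_un u j))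
  have hF' : IsUp a ((Finset.Iic a).filter fun u => a - u ∈ B) := by
    refine ⟨fun u hu => Finset.mem_Iic.1 (Finset.mem_filter.1 hu).1, fun u hu j hj => ?_⟩
    refine Finset.mem_filter.2 ⟨Finset.mem_Iic.2 hj, ?_⟩
    exact hB.1 _ (Finset.mem_filter.1 hu).2 _ (tsub_le_tsub_left (le_add_un u j) a)
  have hf : ∀ q, #(rk (Finset.Iic a \ B) q) + #(rk B q) = #(P a q) := by
    intro q
    rw [← Finset.card_union_of_disjoint]
    · congr 1
      ext u
      rw [Finset.mem_union, mem_rk, mem_rk, mem_P, Finset.mem_sdiff, Finset.mem_Iic]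
      constructor
      · rintro (⟨⟨h1, _⟩, h2⟩ | ⟨h1, h2⟩)
        · exact ⟨h1, h2⟩
        · exact ⟨hBa _ h1, h2⟩
      · rintro ⟨h1, h2⟩
        by_cases h3 : u ∈ B
        · exact Or.inr ⟨h3, h2⟩
        · exact Or.inl ⟨⟨h1, h3⟩, h2⟩
    · rw [Finset.disjoint_left]
      intro u h1 h2
      exact (Finset.mem_sdiff.1 (mem_rk.1 h1).1).2 (mem_rk.1 h2).1
  have hf' : ∀ q, q ≤ deg a →
      #(rk ((Finset.Iic a).filter fun u => a - u ∈ B) q) = #(rk B (deg a - q)) := by
    intro q hq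
    refine Finset.card_bij (fun u _ => a - u) ?_ ?_ ?_
    · intro u hu
      obtain ⟨h1, h2⟩ := mem_rk.1 hu
      obtain ⟨h3, h4⟩ := Finset.mem_filter.1 h1
      refine mem_rk.2 ⟨h4, ?_⟩
      rw [deg_sub (Finset.mem_Iic.1 h3), h2]
    · intro u hu v hv huv
      have h1 := Finset.mem_Iic.1 (Finset.mem_filter.1 (mem_rk.1 hu).1).1
      have h2 := Finset.mem_Iic.1 (Finset.mem_filter.1 (mem_rk.1 hv).1).1
      rw [← tsub_tsub_cancel_of_le h1, huv, tsub_tsub_cancel_of_le h2]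
    · intro u hu
      obtain ⟨h1, h2⟩ := mem_rk.1 hu
      have h3 := hBa _ h1
      refine ⟨a - u, mem_rk.2 ⟨Finset.mem_filter.2 ⟨Finset.mem_Iic.2 tsub_le_self, ?_⟩, ?_⟩,
        tsub_tsub_cancel_of_le h3⟩
      · rw [tsub_tsub_cancel_of_le h3]; exact h1
      · rw [deg_sub h3, h2]; omega
  obtain ⟨G, hG, hGs, hGc⟩ := exists_shifted ha hF
  obtain ⟨G', hG', hGs', hGc'⟩ := exists_shifted ha hF'
  have hg : ∀ q, #(rk G q) + #(rk B q) = #(P a q) := by
    intro q
    rw [← hf q]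
    congr 1
    exact hGc q
  have hg' : ∀ q, q ≤ deg a → #(rk G' q) = #(rk B (deg a - q)) := by
    intro q hq
    rw [← hf' q hq]
    exact hGc' q
  have hex : ∀ q, ∃ L, LexInit a q L ∧ #L = min (#(P a q)) (#(rk G q) + #(rk G' q)) :=
    fun q => exists_lexInit a q _ (min_le_left _ _)
  choose L hL hLc using hex
  have hup : ∀ q, upS a (L q) ⊆ L (q + 1) := by
    intro q
    refine (hL q).up.nested (hL (q + 1)) ?_
    rw [hLc (q + 1)]
    refine le_min (Finset.card_le_card (hL q).up.1) ?_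
    have h1 := card_up_le (hG.rk_subset q) (hG'.rk_subset q) (hGs.rk q) (hGs'.rk q) (hL q)
      (by rw [hLc q]; exact min_le_right _ _)
    exact h1.trans (add_le_add (Finset.card_le_card (hG.up_rk q))
      (Finset.card_le_card (hG'.up_rk q)))
  have hmono : ∀ (m : ℕ) {q : ℕ} {u w : Fin n → ℕ}, u ∈ L q → u ≤ w → w ≤ a →
      deg w = q + m → w ∈ L (q + m) := by
    intro m
    induction m with
    | zero =>
      intro q u w hu huw hwa hd
      have h1 := (mem_P.1 ((hL q).1 hu)).2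
      have : u = w := eq_of_le_of_deg huw (by omega)
      exact this ▸ hu
    | succ m ih =>
      intro q u w hu huw hwa hd
      have h1 := (mem_P.1 ((hL q).1 hu)).2
      obtain ⟨x, i, hx, hux⟩ := exists_between huw (by omega)
      have hwx : deg w = deg x + 1 := by rw [hx, deg_add_un]
      have hxw : x ≤ w := by rw [hx]; exact le_add_un x i
      have := ih hu hux (hxw.trans hwa) (by omega)
      exact hup (q + m) (mem_up.2 ⟨hwa, x, this, i, hx.symm⟩)
  have ha0 : 0 < deg a := by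
    rw [Nat.pos_iff_ne_zero]
    intro h0
    have : (0 : Fin n → ℕ) = a := by
      refine eq_of_le_of_deg (fun i => Nat.zero_le _) ?_
      rw [h0]; simp [deg]
    exact hna (this ▸ hB.2)
  have hdeg0 : deg (0 : Fin n → ℕ) = 0 := by simp [deg]
  refine ⟨(Finset.Iic a).filter fun u => 2 * deg u < deg a ∧ u ∉ L (deg u), ⟨?_, ?_⟩, ?_⟩
  · intro w hw u huw
    obtain ⟨h1, h2, h3⟩ := Finset.mem_filter.1 hw
    have h4 := deg_mono huw
    refine Finset.mem_filter.2 ⟨Finset.mem_Iic.2 (huw.trans (Finset.mem_Iic.1 h1)),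
      by omega, fun h5 => h3 ?_⟩
    have := hmono (deg w - deg u) h5 huw (Finset.mem_Iic.1 h1) (by omega)
    have e : deg u + (deg w - deg u) = deg w := by omega
    rwa [e] at this
  · refine Finset.mem_filter.2 ⟨Finset.mem_Iic.2 (fun i => Nat.zero_le _), ?_, ?_⟩
    · rw [hdeg0]; omega
    · rw [hdeg0]
      have h1 := hg 0
      have h2 := hg' 0 (Nat.zero_le _)
      have h3 : #(P a 0) = 1 := by
        rw [Finset.card_eq_one]
        refine ⟨0, Finset.eq_singleton_iff_unique_mem.2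
          ⟨mem_P.2 ⟨fun i => Nat.zero_le _, hdeg0⟩, fun u hu => ?_⟩⟩
        have hle0 : (0 : Fin n → ℕ) ≤ u := fun i => Nat.zero_le _
        exact (eq_of_le_of_deg hle0 (by rw [hdeg0, (mem_P.1 hu).2])).symm
      have h4 : 0 < #(rk B 0) := Finset.card_pos.2 ⟨0, mem_rk.2 ⟨hB.2, hdeg0⟩⟩
      have h5 : #(rk B (deg a - 0)) = 0 := by
        rw [Finset.card_eq_zero, Finset.eq_empty_iff_forall_notMem]
        intro u hu
        obtain ⟨h6, h7⟩ := mem_rk.1 hu
        have : u = a := eq_of_le_of_deg (hBa u h6) (by omega)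
        exact hna (this ▸ h6)
      have h6 := hLc 0
      have h7 : #(L 0) = 0 := by omega
      rw [Finset.card_eq_zero] at h7
      rw [h7]
      exact Finset.notMem_empty _
  · intro q hq
    have hZ : rk ((Finset.Iic a).filter fun u => 2 * deg u < deg a ∧ u ∉ L (deg u)) q =
        P a q \ L q := by
      ext u
      rw [mem_rk, Finset.mem_filter, Finset.mem_Iic, Finset.mem_sdiff, mem_P]
      constructor
      · rintro ⟨⟨h1, _, h3⟩, rfl⟩
        exact ⟨⟨h1, rfl⟩, h3⟩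
      · rintro ⟨⟨h1, rfl⟩, h3⟩
        exact ⟨⟨h1, hq, h3⟩, rfl⟩
    rw [hZ, Finset.card_sdiff_of_subset (hL q).1, hLc q]
    have h1 := hg q
    have h2 := hg' q (by omega)
    have h3 := hg (deg a - q)
    have h4 := hg' (deg a - q) (by omega)
    have h5 := card_P_symm a (q := q) (by omega)
    have e : deg a - (deg a - q) = q := by omega
    rw [e] at h4
    have hle : #(rk B (deg a - q)) ≤ #(rk B q) := by
      by_contra hcon
      push Not at hcon
      have hfull : L q = P a q := Finset.eq_of_subset_of_card_le (hL q).1 (by rw [hLc q]; omega)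
      have hfull' : P a (deg a - q) ⊆ L (deg a - q) := by
        intro w hw
        obtain ⟨hwa, hwd⟩ := mem_P.1 hw
        obtain ⟨x, hx, hxd⟩ := exists_le_deg w q (by omega)
        have hxL : x ∈ L q := by
          rw [hfull]
          exact mem_P.2 ⟨hx.trans hwa, hxd⟩
        have := hmono (deg a - q - q) hxL hx hwa (by omega)
        have e' : q + (deg a - q - q) = deg a - q := by omega
        rwa [e'] at this
      have h6 := Finset.card_le_card hfull'
      rw [hLc (deg a - q)] at h6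
      omega
    omega

/-- permuting coordinates -/
def prm {n : ℕ} (σ : Equiv.Perm (Fin n)) (F : Finset (Fin n → ℕ)) : Finset (Fin n → ℕ) :=
  F.map ⟨fun u => u ∘ σ, fun u v h => by
    funext i
    have := congrFun h (σ.symm i)
    simpa using this⟩

lemma mem_prm {n : ℕ} {σ : Equiv.Perm (Fin n)} {F : Finset (Fin n → ℕ)} {u : Fin n → ℕ} :
    u ∈ prm σ F ↔ u ∘ σ.symm ∈ F := by
  rw [prm, Finset.mem_map]
  constructor
  · rintro ⟨v, hv, rfl⟩
    have : (v ∘ σ) ∘ σ.symm = v := by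
      funext i; simp
    show (v ∘ σ) ∘ σ.symm ∈ F
    rwa [this]
  · intro h
    refine ⟨_, h, ?_⟩
    show (u ∘ σ.symm) ∘ σ = u
    funext i
    simp

lemma deg_comp {n : ℕ} (σ : Equiv.Perm (Fin n)) (u : Fin n → ℕ) : deg (u ∘ σ) = deg u := by
  simp only [deg, Function.comp]
  exact Equiv.sum_comp σ u

lemma card_rk_prm {n : ℕ} (σ : Equiv.Perm (Fin n)) (F : Finset (Fin n → ℕ)) (q : ℕ) :
    #(rk (prm σ F) q) = #(rk F q) := by
  symm
  refine Finset.card_bij (fun u _ => u ∘ σ) ?_ ?_ ?_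
  · intro u hu
    obtain ⟨h1, h2⟩ := mem_rk.1 hu
    refine mem_rk.2 ⟨mem_prm.2 ?_, by rw [deg_comp, h2]⟩
    have : (u ∘ σ) ∘ σ.symm = u := by
      funext i; simp
    rwa [this]
  · intro u _ v _ h
    funext i
    have := congrFun h (σ.symm i)
    simpa using this
  · intro u hu
    obtain ⟨h1, h2⟩ := mem_rk.1 hu
    refine ⟨u ∘ σ.symm, mem_rk.2 ⟨mem_prm.1 h1, by rw [deg_comp, h2]⟩, ?_⟩
    funext i; simp

theorem key {n : ℕ} {a : Fin n → ℕ} {B : Finset (Fin n → ℕ)}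
    (hBa : ∀ u ∈ B, u ≤ a) (hB : IsIdl B) (hna : a ∉ B) :
    ∃ Z : Finset (Fin n → ℕ), IsIdl Z ∧
      ∀ q, 2 * q < deg a → #(rk B q) = #(rk B (deg a - q)) + #(rk Z q) := by
  obtain ⟨σ, hσ⟩ : ∃ σ : Equiv.Perm (Fin n), Antitone (a ∘ σ) := by
    refine ⟨Fin.revPerm.trans (Tuple.sort a), fun i j hij => ?_⟩
    have := Tuple.monotone_sort a (Fin.rev_le_rev.2 hij)
    simpa using this
  have h1 : ∀ u ∈ prm σ B, u ≤ a ∘ σ := by
    intro u hu i
    have := hBa _ (mem_prm.1 hu) (σ i)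
    simpa using this
  have h2 : IsIdl (prm σ B) := by
    constructor
    · intro u hu v hv
      rw [mem_prm] at hu ⊢
      exact hB.1 _ hu _ (fun i => hv (σ.symm i))
    · rw [mem_prm]
      exact hB.2
  have h3 : a ∘ σ ∉ prm σ B := by
    rw [mem_prm]
    have : (a ∘ σ) ∘ σ.symm = a := by
      funext i; simp
    rwa [this]
  obtain ⟨Z, hZ, hZc⟩ := key_antitone hσ h1 h2 h3
  refine ⟨Z, hZ, fun q hq => ?_⟩
  have := hZc q (by rwa [deg_comp])
  rwa [deg_comp, card_rk_prm, card_rk_prm] at this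

/-- the order ideal generated by `M` -/
def gen {n : ℕ} (M : Finset (Fin n → ℕ)) : Finset (Fin n → ℕ) := M.biUnion fun m => Finset.Iic m

lemma mem_gen {n : ℕ} {M : Finset (Fin n → ℕ)} {u : Fin n → ℕ} :
    u ∈ gen M ↔ ∃ m ∈ M, u ≤ m := by
  simp [gen]

theorem compl_vec {n : ℕ} (d : ℕ) (M : Finset (Fin n → ℕ)) (hM : ∀ m ∈ M, deg m = d) :
    ∃ (r : ℕ) (Z : Fin r → Finset (Fin n → ℕ)), (∀ j, IsIdl (Z j)) ∧
      ∀ q, 2 * q < d → #(rk (gen M) (d - q)) = #(rk (gen M) q) + ∑ j, #(rk (Z j) q) := by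
  classical
  induction M using Finset.induction_on with
  | empty =>
    refine ⟨0, fun j => j.elim0, fun j => j.elim0, fun q _ => ?_⟩
    simp [gen, rk]
  | insert m M hmM ih =>
    obtain ⟨r, Z, hZ, hc⟩ := ih fun x hx => hM x (Finset.mem_insert_of_mem hx)
    have hmd : deg m = d := hM m (Finset.mem_insert_self _ _)
    -- inclusion-exclusion
    have hie : ∀ q, #(rk (gen (insert m M)) q) + #(rk (gen M ∩ Finset.Iic m) q) =
        #(rk (gen M) q) + #(P m q) := by
      intro q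
      have h1 : rk (gen (insert m M)) q = rk (gen M) q ∪ P m q := by
        ext u
        simp only [mem_rk, mem_gen, Finset.mem_union, mem_P, Finset.mem_insert]
        constructor
        · rintro ⟨⟨x, hx | hx, hux⟩, hd⟩
          · exact Or.inr ⟨hx ▸ hux, hd⟩
          · exact Or.inl ⟨⟨x, hx, hux⟩, hd⟩
        · rintro (⟨⟨x, hx, hux⟩, hd⟩ | ⟨hu, hd⟩)
          · exact ⟨⟨x, Or.inr hx, hux⟩, hd⟩
          · exact ⟨⟨m, Or.inl rfl, hu⟩, hd⟩
      have h2 : rk (gen M ∩ Finset.Iic m) q = rk (gen M) q ∩ P m q := by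
        ext u
        simp only [mem_rk, Finset.mem_inter, mem_P, Finset.mem_Iic]
        tauto
      rw [h1, h2, Finset.card_union_add_card_inter]
    by_cases hMe : M = ∅
    · subst hMe
      refine ⟨0, fun j => j.elim0, fun j => j.elim0, fun q hq => ?_⟩
      have h1 := hie q
      have h2 := hie (d - q)
      have h3 : ∀ q, rk (gen (∅ : Finset (Fin n → ℕ))) q = ∅ := by
        intro q; simp [gen, rk]
      have h4 : ∀ q, rk (gen (∅ : Finset (Fin n → ℕ)) ∩ Finset.Iic m) q = ∅ := by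
        intro q; simp [gen, rk]
      have h5 := card_P_symm m (q := q) (by omega)
      rw [h3, h4] at h1 h2
      rw [hmd] at h5
      simp only [Finset.card_empty, Finset.univ_eq_empty, Finset.sum_empty] at h1 h2 ⊢
      omega
    · obtain ⟨x, hx⟩ := Finset.nonempty_iff_ne_empty.2 hMe
      have k1 : ∀ u ∈ gen M ∩ Finset.Iic m, u ≤ m := by
        intro u hu
        exact Finset.mem_Iic.1 (Finset.mem_inter.1 hu).2
      have k2 : IsIdl (gen M ∩ Finset.Iic m) := by
        constructor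
        · intro u hu v hv
          obtain ⟨h1, h2⟩ := Finset.mem_inter.1 hu
          obtain ⟨y, hy, huy⟩ := mem_gen.1 h1
          exact Finset.mem_inter.2 ⟨mem_gen.2 ⟨y, hy, hv.trans huy⟩,
            Finset.mem_Iic.2 (hv.trans (Finset.mem_Iic.1 h2))⟩
        · exact Finset.mem_inter.2 ⟨mem_gen.2 ⟨x, hx, fun i => Nat.zero_le _⟩,
            Finset.mem_Iic.2 fun i => Nat.zero_le _⟩
      have k3 : m ∉ gen M ∩ Finset.Iic m := by
        intro hcon
        obtain ⟨y, hy, hmy⟩ := mem_gen.1 (Finset.mem_inter.1 hcon).1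
        have hyd := hM y (Finset.mem_insert_of_mem hy)
        have : m = y := eq_of_le_of_deg hmy (by omega)
        exact hmM (this ▸ hy)
      obtain ⟨Z', hZ', hc'⟩ := key k1 k2 k3
      refine ⟨r + 1, Fin.cons Z' Z, ?_, fun q hq => ?_⟩
      · intro j
        refine Fin.cases ?_ (fun j => ?_) j
        · simpa using hZ'
        · simpa using hZ j
      · rw [Fin.sum_univ_succ]
        simp only [Fin.cons_zero, Fin.cons_succ]
        have h1 := hie q
        have h2 := hie (d - q)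
        have h3 := hc q hq
        have h4 := hc' q (by omega)
        have h5 := card_P_symm m (q := q) (by omega)
        rw [hmd] at h4 h5
        omega

end Pool.Agent.Lib.MP_d42654_co
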