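import Pool.Agent.Lib.MP_d42654_co.Defs
import Pool.Agent.Lib.MP_d42654_co.Box

namespace Pool.Agent.Lib.MP_d42654_co

open MvPolynomial

section aux

variable {K : Type*} [Field K] {n : ℕ}

/-- the exponent vector as a finitely supported function -/
noncomputable def ex (u : Fin n → ℕ) : Fin n →₀ ℕ := Finsupp.equivFunOnFinite.symm u

lemma ex_apply (u : Fin n → ℕ) (i : Fin n) : ex u i = u i := by
  simp [ex]

lemma exists_ex (m : Fin n →₀ ℕ) : ∃ u, m = ex u :=
  ⟨m, by ext i; rw [ex_apply]⟩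

lemma ex_le {u v : Fin n → ℕ} : ex u ≤ ex v ↔ u ≤ v := by
  constructor
  · intro h i
    have := h i
    rwa [ex_apply, ex_apply] at this
  · intro h i
    rw [ex_apply, ex_apply]
    exact h i

lemma ex_inj {u v : Fin n → ℕ} : ex u = ex v ↔ u = v :=
  (Finsupp.equivFunOnFinite.symm : (Fin n → ℕ) ≃ (Fin n →₀ ℕ)).injective.eq_iff

lemma ex_add_un (u : Fin n → ℕ) (i : Fin n) : ex (u + un i) = ex u + Finsupp.single i 1 := by
  ext j
  rw [Finsupp.add_apply, ex_apply, ex_apply]
  simp [un, Pi.single_apply, Finsupp.single_apply, eq_comm]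

lemma degree_ex (u : Fin n → ℕ) : Finsupp.degree (ex u) = deg u := by
  rw [Finsupp.degree_eq_sum]
  exact Finset.sum_congr rfl fun i _ => ex_apply u i

/-- the class of a monomial -/
noncomputable def mon (I : Ideal (MvPolynomial (Fin n) K)) (u : Fin n → ℕ) :
    MvPolynomial (Fin n) K ⧸ I :=
  Ideal.Quotient.mk I (monomial (ex u) (1 : K))

lemma IsMonomialIdeal.mem_iff {I : Ideal (MvPolynomial (Fin n) K)} (hI : IsMonomialIdeal I)
    (p : MvPolynomial (Fin n) K) :
    p ∈ I ↔ ∀ m ∈ p.support, monomial m (1 : K) ∈ I := by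
  obtain ⟨s, rfl⟩ := hI
  rw [mem_ideal_span_monomial_image]
  refine forall₂_congr fun m _ => ?_
  rw [mem_ideal_span_monomial_image]
  simp

lemma mem_of_le {I : Ideal (MvPolynomial (Fin n) K)} {u v : Fin n → ℕ} (h : v ≤ u)
    (hv : monomial (ex v) (1 : K) ∈ I) : monomial (ex u) (1 : K) ∈ I := by
  have : monomial (ex u) (1 : K) = monomial (ex u - ex v) (1 : K) * monomial (ex v) (1 : K) := by
    rw [monomial_mul, one_mul, tsub_add_cancel_of_le (ex_le.2 h)]
  rw [this]
  exact Ideal.mul_mem_left _ _ hv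

lemma smul_mon (I : Ideal (MvPolynomial (Fin n) K)) (c : K) (u : Fin n → ℕ) :
    c • mon I u = (Ideal.Quotient.mkₐ K I).toLinearMap (monomial (ex u) c) := by
  have : monomial (ex u) c = c • monomial (ex u) (1 : K) := by
    rw [smul_monomial, smul_eq_mul, mul_one]
  rw [this, map_smul]
  rfl

lemma linInd {I : Ideal (MvPolynomial (Fin n) K)} (hI : IsMonomialIdeal I) {ι : Type*}
    (f : ι → (Fin n → ℕ)) (hf : Function.Injective f)
    (hfI : ∀ i, monomial (ex (f i)) (1 : K) ∉ I) :
    LinearIndependent K fun i => mon I (f i) := by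
  classical
  rw [linearIndependent_iff']
  intro s g hs i hi
  by_contra hne
  have h1 : (Ideal.Quotient.mkₐ K I).toLinearMap (∑ j ∈ s, monomial (ex (f j)) (g j)) = 0 := by
    rw [map_sum, ← hs]
    exact Finset.sum_congr rfl fun j _ => (smul_mon I (g j) (f j)).symm
  have h2 : ∑ j ∈ s, monomial (ex (f j)) (g j) ∈ I := by
    rw [← Ideal.Quotient.eq_zero_iff_mem]
    exact h1
  refine hfI i ((hI.mem_iff _).1 h2 _ ?_)
  rw [mem_support_iff, coeff_sum, Finset.sum_eq_single i]
  · simpa using hne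
  · intro j _ hji
    rw [coeff_monomial, if_neg]
    intro h
    exact hji (hf (ex_inj.1 h))
  · intro h
    exact absurd hi h

lemma map_mem_span {I : Ideal (MvPolynomial (Fin n) K)} {T : Set (Fin n → ℕ)}
    (p : MvPolynomial (Fin n) K)
    (hT : ∀ u, ex u ∈ p.support → monomial (ex u) (1 : K) ∉ I → u ∈ T) :
    Ideal.Quotient.mk I p ∈ Submodule.span K (mon I '' T) := by
  rw [p.as_sum, map_sum]
  refine Submodule.sum_mem _ fun m hm => ?_
  obtain ⟨u, rfl⟩ := exists_ex m
  have e : Ideal.Quotient.mk I (monomial (ex u) (coeff (ex u) p)) = coeff (ex u) p • mon I u :=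
    (smul_mon I _ u).symm
  rw [e]
  refine Submodule.smul_mem _ _ ?_
  by_cases h : monomial (ex u) (1 : K) ∈ I
  · have : mon I u = 0 := Ideal.Quotient.eq_zero_iff_mem.2 h
    rw [this]
    exact Submodule.zero_mem _
  · exact Submodule.subset_span ⟨u, hT u hm h, rfl⟩

lemma hilbert_eq {I : Ideal (MvPolynomial (Fin n) K)} (hI : IsMonomialIdeal I)
    {O : Finset (Fin n → ℕ)} (hO : ∀ u, u ∈ O ↔ monomial (ex u) (1 : K) ∉ I) (q : ℕ) :
    hilbertFunction I q = (rk O q).card := by
  have hspan : gradedPiece I q =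
      Submodule.span K (Set.range fun u : rk O q => mon I (u : Fin n → ℕ)) := by
    refine le_antisymm ?_ ?_
    · rintro _ ⟨p, hp, rfl⟩
      have hp' : p.IsHomogeneous q := (mem_homogeneousSubmodule q p).1 hp
      have h1 : Ideal.Quotient.mk I p ∈ Submodule.span K (mon I '' (rk O q : Set (Fin n → ℕ))) := by
        refine map_mem_span p fun u hu hu' => ?_
        refine Finset.mem_coe.2 (mem_rk.2 ⟨(hO u).2 hu', ?_⟩)
        rw [← degree_ex]
        by_contra hne
        exact (mem_support_iff.1 hu) (hp'.coeff_eq_zero hne)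
      have h2 : mon I '' (rk O q : Set (Fin n → ℕ)) =
          Set.range fun u : rk O q => mon I (u : Fin n → ℕ) := by
        rw [Set.image_eq_range]
        rfl
      rw [h2] at h1
      exact h1
    · rw [Submodule.span_le]
      rintro _ ⟨⟨u, hu⟩, rfl⟩
      refine ⟨monomial (ex u) (1 : K), ?_, rfl⟩
      refine (mem_homogeneousSubmodule q _).2 (isHomogeneous_monomial _ ?_)
      rw [degree_ex]
      exact (mem_rk.1 hu).2
  rw [hilbertFunction, hspan, finrank_span_eq_card, Fintype.card_coe]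
  exact linInd hI _ Subtype.val_injective fun u => (hO u).1 (mem_rk.1 u.2).1

lemma mVector_of_isIdl {Z : Finset (Fin n → ℕ)} (hZ : IsIdl Z) :
    IsMVector K fun q => (rk Z q).card := by
  classical
  set I : Ideal (MvPolynomial (Fin n) K) :=
    Ideal.span ((fun m => monomial m (1 : K)) '' {m | ∃ u, u ∉ Z ∧ m = ex u}) with hIdef
  have hI : IsMonomialIdeal I := ⟨_, hIdef⟩
  have hO : ∀ u, u ∈ Z ↔ monomial (ex u) (1 : K) ∉ I := by
    intro u
    rw [hIdef, mem_ideal_span_monomial_image]
    simp only [mem_support_iff, coeff_monomial, ne_eq, ite_eq_right_iff, one_ne_zero, imp_false,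
      not_not, forall_eq']
    constructor
    · rintro hu ⟨m, ⟨v, hv, rfl⟩, hle⟩
      exact hv (hZ.1 u hu v (ex_le.1 hle))
    · intro h
      by_contra hu
      exact h ⟨ex u, ⟨u, hu, rfl⟩, le_rfl⟩
  refine ⟨n, I, hI, ?_, ?_, fun q => (hilbert_eq hI hO q).symm⟩
  · intro htop
    have := (hO 0).1 hZ.2
    rw [htop] at this
    exact this Submodule.mem_top
  · have htop : (⊤ : Submodule K (MvPolynomial (Fin n) K ⧸ I)) =
        Submodule.span K (mon I '' (Z : Set (Fin n → ℕ))) := by
      symm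
      rw [eq_top_iff]
      intro y _
      obtain ⟨p, rfl⟩ := Ideal.Quotient.mk_surjective y
      exact map_mem_span p fun u _ hu => (hO u).2 hu
    refine ⟨?_⟩
    rw [htop]
    exact Submodule.fg_span (Set.Finite.image _ Z.finite_toSet)

lemma exists_ideal {d : ℕ} {a : ℕ → ℕ} (h : IsPureOSequence K d a) :
    ∃ (n : ℕ) (M : Finset (Fin n → ℕ)), (∀ m ∈ M, deg m = d) ∧ ∀ q, a q = (rk (gen M) q).card := by
  classical
  obtain ⟨n, I, hI, hfin, -, hd1, hsoc, ha⟩ := h
  have hOfin : {u : Fin n → ℕ | monomial (ex u) (1 : K) ∉ I}.Finite := by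
    have hli := linInd hI (fun u : {u : Fin n → ℕ | monomial (ex u) (1 : K) ∉ I} => (u : Fin n → ℕ))
      Subtype.val_injective fun u => u.2
    have := hli.finite
    exact Set.toFinite _
  set O := hOfin.toFinset with hOdef
  have hO : ∀ u, u ∈ O ↔ monomial (ex u) (1 : K) ∉ I := by
    intro u
    rw [hOdef, Set.Finite.mem_toFinset]
    rfl
  have hdown : ∀ u ∈ O, ∀ v, v ≤ u → v ∈ O := by
    intro u hu v hv
    rw [hO] at hu ⊢
    exact fun h => hu (mem_of_le hv h)
  have hdeg : ∀ u ∈ O, deg u ≤ d := by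
    intro u hu
    by_contra hcon
    push Not at hcon
    obtain ⟨x, hx, hxd⟩ := exists_le_deg u (d + 1) hcon
    have hxO := hdown u hu x hx
    have h1 : mon I x ∈ gradedPiece I (d + 1) := by
      refine ⟨monomial (ex x) (1 : K), ?_, rfl⟩
      refine (mem_homogeneousSubmodule _ _).2 (isHomogeneous_monomial _ ?_)
      rw [degree_ex, hxd]
    rw [hd1, Submodule.mem_bot] at h1
    exact (hO x).1 hxO (Ideal.Quotient.eq_zero_iff_mem.1 h1)
  have hmax : ∀ w, Maximal (fun x => x ∈ O) w → deg w = d := by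
    intro w hw
    have h1 : mon I w ∈ gradedPiece I d := by
      refine hsoc _ fun i => ?_
      have h2 : mon I w * Ideal.Quotient.mk I (X i) = mon I (w + un i) := by
        rw [mon, mon, ex_add_un, ← map_mul]
        congr 1
        rw [X, monomial_mul, one_mul]
      rw [h2]
      by_contra hne
      have h3 : w + un i ∈ O := (hO _).2 fun h => hne (Ideal.Quotient.eq_zero_iff_mem.2 h)
      have h4 := hw.2 h3 (le_add_un w i)
      have h5 := deg_mono h4
      rw [deg_add_un] at h5
      omega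
    obtain ⟨p, hp, hpw⟩ := h1
    have hp' : p.IsHomogeneous d := (mem_homogeneousSubmodule d p).1 hp
    by_contra hne
    have h2 : monomial (ex w) (1 : K) - p ∈ I := by
      rw [← Ideal.Quotient.eq_zero_iff_mem, map_sub, sub_eq_zero]
      exact hpw.symm
    refine (hO w).1 hw.1 ((hI.mem_iff _).1 h2 _ ?_)
    rw [mem_support_iff, coeff_sub, hp'.coeff_eq_zero (by rwa [degree_ex])]
    simp
  refine ⟨n, rk O d, fun m hm => (mem_rk.1 hm).2, fun q => ?_⟩
  have hgen : gen (rk O d) = O := by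
    ext u
    rw [mem_gen]
    constructor
    · rintro ⟨m, hm, hum⟩
      exact hdown m (mem_rk.1 hm).1 u hum
    · intro hu
      obtain ⟨w, huw, hw⟩ := O.exists_le_maximal hu
      exact ⟨w, mem_rk.2 ⟨hw.1, hmax w hw⟩, huw⟩
  rw [hgen, ha q, hilbert_eq hI hO]

end aux

end Pool.Agent.Lib.MP_d42654_co
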