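import Pool.Agent.Lib.MP_d42654_co.Shadow

namespace Pool.Agent.Lib.MP_d42654_co

open Finset

def IsUp {n : ℕ} (a : Fin n → ℕ) (F : Finset (Fin n → ℕ)) : Prop :=
  (∀ u ∈ F, u ≤ a) ∧ ∀ u ∈ F, ∀ j, u + un j ≤ a → u + un j ∈ F

lemma fiber_i {ai ak t : ℕ} (hik : ai ≤ ak) {V V' : Finset ℕ}
    (hV : ∀ c ∈ V, c ≤ ai ∧ c ≤ t ∧ t ≤ c + ak)
    (H1 : ∀ c ∈ V, c < ai → c + 1 ∈ V') (H2 : ∀ c ∈ V, t < c + ak → c ∈ V')
    {x : ℕ} (hx : x < ai) (hxt : x ≤ t) (h : min ai t - x < #V) :
    min ai (t + 1) - (x + 1) < #V' := by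
  rcases lt_or_ge t ai with hta | hta
  · have hVV' : V ⊆ V' := by
      intro c hc
      exact H2 c hc (by omega)
    have := Finset.card_le_card hVV'
    rw [min_eq_right (by omega)] at h ⊢
    omega
  · have hsub : (V.erase ai).image (fun c => c + 1) ⊆ V' := by
      intro d hd
      obtain ⟨c, hc, rfl⟩ := Finset.mem_image.1 hd
      obtain ⟨hc1, hc2⟩ := Finset.mem_erase.1 hc
      have := hV c hc2
      exact H1 c hc2 (by omega)
    have h1 := Finset.card_le_card hsub
    rw [Finset.card_image_of_injective _ (fun _ _ h => Nat.succ_injective h)] at h1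
    have h2 := Finset.pred_card_le_card_erase (s := V) (a := ai)
    rw [min_eq_left (by omega)] at h ⊢
    omega

lemma fiber_k {ai ak t : ℕ} (hik : ai ≤ ak) {V V' : Finset ℕ}
    (hV : ∀ c ∈ V, c ≤ ai ∧ c ≤ t ∧ t ≤ c + ak)
    (H1 : ∀ c ∈ V, c < ai → c + 1 ∈ V') (H2 : ∀ c ∈ V, t < c + ak → c ∈ V')
    {x : ℕ} (hx : x ≤ ai) (hxt : x ≤ t) (hxk : t < x + ak) (h : min ai t - x < #V) :
    min ai (t + 1) - x < #V' := by
  rcases lt_or_ge t ai with hta | hta
  · have hne : V.Nonempty := by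
      rw [← Finset.card_pos]; omega
    have hsub : insert (V.max' hne + 1) V ⊆ V' := by
      intro c hc
      rcases Finset.mem_insert.1 hc with rfl | hc
      · have hm := hV _ (V.max'_mem hne)
        exact H1 _ (V.max'_mem hne) (by omega)
      · exact H2 c hc (by omega)
    have hnot : V.max' hne + 1 ∉ V := by
      intro hmem
      have := V.le_max' _ hmem
      omega
    have h1 := Finset.card_le_card hsub
    rw [Finset.card_insert_of_notMem hnot] at h1
    rw [min_eq_right (by omega)] at h ⊢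
    omega
  · rw [min_eq_left (by omega)] at h ⊢
    by_cases hgap : ∃ g, g ≤ ai ∧ t ≤ g + ak ∧ g ∉ V
    · obtain ⟨g, hg1, hg2, hg3⟩ := hgap
      have hsub : (V.filter (fun c => c < g)).image (fun c => c + 1) ∪ V.filter (fun c => g < c)
          ⊆ V' := by
        intro d hd
        rcases Finset.mem_union.1 hd with hd | hd
        · obtain ⟨c, hc, rfl⟩ := Finset.mem_image.1 hd
          obtain ⟨hc1, hc2⟩ := Finset.mem_filter.1 hc
          exact H1 c hc1 (by omega)
        · obtain ⟨hc1, hc2⟩ := Finset.mem_filter.1 hd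
          exact H2 d hc1 (by omega)
      have hdisj : Disjoint ((V.filter (fun c => c < g)).image (fun c => c + 1))
          (V.filter (fun c => g < c)) := by
        rw [Finset.disjoint_left]
        intro d hd hd'
        obtain ⟨c, hc, rfl⟩ := Finset.mem_image.1 hd
        have h1 := (Finset.mem_filter.1 hc).2
        have h2 := (Finset.mem_filter.1 hd').2
        omega
      have h1 := Finset.card_le_card hsub
      rw [Finset.card_union_of_disjoint hdisj,
        Finset.card_image_of_injective _ (fun _ _ h => Nat.succ_injective h)] at h1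
      have h2 : #V = #(V.filter (fun c => c < g)) + #(V.filter (fun c => g < c)) := by
        have h3 := Finset.card_filter_add_card_filter_not (s := V) (fun c => c < g)
        have h4 : V.filter (fun c => ¬ c < g) = V.filter (fun c => g < c) := by
          refine Finset.filter_congr fun c hc => ?_
          have : c ≠ g := fun h => hg3 (h ▸ hc)
          omega
        rw [h4] at h3
        omega
      omega
    · push Not at hgap
      have hsub : Finset.Icc x ai ⊆ V' := by
        intro g hg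
        obtain ⟨hg1, hg2⟩ := Finset.mem_Icc.1 hg
        exact H2 g (hgap g hg2 (by omega)) (by omega)
      have h1 := Finset.card_le_card hsub
      rw [Nat.card_Icc] at h1
      omega

lemma top_sum {m : ℕ} {V : Finset ℕ} (hV : V ⊆ range (m + 1)) (ψ : ℕ → ℕ)
    (hψ : ∀ c d, c < d → d ≤ m → ψ c < ψ d) :
    (∑ c ∈ V, ψ c ≤ ∑ c ∈ Finset.Icc (m + 1 - #V) m, ψ c) ∧
    (V ≠ Finset.Icc (m + 1 - #V) m → ∑ c ∈ V, ψ c < ∑ c ∈ Finset.Icc (m + 1 - #V) m, ψ c) := by
  set I := Finset.Icc (m + 1 - #V) m with hI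
  have hVc : #V ≤ m + 1 := by simpa using Finset.card_le_card hV
  have hIc : #I = #V := by
    rw [hI, Nat.card_Icc]; omega
  have hd : #(V \ I) = #(I \ V) := by
    have h1 := Finset.card_sdiff_add_card_inter V I
    have h2 := Finset.card_sdiff_add_card_inter I V
    rw [Finset.inter_comm I V] at h2
    omega
  have hs1 : ∑ c ∈ V, ψ c = ∑ c ∈ V ∩ I, ψ c + ∑ c ∈ V \ I, ψ c :=
    (Finset.sum_inter_add_sum_sdiff V I ψ).symm
  have hs2 : ∑ c ∈ I, ψ c = ∑ c ∈ V ∩ I, ψ c + ∑ c ∈ I \ V, ψ c := by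
    rw [Finset.inter_comm]
    exact (Finset.sum_inter_add_sum_sdiff I V ψ).symm
  have hb1 : ∀ c ∈ V \ I, ψ c + 1 ≤ ψ (m + 1 - #V) := by
    intro c hc
    obtain ⟨hc1, hc2⟩ := Finset.mem_sdiff.1 hc
    have hcm := Finset.mem_range.1 (hV hc1)
    rw [hI, Finset.mem_Icc] at hc2
    have hpos : 0 < #V := Finset.card_pos.2 ⟨c, hc1⟩
    exact hψ c _ (by omega) (by omega)
  have hb2 : ∀ c ∈ I \ V, ψ (m + 1 - #V) ≤ ψ c := by
    intro c hc
    obtain ⟨hc1, hc2⟩ := Finset.mem_sdiff.1 hc
    rw [hI, Finset.mem_Icc] at hc1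
    rcases eq_or_lt_of_le hc1.1 with h | h
    · rw [h]
    · exact (hψ _ c h hc1.2).le
  have h1 := Finset.sum_le_sum hb1
  have h2 := Finset.sum_le_sum hb2
  rw [Finset.sum_add_distrib] at h1
  simp only [Finset.sum_const, smul_eq_mul, mul_one] at h1 h2
  rw [hs1, hs2]
  rw [hd] at h1
  refine ⟨by omega, fun hne => ?_⟩
  have : 0 < #(I \ V) := by
    rw [Nat.pos_iff_ne_zero, Ne, Finset.card_eq_zero, Finset.sdiff_eq_empty_iff_subset]
    intro hsub
    exact hne (Finset.eq_of_subset_of_card_le hsub hIc.ge).symm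
  omega

section comp

variable {n : ℕ} (i k : Fin n)

def mk (w : Fin n → ℕ) (c : ℕ) : Fin n → ℕ :=
  Function.update (Function.update w i c) k (w i + w k - c)

open Classical in
noncomputable def fib (F : Finset (Fin n → ℕ)) (w : Fin n → ℕ) : Finset ℕ :=
  (range (w i + w k + 1)).filter fun c => mk i k w c ∈ F

noncomputable def comp (a : Fin n → ℕ) (F : Finset (Fin n → ℕ)) : Finset (Fin n → ℕ) :=
  (Finset.Iic a).filter fun w => min (a i) (w i + w k) - w i < #(fib i k F w)

variable {i k}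

lemma mem_fib {F : Finset (Fin n → ℕ)} {w : Fin n → ℕ} {c : ℕ} :
    c ∈ fib i k F w ↔ c ≤ w i + w k ∧ mk i k w c ∈ F := by
  classical
  simp [fib]

lemma mem_comp {a : Fin n → ℕ} {F : Finset (Fin n → ℕ)} {w : Fin n → ℕ} :
    w ∈ comp i k a F ↔ w ≤ a ∧ min (a i) (w i + w k) - w i < #(fib i k F w) := by
  simp [comp]

lemma mk_i (hik : i ≠ k) (w : Fin n → ℕ) (c : ℕ) : mk i k w c i = c := by
  simp [mk, hik]

lemma mk_k (w : Fin n → ℕ) (c : ℕ) : mk i k w c k = w i + w k - c := by
  simp [mk]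

lemma mk_of_ne (w : Fin n → ℕ) (c : ℕ) {l : Fin n} (h1 : l ≠ i) (h2 : l ≠ k) :
    mk i k w c l = w l := by
  simp [mk, h1, h2]

lemma mk_ext (hik : i ≠ k) {w : Fin n → ℕ} {c : ℕ} {x : Fin n → ℕ} (h1 : x i = c)
    (h2 : x k = w i + w k - c) (h3 : ∀ l, l ≠ i → l ≠ k → x l = w l) : x = mk i k w c := by
  funext l
  by_cases hl : l = i
  · subst hl; rw [mk_i hik, h1]
  by_cases hl' : l = k
  · subst hl'; rw [mk_k, h2]
  rw [mk_of_ne w c hl hl', h3 l hl hl']

lemma mk_self (hik : i ≠ k) (w : Fin n → ℕ) : mk i k w (w i) = w :=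
  (mk_ext hik rfl (by omega) (fun _ _ _ => rfl)).symm

lemma mk_mk (hik : i ≠ k) (w : Fin n → ℕ) {c : ℕ} (hc : c ≤ w i + w k) (c' : ℕ) :
    mk i k (mk i k w c) c' = mk i k w c' := by
  refine mk_ext hik (mk_i hik _ _) ?_ ?_
  · rw [mk_k, mk_i hik, mk_k]; omega
  · intro l h1 h2
    rw [mk_of_ne _ _ h1 h2, mk_of_ne _ _ h1 h2]

lemma sum_split (hik : i ≠ k) (f : Fin n → ℕ) :
    ∑ l, f l = f i + f k + ∑ l ∈ (Finset.univ.erase i).erase k, f l := by
  rw [← Finset.add_sum_erase _ _ (Finset.mem_univ i),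
    ← Finset.add_sum_erase _ _ (Finset.mem_erase.2 ⟨hik.symm, Finset.mem_univ k⟩), add_assoc]

lemma deg_mk (hik : i ≠ k) (w : Fin n → ℕ) {c : ℕ} (hc : c ≤ w i + w k) :
    deg (mk i k w c) = deg w := by
  unfold deg
  rw [sum_split hik, sum_split hik (f := w), mk_i hik, mk_k]
  have : ∑ l ∈ (Finset.univ.erase i).erase k, mk i k w c l =
      ∑ l ∈ (Finset.univ.erase i).erase k, w l := by
    refine Finset.sum_congr rfl fun l hl => ?_
    simp only [Finset.mem_erase, Finset.mem_univ, and_true] at hl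
    exact mk_of_ne _ _ hl.2 hl.1
  rw [this]
  omega

/-- the weight that compression increases -/
def wt (w : Fin n → ℕ) : ℕ := ∑ l : Fin n, (l : ℕ) * w l

lemma wt_mk (hik : i ≠ k) (w : Fin n → ℕ) (c : ℕ) :
    wt (mk i k w c) = (i : ℕ) * c + (k : ℕ) * (w i + w k - c) +
      ∑ l ∈ (Finset.univ.erase i).erase k, (l : ℕ) * w l := by
  unfold wt
  rw [sum_split hik, mk_i hik, mk_k]
  congr 1
  refine Finset.sum_congr rfl fun l hl => ?_
  simp only [Finset.mem_erase, Finset.mem_univ, and_true] at hl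
  rw [mk_of_ne _ _ hl.2 hl.1]

lemma wt_mk_lt (hki : k < i) (w : Fin n → ℕ) {c d : ℕ} (hcd : c < d) (hd : d ≤ w i + w k) :
    wt (mk i k w c) < wt (mk i k w d) := by
  rw [wt_mk (ne_of_gt hki), wt_mk (ne_of_gt hki)]
  have hki' : (k : ℕ) < i := hki
  obtain ⟨e, he⟩ := Nat.exists_eq_add_of_lt hki'
  obtain ⟨f, hf⟩ := Nat.exists_eq_add_of_lt hcd
  have h1 : w i + w k - c = (w i + w k - d) + (f + 1) := by omega
  rw [h1, he, hf]
  nlinarith [Nat.zero_le (e * f)]

lemma fib_mk (hik : i ≠ k) (F : Finset (Fin n → ℕ)) (w : Fin n → ℕ) {c : ℕ}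
    (hc : c ≤ w i + w k) : fib i k F (mk i k w c) = fib i k F w := by
  ext d
  rw [mem_fib, mem_fib, mk_mk hik w hc, mk_i hik, mk_k]
  have : c + (w i + w k - c) = w i + w k := by omega
  rw [this]

lemma fib_bound (hik : i ≠ k) {a : Fin n → ℕ} {F : Finset (Fin n → ℕ)} (hF : ∀ u ∈ F, u ≤ a)
    (w : Fin n → ℕ) {c : ℕ} (hc : c ∈ fib i k F w) :
    c ≤ a i ∧ c ≤ w i + w k ∧ w i + w k ≤ c + a k := by
  obtain ⟨h1, h2⟩ := mem_fib.1 hc
  have h3 := hF _ h2
  have h4 : mk i k w c i ≤ a i := h3 i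
  have h5 : mk i k w c k ≤ a k := h3 k
  rw [mk_i hik] at h4
  rw [mk_k] at h5
  exact ⟨h4, h1, by omega⟩

/-- the fibre of `F` through `w`, as a set of vectors -/
lemma sum_fibre (hik : i ≠ k) {F : Finset (Fin n → ℕ)} (w : Fin n → ℕ) (φ : (Fin n → ℕ) → ℕ) :
    ∑ u ∈ F.filter (fun u => mk i k u 0 = mk i k w 0), φ u =
      ∑ c ∈ fib i k F w, φ (mk i k w c) := by
  classical
  symm
  refine Finset.sum_bij (fun c _ => mk i k w c) ?_ ?_ ?_ ?_
  · intro c hc
    obtain ⟨h1, h2⟩ := mem_fib.1 hc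
    exact Finset.mem_filter.2 ⟨h2, mk_mk hik w h1 0⟩
  · intro c _ d _ hcd
    have := congrFun hcd i
    rwa [mk_i hik, mk_i hik] at this
  · intro u hu
    obtain ⟨h1, h2⟩ := Finset.mem_filter.1 hu
    have hs : u i + u k = w i + w k := by
      have := congrFun h2 k
      rw [mk_k, mk_k] at this
      omega
    have hu' : u = mk i k w (u i) := by
      refine mk_ext hik rfl (by omega) fun l hl hl' => ?_
      have := congrFun h2 l
      rwa [mk_of_ne _ _ hl hl', mk_of_ne _ _ hl hl'] at this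
    refine ⟨u i, mem_fib.2 ⟨by omega, hu' ▸ h1⟩, hu'.symm⟩
  · intro c _
    rfl

lemma fib_comp (hik : i ≠ k) {a : Fin n → ℕ} {F : Finset (Fin n → ℕ)} (hF : ∀ u ∈ F, u ≤ a)
    {w : Fin n → ℕ} (hw : w ≤ a) :
    fib i k (comp i k a F) w =
      Finset.Icc (min (a i) (w i + w k) + 1 - #(fib i k F w)) (min (a i) (w i + w k)) := by
  have hsub : fib i k F w ⊆ Finset.Icc (w i + w k - a k) (min (a i) (w i + w k)) := by
    intro c hc
    have := fib_bound hik hF w hc
    rw [Finset.mem_Icc]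
    omega
  have hcard := Finset.card_le_card hsub
  rw [Nat.card_Icc] at hcard
  ext c
  rw [mem_fib, mem_comp, Finset.mem_Icc]
  constructor
  · rintro ⟨h1, h2, h3⟩
    rw [fib_mk hik F w h1, mk_i hik, mk_k] at h3
    have h4 : mk i k w c i ≤ a i := h2 i
    have h5 : mk i k w c k ≤ a k := h2 k
    rw [mk_i hik] at h4
    have e : c + (w i + w k - c) = w i + w k := by omega
    rw [e] at h3
    omega
  · rintro ⟨h1, h2⟩
    have hc : c ≤ w i + w k := by omega
    refine ⟨hc, ?_, ?_⟩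
    · intro l
      by_cases hl : l = i
      · subst hl
        rw [mk_i hik]
        show c ≤ a l
        omega
      by_cases hl' : l = k
      · subst hl'
        rw [mk_k]
        show w i + w l - c ≤ a l
        omega
      rw [mk_of_ne _ _ hl hl']
      exact hw l
    · rw [fib_mk hik F w hc, mk_i hik, mk_k]
      have e : c + (w i + w k - c) = w i + w k := by omega
      rw [e]
      omega

lemma comp_le {a : Fin n → ℕ} {F : Finset (Fin n → ℕ)} : ∀ u ∈ comp i k a F, u ≤ a :=
  fun _ hu => (mem_comp.1 hu).1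

lemma sum_by_fibres (a : Fin n → ℕ) {F : Finset (Fin n → ℕ)} (hF : ∀ u ∈ F, u ≤ a)
    (φ : (Fin n → ℕ) → ℕ) :
    ∑ u ∈ F, φ u = ∑ κ ∈ (Finset.Iic a).image (fun w => mk i k w 0),
      ∑ u ∈ F.filter (fun u => mk i k u 0 = κ), φ u := by
  rw [Finset.sum_fiberwise_of_maps_to]
  intro u hu
  exact Finset.mem_image_of_mem _ (Finset.mem_Iic.2 (hF u hu))

lemma card_comp (hik : i ≠ k) {a : Fin n → ℕ} {F : Finset (Fin n → ℕ)} (hF : ∀ u ∈ F, u ≤ a)
    (q : ℕ) : #((comp i k a F).filter fun u => deg u = q) = #(F.filter fun u => deg u = q) := by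
  rw [Finset.card_filter, Finset.card_filter, sum_by_fibres (i := i) (k := k) a hF,
    sum_by_fibres (i := i) (k := k) a comp_le]
  refine Finset.sum_congr rfl fun κ hκ => ?_
  obtain ⟨w, hw, rfl⟩ := Finset.mem_image.1 hκ
  rw [sum_fibre hik w, sum_fibre hik w]
  have hb : ∀ G : Finset (Fin n → ℕ), ∑ c ∈ fib i k G w, (if deg (mk i k w c) = q then 1 else 0) =
      #(fib i k G w) * (if deg w = q then 1 else 0) := by
    intro G
    rw [← smul_eq_mul, ← Finset.sum_const]
    refine Finset.sum_congr rfl fun c hc => ?_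
    rw [deg_mk hik w (mem_fib.1 hc).1]
  rw [hb, hb, fib_comp hik hF (Finset.mem_Iic.1 hw), Nat.card_Icc]
  have hsub : fib i k F w ⊆ Finset.range (min (a i) (w i + w k) + 1) := by
    intro c hc
    have := fib_bound hik hF w hc
    rw [Finset.mem_range]
    omega
  have hcard := Finset.card_le_card hsub
  rw [Finset.card_range] at hcard
  congr 1
  omega

lemma wt_comp_lt (hki : k < i) {a : Fin n → ℕ} {F : Finset (Fin n → ℕ)} (hF : ∀ u ∈ F, u ≤ a)
    {v : Fin n → ℕ} (h1 : v + un k ∈ F) (h2 : v + un i ≤ a) (h3 : v + un i ∉ F) :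
    ∑ u ∈ F, wt u < ∑ u ∈ comp i k a F, wt u := by
  have hik : i ≠ k := ne_of_gt hki
  rw [sum_by_fibres (i := i) (k := k) a hF, sum_by_fibres (i := i) (k := k) a comp_le]
  have hmain : ∀ w, w ≤ a →
      (∑ u ∈ F.filter (fun u => mk i k u 0 = mk i k w 0), wt u ≤
        ∑ u ∈ (comp i k a F).filter (fun u => mk i k u 0 = mk i k w 0), wt u) ∧
      (fib i k F w ≠
        Finset.Icc (min (a i) (w i + w k) + 1 - #(fib i k F w)) (min (a i) (w i + w k)) →
       ∑ u ∈ F.filter (fun u => mk i k u 0 = mk i k w 0), wt u <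
        ∑ u ∈ (comp i k a F).filter (fun u => mk i k u 0 = mk i k w 0), wt u) := by
    intro w hw
    rw [sum_fibre hik w, sum_fibre hik w, fib_comp hik hF hw]
    have hsub : fib i k F w ⊆ Finset.range (min (a i) (w i + w k) + 1) := by
      intro c hc
      have := fib_bound hik hF w hc
      rw [Finset.mem_range]
      omega
    exact top_sum hsub (fun c => wt (mk i k w c)) fun c d hcd hd => wt_mk_lt hki w hcd (by omega)
  refine Finset.sum_lt_sum ?_ ⟨mk i k (v + un k) 0, ?_, ?_⟩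
  · intro κ hκ
    obtain ⟨w, hw, rfl⟩ := Finset.mem_image.1 hκ
    exact (hmain w (Finset.mem_Iic.1 hw)).1
  · exact Finset.mem_image_of_mem _ (Finset.mem_Iic.2 (hF _ h1))
  · refine (hmain _ (hF _ h1)).2 fun hcon => ?_
    have hvi : (v + un k) i = v i := by simp [hik]
    have hvk : (v + un k) k = v k + 1 := by simp
    have hmem : v i ∈ fib i k F (v + un k) := by
      rw [mem_fib]
      refine ⟨by rw [hvi]; omega, ?_⟩
      have := mk_self hik (v + un k)
      rw [hvi] at this
      rwa [this]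
    have hmk : mk i k (v + un k) (v i + 1) = v + un i := by
      symm
      refine mk_ext hik (by simp) ?_ ?_
      · rw [hvi, hvk]
        simp [hik.symm]
        omega
      · intro l hl hl'
        simp [hl, hl']
    have hmem' : v i + 1 ∈ fib i k F (v + un k) := by
      rw [hcon] at hmem ⊢
      rw [Finset.mem_Icc] at hmem ⊢
      have h4 := h2 i
      simp only [Pi.add_apply, Pi.single_eq_same] at h4
      rw [hvi, hvk] at hmem ⊢
      omega
    rw [mem_fib, hmk] at hmem'
    exact h3 hmem'.2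

lemma comp_isUp (hki : k < i) {a : Fin n → ℕ} (ha : a i ≤ a k) {F : Finset (Fin n → ℕ)}
    (hF : IsUp a F) : IsUp a (comp i k a F) := by
  have hik : i ≠ k := ne_of_gt hki
  refine ⟨comp_le, fun w hw j hj => ?_⟩
  obtain ⟨hwa, hlt⟩ := mem_comp.1 hw
  rw [mem_comp]
  refine ⟨hj, ?_⟩
  -- relations between the fibre through `w` and the one through `w + e_i` (or `w + e_k`)
  have hup : ∀ w' : Fin n → ℕ, w' i + w' k = w i + w k + 1 →
      (∀ l, l ≠ i → l ≠ k → w' l = w l) →
      (∀ c ∈ fib i k F w, c < a i → c + 1 ∈ fib i k F w') ∧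
      (∀ c ∈ fib i k F w, w i + w k < c + a k → c ∈ fib i k F w') := by
    intro w' hs hl
    constructor
    · intro c hc hca
      obtain ⟨h1, h2⟩ := mem_fib.1 hc
      have e : mk i k w c + un i = mk i k w' (c + 1) := by
        refine mk_ext hik (by simp [mk_i hik]) ?_ ?_
        · rw [hs]
          simp only [Pi.add_apply, mk_k, Pi.single_eq_of_ne hik.symm]
          omega
        · intro l h3 h4
          simp [mk_of_ne _ _ h3 h4, hl l h3 h4, h3]
      refine mem_fib.2 ⟨by omega, e ▸ hF.2 _ h2 i ?_⟩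
      intro l
      by_cases hli : l = i
      · subst hli
        simp only [Pi.add_apply, mk_i hik, Pi.single_eq_same]
        omega
      · have := hF.1 _ h2 l
        simpa [hli] using this
    · intro c hc hca
      obtain ⟨h1, h2⟩ := mem_fib.1 hc
      have e : mk i k w c + un k = mk i k w' c := by
        refine mk_ext hik (by simp [mk_i hik, hik]) ?_ ?_
        · rw [hs]
          simp only [Pi.add_apply, mk_k, Pi.single_eq_same]
          omega
        · intro l h3 h4
          simp [mk_of_ne _ _ h3 h4, hl l h3 h4, h4]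
      refine mem_fib.2 ⟨by omega, e ▸ hF.2 _ h2 k ?_⟩
      intro l
      by_cases hlk : l = k
      · subst hlk
        simp only [Pi.add_apply, mk_k, Pi.single_eq_same]
        omega
      · have := hF.1 _ h2 l
        simpa [hlk] using this
  by_cases hji : j = i
  · subst hji
    have e1 : (w + un j) j = w j + 1 := by simp
    have e2 : (w + un j) k = w k := by simp [hik.symm]
    obtain ⟨H1, H2⟩ := hup (w + un j) (by rw [e1, e2]; omega) (fun l h1 _ => by simp [h1])
    have hwj : (w + un j) j ≤ a j := hj j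
    rw [e1] at hwj
    rw [e1, e2, show w j + 1 + w k = w j + w k + 1 by omega]
    exact fiber_i ha (fun c hc => fib_bound hik hF.1 w hc) H1 H2 (by omega) (by omega) hlt
  by_cases hjk : j = k
  · subst hjk
    have e1 : (w + un j) i = w i := by simp [hik]
    have e2 : (w + un j) j = w j + 1 := by simp
    obtain ⟨H1, H2⟩ := hup (w + un j) (by rw [e1, e2]; omega) (fun l _ h1 => by simp [h1])
    have hwj : (w + un j) j ≤ a j := hj j
    rw [e2] at hwj
    rw [e1, e2, show w i + (w j + 1) = w i + w j + 1 by omega]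
    exact fiber_k ha (fun c hc => fib_bound hik hF.1 w hc) H1 H2 (hwa i) (by omega) (by omega) hlt
  · have e1 : (w + un j) i = w i := by simp [Ne.symm hji]
    have e2 : (w + un j) k = w k := by simp [Ne.symm hjk]
    rw [e1, e2]
    refine lt_of_lt_of_le hlt (Finset.card_le_card ?_)
    intro c hc
    obtain ⟨h1, h2⟩ := mem_fib.1 hc
    refine mem_fib.2 ⟨by rw [e1, e2]; exact h1, ?_⟩
    have e : mk i k w c + un j = mk i k (w + un j) c := by
      refine mk_ext hik (by simp [mk_i hik, Ne.symm hji]) ?_ ?_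
      · rw [e1, e2]
        simp [mk_k, Ne.symm hjk]
      · intro l h3 h4
        simp [mk_of_ne _ _ h3 h4]
    rw [← e]
    refine hF.2 _ h2 j ?_
    intro l
    by_cases hlj : l = j
    · subst hlj
      have := hj l
      simpa [mk_of_ne _ _ hji hjk] using this
    · have := hF.1 _ h2 l
      simpa [hlj] using this

end comp

theorem exists_shifted {n : ℕ} {a : Fin n → ℕ} (ha : Antitone a) {F : Finset (Fin n → ℕ)}
    (hF : IsUp a F) : ∃ G : Finset (Fin n → ℕ), IsUp a G ∧ Shifted a G ∧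
      ∀ q, #(G.filter fun u => deg u = q) = #(F.filter fun u => deg u = q) := by
  classical
  set S := (Finset.Iic a).powerset.filter fun G => IsUp a G ∧
    ∀ q, #(G.filter fun u => deg u = q) = #(F.filter fun u => deg u = q) with hS
  have hne : S.Nonempty := by
    refine ⟨F, Finset.mem_filter.2 ⟨Finset.mem_powerset.2 fun u hu => ?_, hF, fun _ => rfl⟩⟩
    exact Finset.mem_Iic.2 (hF.1 u hu)
  obtain ⟨G, hG, hmax⟩ := Finset.exists_max_image S (fun G => ∑ u ∈ G, wt u) hne
  obtain ⟨hG1, hG2, hG3⟩ := Finset.mem_filter.1 hG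
  refine ⟨G, hG2, ?_, hG3⟩
  intro v k i hki h1 h2
  by_contra h3
  have h4 := wt_comp_lt hki hG2.1 h1 h2 h3
  have h5 := hmax (comp i k a G) (Finset.mem_filter.2 ⟨?_, comp_isUp hki (ha hki.le) hG2, ?_⟩)
  · exact absurd h4 (not_lt.2 h5)
  · exact Finset.mem_powerset.2 fun u hu => Finset.mem_Iic.2 (comp_le u hu)
  · intro q
    rw [card_comp (ne_of_gt hki) hG2.1, hG3]

end Pool.Agent.Lib.MP_d42654_co
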