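import Mathlib

namespace Pool.Agent.Lib.MP_d42654_co

open MvPolynomial

/-- `I` is generated by monomials. -/
def IsMonomialIdeal {K : Type*} [Field K] {n : ℕ} (I : Ideal (MvPolynomial (Fin n) K)) : Prop :=
  ∃ s : Set (Fin n →₀ ℕ), I = Ideal.span ((fun m => monomial m (1 : K)) '' s)

/-- The degree `q` component of `K[x_1, ..., x_n] / I`. -/
noncomputable def gradedPiece {K : Type*} [Field K] {n : ℕ} (I : Ideal (MvPolynomial (Fin n) K)) (q : ℕ) :
    Submodule K (MvPolynomial (Fin n) K ⧸ I) :=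
  (homogeneousSubmodule (Fin n) K q).map (Ideal.Quotient.mkₐ K I).toLinearMap

/-- The Hilbert function of `K[x_1, ..., x_n] / I`. -/
noncomputable def hilbertFunction {K : Type*} [Field K] {n : ℕ}
    (I : Ideal (MvPolynomial (Fin n) K)) (q : ℕ) : ℕ :=
  Module.finrank K (gradedPiece I q)

/-- `h` is an M-vector (extended by zeros): the Hilbert function of a nonzero
finite-dimensional quotient of a polynomial ring by a monomial ideal. -/
def IsMVector (K : Type*) [Field K] (h : ℕ → ℕ) : Prop :=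
  ∃ (n : ℕ) (I : Ideal (MvPolynomial (Fin n) K)), IsMonomialIdeal I ∧ I ≠ ⊤ ∧
    Module.Finite K (MvPolynomial (Fin n) K ⧸ I) ∧ ∀ q, h q = hilbertFunction I q

/-- `a` (extended by zeros) is a pure O-sequence with last index `d`: the Hilbert function of a
finite-dimensional monomial algebra `A = K[x_1, ..., x_n] / I` with `A_d ≠ 0`, `A_{d+1} = 0`, whose
socle is contained in `A_d`. -/
def IsPureOSequence (K : Type*) [Field K] (d : ℕ) (a : ℕ → ℕ) : Prop :=
  ∃ (n : ℕ) (I : Ideal (MvPolynomial (Fin n) K)), IsMonomialIdeal I ∧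
    Module.Finite K (MvPolynomial (Fin n) K ⧸ I) ∧
    gradedPiece I d ≠ ⊥ ∧ gradedPiece I (d + 1) = ⊥ ∧
    (∀ y : MvPolynomial (Fin n) K ⧸ I,
      (∀ i, y * Ideal.Quotient.mk I (X i) = 0) → y ∈ gradedPiece I d) ∧
    ∀ q, a q = hilbertFunction I q

end Pool.Agent.Lib.MP_d42654_co
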