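import Mathlib

set_option autoImplicit false

open Finset

namespace Pool.Agent.MP_d42654_co

/-- Laurent polynomials over `ZMod 2` in `n` variables -/
abbrev LP (n : ℕ) := AddMonoidAlgebra (ZMod 2) (Fin n → ℤ)

instance lpCharP (n : ℕ) : CharP (LP n) 2 := by
  have h : Function.Injective (algebraMap (ZMod 2) (LP n)) := by
    exact FaithfulSMul.algebraMap_injective _ _
  exact charP_of_injective_algebraMap h 2

noncomputable def Y {n : ℕ} (v : Fin n → ℤ) : LP n := AddMonoidAlgebra.single v 1

lemma Y_mul {n : ℕ} (v w : Fin n → ℤ) : Y v * Y w = Y (v + w) := by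
  simp [Y, AddMonoidAlgebra.single_mul_single]

lemma Y_zero {n : ℕ} : Y (0 : Fin n → ℤ) = 1 := rfl

lemma coeff_mul_Y {n : ℕ} (h : LP n) (v w : Fin n → ℤ) :
    (h * Y v).coeff (w + v) = h.coeff w := by
  rw [Y, AddMonoidAlgebra.coeff_mul_single_eq_coeff_mul (m₂ := w) (by
    intro m' _; exact add_left_inj v)]
  simp

lemma coeff_sq {n : ℕ} (h : LP n) (w : Fin n → ℤ) :
    (h ^ 2).coeff (w + w) = h.coeff w := by
  induction h using AddMonoidAlgebra.induction_linear with
  | zero => simp
  | add f g hf hg =>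
    rw [CharTwo.add_sq]
    simp [hf, hg]
  | single v r =>
    rw [AddMonoidAlgebra.single_pow]
    have h2 : r ^ 2 = r := by
      revert r; decide
    rw [h2, two_smul]
    simp only [AddMonoidAlgebra.coeff_single, Finsupp.single_apply]
    have : v + v = w + w ↔ v = w := by
      constructor
      · intro h; funext i; have := congrFun h i; simp at this; omega
      · rintro rfl; rfl
    simp [this]

variable {σ : Type*}

/-- power series in the parameters with Laurent polynomial coefficients -/
abbrev LL (σ : Type*) (n : ℕ) := MvPowerSeries σ (LP n)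

/-- parameters -/
abbrev RR (σ : Type*) := MvPowerSeries σ (ZMod 2)

noncomputable def emb (σ : Type*) (n : ℕ) : RR σ →+* LL σ n :=
  MvPowerSeries.map (algebraMap (ZMod 2) (LP n))

/-- extract the coefficient of `y^v` -/
noncomputable def ev {n : ℕ} (v : Fin n → ℤ) (F : LL σ n) : RR σ :=
  fun e => (MvPowerSeries.coeff e F).coeff v

lemma coeff_ev {n : ℕ} (v : Fin n → ℤ) (F : LL σ n) (e : σ →₀ ℕ) :
    MvPowerSeries.coeff e (ev v F) = (MvPowerSeries.coeff e F).coeff v := rfl

lemma ev_add {n : ℕ} (v : Fin n → ℤ) (F G : LL σ n) : ev v (F + G) = ev v F + ev v G := by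
  ext e; simp [coeff_ev]

lemma ev_zero {n : ℕ} (v : Fin n → ℤ) : ev v (0 : LL σ n) = 0 := by
  ext e; simp [coeff_ev]

lemma ev_emb_mul {n : ℕ} (v : Fin n → ℤ) (r : RR σ) (F : LL σ n) :
    ev v (emb σ n r * F) = r * ev v F := by
  classical
  ext e
  rw [coeff_ev, MvPowerSeries.coeff_mul, MvPowerSeries.coeff_mul]
  rw [AddMonoidAlgebra.coeff_sum, Finsupp.finsetSum_apply]
  apply Finset.sum_congr rfl
  intro x _
  rw [emb, MvPowerSeries.coeff_map, coeff_ev, ← Algebra.smul_def]
  simp

/-- the square trick -/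
lemma coeff_sq_mul {n : ℕ} (f g : LL σ n) (E e' : σ →₀ ℕ)
    (hg : ∀ e₂ : σ →₀ ℕ, e₂ ≠ E → (∀ s, e₂ s % 2 = E s % 2) → MvPowerSeries.coeff e₂ g = 0) :
    MvPowerSeries.coeff (2 • e' + E) (f ^ 2 * g) =
      (MvPowerSeries.coeff e' f) ^ 2 * MvPowerSeries.coeff E g := by
  classical
  rw [MvPowerSeries.coeff_mul]
  have hsq : ∀ m : σ →₀ ℕ, MvPowerSeries.coeff m (f ^ 2) =
      (MvPowerSeries.coeff m (f.expand 2 two_ne_zero)) ^ 2 := by
    intro m
    rw [← MvPowerSeries.map_frobenius_expand 2 two_ne_zero, MvPowerSeries.coeff_map, frobenius_def]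
  rw [Finset.sum_eq_single (2 • e', E)]
  · rw [hsq, MvPowerSeries.coeff_expand_smul]
  · rintro ⟨e₁, e₂⟩ hmem hne
    rw [Finset.HasAntidiagonal.mem_antidiagonal] at hmem
    simp only at hmem
    by_cases hev : ∀ s, 2 ∣ e₁ s
    · have h2 : e₂ ≠ E := by
        rintro rfl
        apply hne
        have : e₁ = 2 • e' := by simpa using hmem
        rw [this]
      rw [hg e₂ h2, mul_zero]
      intro s
      have := DFunLike.congr_fun hmem s
      simp at this
      have := hev s
      omega
    · obtain ⟨s, hs⟩ := not_forall.mp hev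
      have h0 : MvPowerSeries.coeff e₁ (f.expand 2 two_ne_zero) = 0 :=
        MvPowerSeries.coeff_expand_of_not_dvd 2 two_ne_zero f hs
      have h1 : MvPowerSeries.coeff e₁ (f ^ 2) = 0 := by
        rw [hsq, h0, zero_pow two_ne_zero]
      show MvPowerSeries.coeff e₁ (f ^ 2) * MvPowerSeries.coeff e₂ g = 0
      rw [h1, zero_mul]
  · intro h
    exfalso
    apply h
    rw [Finset.HasAntidiagonal.mem_antidiagonal]

/-- Laurent polynomials without negative powers of `y_i` -/
def nnSub {n : ℕ} (i : Fin n) : Subring (LP n) where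
  carrier := {h | ∀ v : Fin n → ℤ, v i < 0 → h.coeff v = 0}
  zero_mem' := by intro v _; simp
  one_mem' := by
    intro v hv
    rw [← Y_zero, Y, AddMonoidAlgebra.coeff_single, Finsupp.single_apply, if_neg]
    rintro rfl; simp at hv
  add_mem' := by
    intro f g hf hg v hv
    simp [hf v hv, hg v hv]
  neg_mem' := by
    intro f hf v hv
    simp [hf v hv]
  mul_mem' := by
    classical
    intro f g hf hg v hv
    rw [AddMonoidAlgebra.coeff_mul]
    apply Finset.sum_eq_zero
    intro a ha
    apply Finset.sum_eq_zero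
    intro b hb
    simp only
    rw [if_neg]
    rintro rfl
    have h1 : 0 ≤ a i := by
      by_contra h
      exact (Finsupp.mem_support_iff.mp ha) (hf a (by omega))
    have h2 : 0 ≤ b i := by
      by_contra h
      exact (Finsupp.mem_support_iff.mp hb) (hg b (by omega))
    simp at hv
    omega

lemma Y_mem_nnSub {n : ℕ} (i : Fin n) (v : Fin n → ℤ) (h : 0 ≤ v i) : Y v ∈ nnSub i := by
  intro w hw
  rw [Y, AddMonoidAlgebra.coeff_single, Finsupp.single_apply, if_neg]
  rintro rfl; omega

/-- power series all of whose coefficients have no negative powers of `y_i` -/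
def nnSer {n : ℕ} (σ : Type*) (i : Fin n) : Subring (LL σ n) where
  carrier := {F | ∀ e, MvPowerSeries.coeff e F ∈ nnSub i}
  zero_mem' := by intro e; simp only [map_zero]; exact (nnSub i).zero_mem
  one_mem' := by
    classical
    intro e
    rw [MvPowerSeries.coeff_one]
    split_ifs
    · exact (nnSub i).one_mem
    · exact (nnSub i).zero_mem
  add_mem' := by
    intro f g hf hg e
    rw [map_add]; exact (nnSub i).add_mem (hf e) (hg e)
  neg_mem' := by
    intro f hf e
    rw [map_neg]; exact (nnSub i).neg_mem (hf e)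
  mul_mem' := by
    classical
    intro f g hf hg e
    rw [MvPowerSeries.coeff_mul]
    exact Subring.sum_mem _ fun x _ => (nnSub i).mul_mem (hf _) (hg _)

lemma ev_nnSer {n : ℕ} (i : Fin n) (F : LL σ n) (hF : F ∈ nnSer σ i) :
    ev (fun _ => -1) F = 0 := by
  ext e
  rw [coeff_ev]
  simpa using hF e (fun _ => -1) (by simp)

section factors

variable {T : Type*} [Fintype T] [DecidableEq T] {n : ℕ} (idx : T → Fin n)

/-- the standard exponent vector -/
def ee {n : ℕ} (k : Fin n) : Fin n → ℤ := Pi.single k 1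

/-- generic linear forms -/
noncomputable def lin (idx : T → Fin n) (τ : T) : MvPolynomial (Fin n) (RR (T × Fin n)) :=
  MvPolynomial.X (idx τ) +
    ∑ k, MvPolynomial.C (MvPowerSeries.X (τ, k)) * MvPolynomial.X k

/-- the embedding of polynomials -/
noncomputable def io (T : Type*) (n : ℕ) :
    MvPolynomial (Fin n) (RR (T × Fin n)) →+* LL (T × Fin n) n :=
  MvPolynomial.eval₂Hom (emb (T × Fin n) n) (fun k => MvPowerSeries.C (Y (ee k)))

lemma io_lin (τ : T) : io T n (lin idx τ) = MvPowerSeries.C (Y (ee (idx τ))) +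
    ∑ k, MvPowerSeries.X (τ, k) * MvPowerSeries.C (Y (ee k)) := by
  simp only [lin, io, map_add, map_sum, map_mul, MvPolynomial.coe_eval₂Hom, MvPolynomial.eval₂_X,
    MvPolynomial.eval₂_C, emb, MvPowerSeries.map_X]

/-- the unit `y^v` -/
noncomputable def uY {n : ℕ} (v : Fin n → ℤ) : (LP n)ˣ where
  val := Y v
  inv := Y (-v)
  val_inv := by rw [Y_mul, add_neg_cancel, Y_zero]
  inv_val := by rw [Y_mul, neg_add_cancel, Y_zero]

lemma constantCoeff_io_lin (τ : T) :
    MvPowerSeries.constantCoeff (io T n (lin idx τ)) = uY (ee (idx τ)) := by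
  rw [io_lin]
  simp [uY]

/-- inverses of the linear forms -/
noncomputable def iv (τ : T) : LL (T × Fin n) n :=
  MvPowerSeries.invOfUnit (io T n (lin idx τ)) (uY (ee (idx τ)))

lemma lin_mul_iv (τ : T) : io T n (lin idx τ) * iv idx τ = 1 :=
  MvPowerSeries.mul_invOfUnit _ _ (constantCoeff_io_lin idx τ)

lemma io_mem (i : Fin n) (p : MvPolynomial (Fin n) (RR (T × Fin n))) :
    io T n p ∈ nnSer (T × Fin n) i := by
  induction p using MvPolynomial.induction_on with
  | C a =>
    intro e
    simp only [io, MvPolynomial.coe_eval₂Hom, MvPolynomial.eval₂_C, emb, MvPowerSeries.coeff_map]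
    intro v hv
    rw [Algebra.algebraMap_eq_smul_one, ← Y_zero]
    have := Y_mem_nnSub i (0 : Fin n → ℤ) (by simp) v hv
    simp [this]
  | add p q hp hq => rw [map_add]; exact (nnSer _ i).add_mem hp hq
  | mul_X p k hp =>
    rw [map_mul]
    refine (nnSer _ i).mul_mem hp ?_
    classical
    intro e
    simp only [io, MvPolynomial.coe_eval₂Hom, MvPolynomial.eval₂_X, MvPowerSeries.coeff_C]
    split_ifs
    · apply Y_mem_nnSub
      simp only [ee, Pi.single_apply]; split_ifs <;> simp
    · exact (nnSub i).zero_mem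

lemma iv_mem (i : Fin n) (τ : T) (h : idx τ ≠ i) : iv idx τ ∈ nnSer (T × Fin n) i := by
  classical
  have key : ∀ e : (T × Fin n) →₀ ℕ, MvPowerSeries.coeff e (iv idx τ) ∈ nnSub i := by
    intro e
    induction e using WellFoundedLT.induction with
    | ind e ih =>
      rw [iv, MvPowerSeries.coeff_invOfUnit]
      have hu : ((uY (ee (idx τ)))⁻¹ : (LP n)ˣ).val ∈ nnSub i := by
        show Y (-(ee (idx τ))) ∈ nnSub i
        apply Y_mem_nnSub
        simp [ee, Pi.single_apply, h.symm]
      split_ifs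
      · exact hu
      · refine (nnSub i).mul_mem ((nnSub i).neg_mem hu) ?_
        refine Subring.sum_mem _ fun x _ => ?_
        split_ifs with hx
        · exact (nnSub i).mul_mem (io_mem i _ _) (ih _ hx)
        · exact (nnSub i).zero_mem
  exact key

/-- product of all inverses -/
noncomputable def GG : LL (T × Fin n) n := ∏ τ, iv idx τ

/-- the residue functional -/
noncomputable def res (b : MvPolynomial (Fin n) (RR (T × Fin n))) : RR (T × Fin n) :=
  ev (fun _ => -1) (io T n b * GG idx)

lemma res_add (b c : MvPolynomial (Fin n) (RR (T × Fin n))) :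
    res idx (b + c) = res idx b + res idx c := by
  rw [res, map_add, add_mul, ev_add]; rfl

lemma res_zero : res idx (0 : MvPolynomial (Fin n) (RR (T × Fin n))) = 0 := by
  rw [res, map_zero, zero_mul, ev_zero]

lemma res_C_mul (r : RR (T × Fin n)) (b : MvPolynomial (Fin n) (RR (T × Fin n))) :
    res idx (MvPolynomial.C r * b) = r * res idx b := by
  rw [res, map_mul, mul_assoc]
  have : io T n (MvPolynomial.C r) = emb (T × Fin n) n r := by
    simp [io]
  rw [this, ev_emb_mul]; rfl

lemma res_smul (r : RR (T × Fin n)) (b : MvPolynomial (Fin n) (RR (T × Fin n))) :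
    res idx (r • b) = r * res idx b := by
  rw [MvPolynomial.smul_eq_C_mul, res_C_mul]

/-- `res` as a linear map -/
noncomputable def resL : MvPolynomial (Fin n) (RR (T × Fin n)) →ₗ[RR (T × Fin n)] RR (T × Fin n) where
  toFun := res idx
  map_add' := res_add idx
  map_smul' := res_smul idx

lemma res_eq_zero_of_dvd (i : Fin n) (b : MvPolynomial (Fin n) (RR (T × Fin n)))
    (h : (∏ τ ∈ univ.filter (fun τ => idx τ = i), lin idx τ) ∣ b) : res idx b = 0 := by
  obtain ⟨c, rfl⟩ := h
  rw [res]
  apply ev_nnSer i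
  have h1 : GG idx = (∏ τ ∈ univ.filter (fun τ => idx τ = i), iv idx τ) *
      (∏ τ ∈ univ.filter (fun τ => ¬ idx τ = i), iv idx τ) := by
    rw [GG, Finset.prod_filter_mul_prod_filter_not]
  have h2 : (∏ τ ∈ univ.filter (fun τ => idx τ = i), io T n (lin idx τ)) *
      (∏ τ ∈ univ.filter (fun τ => idx τ = i), iv idx τ) = 1 := by
    rw [← Finset.prod_mul_distrib]
    exact Finset.prod_eq_one fun τ _ => lin_mul_iv idx τ
  have h3 : io T n ((∏ τ ∈ univ.filter (fun τ => idx τ = i), lin idx τ) * c) * GG idx =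
      io T n c * (∏ τ ∈ univ.filter (fun τ => ¬ idx τ = i), iv idx τ) := by
    rw [h1, map_mul, map_prod]
    calc _ = ((∏ τ ∈ univ.filter (fun τ => idx τ = i), io T n (lin idx τ)) *
      (∏ τ ∈ univ.filter (fun τ => idx τ = i), iv idx τ)) * (io T n c *
        (∏ τ ∈ univ.filter (fun τ => ¬ idx τ = i), iv idx τ)) := by ring
      _ = _ := by rw [h2, one_mul]
  rw [h3]
  refine (nnSer _ i).mul_mem (io_mem i c) ?_
  exact Subring.prod_mem _ fun τ hτ => iv_mem idx i τ (by simpa using hτ)

lemma prod_Y {ι : Type*} (s : Finset ι) (v : ι → Fin n → ℤ) :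
    ∏ i ∈ s, Y (v i) = Y (∑ i ∈ s, v i) := by
  classical
  induction s using Finset.induction_on with
  | empty => simp [Y_zero]
  | insert a s ha ih => rw [Finset.prod_insert ha, Finset.sum_insert ha, ih, Y_mul]

lemma res_section_ne_zero (s : Fin n → T) (hs : ∀ i, idx (s i) = i) :
    res idx (∏ τ ∈ univ.filter (fun τ => s (idx τ) ≠ τ), lin idx τ) ≠ 0 := by
  have hinj : Function.Injective s := by
    intro i j hij
    rw [← hs i, ← hs j, hij]
  have h0 : ∏ τ ∈ univ.filter (fun τ => ¬ s (idx τ) ≠ τ), iv idx τ = ∏ i, iv idx (s i) := by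
    symm
    apply Finset.prod_bij (fun i _ => s i)
    · intro i _; simp [hs]
    · intro i _ j _ h; exact hinj h
    · intro τ hτ
      refine ⟨idx τ, Finset.mem_univ _, ?_⟩
      simpa using hτ
    · intro i _; rfl
  have h2 : (∏ τ ∈ univ.filter (fun τ => s (idx τ) ≠ τ), io T n (lin idx τ)) *
      (∏ τ ∈ univ.filter (fun τ => s (idx τ) ≠ τ), iv idx τ) = 1 := by
    rw [← Finset.prod_mul_distrib]
    exact Finset.prod_eq_one fun τ _ => lin_mul_iv idx τ
  have h3 : io T n (∏ τ ∈ univ.filter (fun τ => s (idx τ) ≠ τ), lin idx τ) * GG idx =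
      ∏ i, iv idx (s i) := by
    rw [GG, ← Finset.prod_filter_mul_prod_filter_not univ (fun τ => s (idx τ) ≠ τ), map_prod,
      ← mul_assoc, h2, one_mul, h0]
  intro hzero
  have h4 : MvPowerSeries.coeff 0 (res idx (∏ τ ∈ univ.filter (fun τ => s (idx τ) ≠ τ), lin idx τ))
      = 1 := by
    rw [res, coeff_ev, h3, MvPowerSeries.coeff_zero_eq_constantCoeff_apply, map_prod]
    have : ∀ i ∈ (univ : Finset (Fin n)), MvPowerSeries.constantCoeff (iv idx (s i)) =
        Y (-(ee i)) := by
      intro i _
      rw [iv, MvPowerSeries.constantCoeff_invOfUnit, hs]; rfl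
    rw [Finset.prod_congr rfl this, prod_Y]
    have h5 : (∑ i : Fin n, -(ee i) : Fin n → ℤ) = fun _ => -1 := by
      funext j
      simp [ee, Finset.sum_apply, Pi.single_apply]
    rw [h5, Y, AddMonoidAlgebra.coeff_single, Finsupp.single_eq_same]
  rw [hzero] at h4
  simp at h4

/-- exponents in the expansion of a linear form -/
noncomputable def ex (τ : T) : Option (Fin n) → ((T × Fin n) →₀ ℕ)
  | none => 0
  | some k => Finsupp.single (τ, k) 1

/-- exponents in the expansion of a linear form -/
def yo (τ : T) : Option (Fin n) → (Fin n → ℤ)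
  | none => ee (idx τ)
  | some k => ee k

lemma io_lin_eq (τ : T) : io T n (lin idx τ) =
    ∑ o : Option (Fin n), MvPowerSeries.monomial (ex τ o) (Y (yo idx τ o)) := by
  rw [io_lin, Fintype.sum_option]
  congr 1
  apply Finset.sum_congr rfl
  intro k _
  rw [← MvPowerSeries.monomial_zero_eq_C_apply, MvPowerSeries.X,
    MvPowerSeries.monomial_mul_monomial]
  simp [ex, yo]

lemma prod_io_lin : ∏ τ, io T n (lin idx τ) =
    ∑ p : T → Option (Fin n), MvPowerSeries.monomial (∑ τ, ex τ (p τ))
      (Y (∑ τ, yo idx τ (p τ))) := by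
  simp_rw [io_lin_eq]
  rw [Finset.prod_univ_sum]
  rw [Fintype.piFinset_univ]
  apply Finset.sum_congr rfl
  intro p _
  rw [MvPowerSeries.prod_monomial, prod_Y]

lemma ex_sum_apply (p : T → Option (Fin n)) (τ : T) (k : Fin n) :
    (∑ t, ex t (p t)) (τ, k) = if p τ = some k then 1 else 0 := by
  rw [Finsupp.finsetSum_apply, Finset.sum_eq_single τ]
  · cases h : p τ with
    | none => simp [ex]
    | some j =>
      simp only [ex, Finsupp.single_apply, Prod.mk.injEq, true_and, Option.some.injEq]
  · intro t _ ht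
    cases h : p t with
    | none => simp [ex]
    | some j =>
      simp only [ex, Finsupp.single_apply, Prod.mk.injEq]
      rw [if_neg]
      rintro ⟨h1, _⟩
      exact ht h1
  · intro h; exact absurd (Finset.mem_univ _) h

/-- the key identity -/
lemma res_sq (k : T → Fin n) (J N : Fin n → ℕ)
    (hk : ∀ i, (univ.filter (fun τ => k τ = i)).card + J i = 2 * N i + 1)
    (b : MvPolynomial (Fin n) (RR (T × Fin n))) (e' : (T × Fin n) →₀ ℕ) :
    MvPowerSeries.coeff (2 • e' + ∑ τ, ex τ (some (k τ)))
      (res idx (b ^ 2 * ∏ i, MvPolynomial.X i ^ J i)) =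
    MvPowerSeries.coeff e' (res idx (b * ∏ i, MvPolynomial.X i ^ N i)) := by
  have hX : ∀ J : Fin n → ℕ, io T n (∏ i, MvPolynomial.X i ^ J i) =
      MvPowerSeries.C (Y (fun i => (J i : ℤ))) := by
    intro J
    rw [map_prod]
    have : ∀ i ∈ (univ : Finset (Fin n)), io T n (MvPolynomial.X i ^ J i) =
        MvPowerSeries.C (Y (J i • ee i)) := by
      intro i _
      rw [map_pow]
      have h1 : io T n (MvPolynomial.X i) = MvPowerSeries.C (Y (ee i)) := by simp [io]
      rw [h1, ← map_pow]
      congr 1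
      rw [Y, AddMonoidAlgebra.single_pow, one_pow]; rfl
    rw [Finset.prod_congr rfl this, ← map_prod, prod_Y]
    congr 2
    funext j
    simp [ee, Finset.sum_apply, Pi.single_apply]
  have hG : GG idx * (∏ τ, io T n (lin idx τ)) = 1 := by
    rw [GG, ← Finset.prod_mul_distrib]
    exact Finset.prod_eq_one fun τ _ => by rw [mul_comm, lin_mul_iv]
  have h1 : io T n (b ^ 2 * ∏ i, MvPolynomial.X i ^ J i) * GG idx =
      (io T n b * GG idx) ^ 2 *
        (MvPowerSeries.C (Y (fun i => (J i : ℤ))) * ∏ τ, io T n (lin idx τ)) := by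
    rw [map_mul, map_pow, hX]
    calc io T n b ^ 2 * MvPowerSeries.C (Y fun i => (J i : ℤ)) * GG idx =
        io T n b ^ 2 * MvPowerSeries.C (Y fun i => (J i : ℤ)) * GG idx *
        (GG idx * (∏ τ, io T n (lin idx τ))) := by rw [hG, mul_one]
      _ = _ := by ring
  have hcoef : ∀ e₂ : (T × Fin n) →₀ ℕ, MvPowerSeries.coeff e₂
      (MvPowerSeries.C (Y (fun i => (J i : ℤ))) * ∏ τ, io T n (lin idx τ) : LL (T × Fin n) n) =
      ∑ p : T → Option (Fin n), if e₂ = ∑ τ, ex τ (p τ) then
        Y ((fun i => (J i : ℤ)) + ∑ τ, yo idx τ (p τ)) else 0 := by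
    intro e₂
    rw [prod_io_lin, Finset.mul_sum, map_sum]
    apply Finset.sum_congr rfl
    intro p _
    rw [← MvPowerSeries.monomial_zero_eq_C_apply, MvPowerSeries.monomial_mul_monomial, Y_mul,
      zero_add, MvPowerSeries.coeff_monomial]
  have huniq : ∀ p : T → Option (Fin n), (∀ s, (∑ τ, ex τ (p τ) : (T × Fin n) →₀ ℕ) s % 2 =
      (∑ τ, ex τ (some (k τ)) : (T × Fin n) →₀ ℕ) s % 2) → p = fun τ => some (k τ) := by
    intro p hp
    funext τ
    have := hp (τ, k τ)
    rw [ex_sum_apply p, ex_sum_apply (fun τ => some (k τ))] at this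
    simp only [if_true] at this
    by_contra hne
    rw [if_neg hne] at this
    simp at this
  rw [res, coeff_ev, h1, coeff_sq_mul, hcoef, Finset.sum_eq_single (fun τ => some (k τ))]
  · rw [if_pos rfl, res, coeff_ev]
    have h5 : (fun i => (J i : ℤ)) + ∑ τ, yo idx τ (some (k τ)) =
        fun i => (2 * N i + 1 : ℤ) := by
      funext i
      have h6 : (∑ τ, yo idx τ (some (k τ)) : Fin n → ℤ) i =
          ((univ.filter (fun τ => k τ = i)).card : ℤ) := by
        rw [Finset.sum_apply, Finset.card_filter]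
        push_cast
        apply Finset.sum_congr rfl
        intro τ _
        simp only [yo, ee, Pi.single_apply]
        congr 1
        simp [eq_comm]
      rw [Pi.add_apply, h6]
      have := hk i
      omega
    rw [h5]
    have h7 : (fun _ => -1 : Fin n → ℤ) =
        ((fun i => -1 - (N i : ℤ)) + (fun i => -1 - (N i : ℤ))) + fun i => (2 * N i + 1 : ℤ) := by
      funext i; simp only [Pi.add_apply]; ring
    conv_lhs => rw [h7]
    rw [coeff_mul_Y, coeff_sq]
    rw [map_mul (io T n) b, hX]
    have h8 : io T n b * MvPowerSeries.C (Y fun i => (N i : ℤ)) * GG idx =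
        io T n b * GG idx * MvPowerSeries.C (Y fun i => (N i : ℤ)) := by ring
    rw [h8, MvPowerSeries.coeff_mul_C]
    have h9 : (fun _ => -1 : Fin n → ℤ) = (fun i => -1 - (N i : ℤ)) + fun i => (N i : ℤ) := by
      funext i; simp only [Pi.add_apply]; ring
    conv_rhs => rw [h9]
    rw [coeff_mul_Y]
  · intro p _ hp
    rw [if_neg]
    intro h
    apply hp
    apply huniq
    intro s
    rw [← h]
  · intro h; exact absurd (Finset.mem_univ _) h
  · intro e₂ hne hmod
    rw [hcoef]
    apply Finset.sum_eq_zero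
    intro p _
    rw [if_neg]
    intro h
    apply hne
    rw [h] at hmod ⊢
    rw [huniq p hmod]

end factors

end Pool.Agent.MP_d42654_co
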