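import Mathlib
import Pool.Agent.Lib.MP_d42654_co.Residue

set_option autoImplicit false

open Finset

namespace Pool.Agent.MP_d42654_co

section general

variable {T : Type*} [Fintype T] [DecidableEq T] {n : ℕ} (idx : T → Fin n)

/-- monomial with exponent function -/
noncomputable def mon {n : ℕ} (A : Type*) [CommSemiring A] (γ : Fin n → ℕ) : MvPolynomial (Fin n) A :=
  ∏ i, MvPolynomial.X i ^ γ i

lemma mon_eq {n : ℕ} (A : Type*) [CommSemiring A] (γ : Fin n → ℕ) :
    mon A γ = MvPolynomial.monomial (Finsupp.equivFunOnFinite.symm γ) 1 := by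
  rw [mon, MvPolynomial.monomial_eq, Finsupp.prod_fintype _ _ (by intro i; simp)]
  simp

lemma mon_linearIndependent {n : ℕ} (A : Type*) [CommRing A] :
    LinearIndependent A (mon A : (Fin n → ℕ) → MvPolynomial (Fin n) A) := by
  have h := (MvPolynomial.basisMonomials (Fin n) A).linearIndependent
  have h2 := h.comp (fun γ : Fin n → ℕ => Finsupp.equivFunOnFinite.symm γ)
    (Finsupp.equivFunOnFinite.symm.injective)
  have h3 : (mon A : (Fin n → ℕ) → MvPolynomial (Fin n) A) =
      (⇑(MvPolynomial.basisMonomials (Fin n) A) ∘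
        fun γ : Fin n → ℕ => Finsupp.equivFunOnFinite.symm γ) := by
    funext γ
    rw [mon_eq]; simp
  rw [h3]; exact h2

lemma li_of_map {σ ι : Type*} {n : ℕ} (v : ι → MvPolynomial (Fin n) (RR σ))
    (h : LinearIndependent (ZMod 2) fun i =>
      MvPolynomial.map (MvPowerSeries.constantCoeff (σ := σ) (R := ZMod 2)) (v i)) :
    LinearIndependent (RR σ) v := by
  classical
  rw [linearIndependent_iff'] at h ⊢
  intro s g hg
  have key : ∀ e : σ →₀ ℕ, ∀ i ∈ s, MvPowerSeries.coeff e (g i) = 0 := by
    intro e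
    induction e using WellFoundedLT.induction with
    | ind e ih =>
      apply h s (fun i => MvPowerSeries.coeff e (g i))
      ext γ
      have h1 := congrArg (fun P => MvPowerSeries.coeff e (MvPolynomial.coeff γ P)) hg
      simp only [MvPolynomial.coeff_sum, MvPolynomial.coeff_smul, smul_eq_mul, map_sum,
        MvPolynomial.coeff_zero, map_zero, MvPowerSeries.coeff_mul] at h1
      rw [MvPolynomial.coeff_sum, MvPolynomial.coeff_zero, ← h1]
      apply Finset.sum_congr rfl
      intro i hi
      rw [MvPolynomial.coeff_smul, MvPolynomial.coeff_map, smul_eq_mul]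
      rw [Finset.sum_eq_single (e, 0)]
      · rw [MvPowerSeries.coeff_zero_eq_constantCoeff_apply]
      · rintro ⟨e₁, e₂⟩ hmem hne
        rw [Finset.HasAntidiagonal.mem_antidiagonal] at hmem
        simp only at hmem ⊢
        have hlt : e₁ < e := by
          rw [← hmem]
          refine lt_of_le_of_ne (by simp) ?_
          intro heq
          have h0 : e₂ = 0 := by simpa using heq.symm
          subst h0
          simp at hmem
          subst hmem
          exact hne rfl
        rw [ih e₁ hlt i hi, zero_mul]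
      · intro h
        exfalso; apply h
        rw [Finset.HasAntidiagonal.mem_antidiagonal]; simp
  intro i hi
  ext e
  simpa using key e i hi

lemma res_ne_zero_of_mul (s : Fin n → T) (hs : ∀ i, idx (s i) = i)
    (b : MvPolynomial (Fin n) (RR (T × Fin n)))
    (hb : b * ∏ i, lin idx (s i) = ∏ τ, lin idx τ) : res idx b ≠ 0 := by
  have h1 : io T n (∏ i, lin idx (s i)) * ∏ i, iv idx (s i) = 1 := by
    rw [map_prod, ← Finset.prod_mul_distrib]
    exact Finset.prod_eq_one fun i _ => lin_mul_iv idx _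
  have h2 : io T n (∏ τ, lin idx τ) * GG idx = 1 := by
    rw [map_prod, GG, ← Finset.prod_mul_distrib]
    exact Finset.prod_eq_one fun i _ => lin_mul_iv idx _
  have h3 : io T n b * GG idx = ∏ i, iv idx (s i) := by
    calc io T n b * GG idx = io T n b * GG idx *
        (io T n (∏ i, lin idx (s i)) * ∏ i, iv idx (s i)) := by rw [h1, mul_one]
      _ = (io T n (b * ∏ i, lin idx (s i)) * GG idx) * ∏ i, iv idx (s i) := by
        rw [map_mul]; ring
      _ = _ := by rw [hb, h2, one_mul]
  intro hzero
  have h4 : MvPowerSeries.coeff 0 (res idx b) = 1 := by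
    rw [res, coeff_ev, h3, MvPowerSeries.coeff_zero_eq_constantCoeff_apply, map_prod]
    have : ∀ i ∈ (univ : Finset (Fin n)), MvPowerSeries.constantCoeff (iv idx (s i)) =
        Y (-(ee i)) := by
      intro i _
      rw [iv, MvPowerSeries.constantCoeff_invOfUnit, hs]; rfl
    rw [Finset.prod_congr rfl this, prod_Y]
    have h5 : (∑ i : Fin n, -(ee i) : Fin n → ℤ) = fun _ => -1 := by
      funext j
      simp [ee, Finset.sum_apply, Pi.single_apply]
    rw [h5, Y, AddMonoidAlgebra.coeff_single, Finsupp.single_eq_same]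
  rw [hzero] at h4
  simp at h4

end general

section families

variable {n : ℕ} (a : Fin n → ℕ)

/-- index type of the linear forms -/
abbrev TT (a : Fin n → ℕ) := Σ i : Fin n, Fin (a i + 1)

/-- parameter ring -/
abbrev RA (a : Fin n → ℕ) := RR (TT a × Fin n)

/-- projection of the index type -/
def ix (τ : TT a) : Fin n := τ.1

/-- the linear forms, indexed by all naturals -/
noncomputable def LF (i : Fin n) (j : ℕ) : MvPolynomial (Fin n) (RA a) :=
  if h : j < a i + 1 then lin (ix a) ⟨i, ⟨j, h⟩⟩ else MvPolynomial.X i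

/-- lower products -/
noncomputable def pp (α : Fin n → ℕ) : MvPolynomial (Fin n) (RA a) :=
  ∏ i, ∏ j ∈ range (α i), LF a i j

/-- upper products -/
noncomputable def pq (β : Fin n → ℕ) : MvPolynomial (Fin n) (RA a) :=
  ∏ i, ∏ j ∈ range (β i), LF a i (a i - j)

lemma map_lin {T : Type*} (idx : T → Fin n) (τ : T) :
    MvPolynomial.map (MvPowerSeries.constantCoeff (σ := T × Fin n) (R := ZMod 2)) (lin idx τ) =
      MvPolynomial.X (idx τ) := by
  simp [lin]

lemma map_LF (i : Fin n) (j : ℕ) :
    MvPolynomial.map (MvPowerSeries.constantCoeff (σ := TT a × Fin n) (R := ZMod 2)) (LF a i j) =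
      MvPolynomial.X i := by
  rw [LF]
  split_ifs
  · rw [map_lin]; rfl
  · simp

lemma pp_li : LinearIndependent (RA a) (pp a) := by
  apply li_of_map
  have : (fun α => MvPolynomial.map (MvPowerSeries.constantCoeff (σ := TT a × Fin n)
      (R := ZMod 2)) (pp a α)) = mon (ZMod 2) := by
    funext α
    simp only [pp, map_prod, map_LF, Finset.prod_const, Finset.card_range, mon]
  rw [this]
  exact mon_linearIndependent _

/-- every variable is a combination of a transversal of the linear forms -/
lemma X_mem_span (α : Fin n → ℕ) (k : Fin n) :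
    ∃ c : Fin n → RA a, MvPolynomial.X k = ∑ i, MvPolynomial.C (c i) * LF a i (α i) := by
  classical
  let M : Matrix (Fin n) (Fin n) (RA a) := fun i j =>
    (if i = j then 1 else 0) +
      (if h : α i < a i + 1 then MvPowerSeries.X ((⟨i, ⟨α i, h⟩⟩ : TT a), j) else 0)
  have hM : ∀ i, LF a i (α i) = ∑ j, MvPolynomial.C (M i j) * MvPolynomial.X j := by
    intro i
    have h1 : ∀ j, MvPolynomial.C (M i j) * MvPolynomial.X j =
        (if i = j then MvPolynomial.X j else 0) +
        (if h : α i < a i + 1 then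
          MvPolynomial.C (MvPowerSeries.X ((⟨i, ⟨α i, h⟩⟩ : TT a), j)) * MvPolynomial.X j else 0) := by
      intro j
      simp only [M, map_add, add_mul]
      congr 1
      · split_ifs <;> simp
      · split_ifs <;> simp
    rw [Finset.sum_congr rfl (fun j _ => h1 j), Finset.sum_add_distrib, Finset.sum_ite_eq, LF]
    simp only [Finset.mem_univ, if_true]
    split_ifs with h
    · rw [lin]; rfl
    · simp
  have hdet : IsUnit M.det := by
    rw [MvPowerSeries.isUnit_iff_constantCoeff, RingHom.map_det]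
    have : (MvPowerSeries.constantCoeff (σ := TT a × Fin n) (R := ZMod 2)).mapMatrix M = 1 := by
      ext i j
      show MvPowerSeries.constantCoeff (M i j) = _
      simp only [M, map_add, Matrix.one_apply]
      split_ifs <;> simp
    rw [this, Matrix.det_one]
    exact isUnit_one
  refine ⟨fun i => M⁻¹ k i, ?_⟩
  have hinv : M⁻¹ * M = 1 := Matrix.nonsing_inv_mul M hdet
  calc (MvPolynomial.X k : MvPolynomial (Fin n) (RA a)) =
      ∑ j, MvPolynomial.C ((M⁻¹ * M) k j) * MvPolynomial.X j := by
        rw [hinv]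
        simp [Matrix.one_apply, Finset.sum_ite_eq]
    _ = ∑ j, ∑ i, MvPolynomial.C (M⁻¹ k i) * (MvPolynomial.C (M i j) * MvPolynomial.X j) := by
        apply Finset.sum_congr rfl
        intro j _
        rw [Matrix.mul_apply, map_sum, Finset.sum_mul]
        apply Finset.sum_congr rfl
        intro i _
        rw [map_mul, mul_assoc]
    _ = _ := by
        rw [Finset.sum_comm]
        apply Finset.sum_congr rfl
        intro i _
        rw [hM, Finset.mul_sum]

lemma LF_eq_sum (i : Fin n) (j : ℕ) :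
    ∃ c : Fin n → RA a, LF a i j = ∑ k, MvPolynomial.C (c k) * MvPolynomial.X k := by
  classical
  by_cases h : j < a i + 1
  · refine ⟨fun k => (if i = k then 1 else 0) + MvPowerSeries.X ((⟨i, ⟨j, h⟩⟩ : TT a), k), ?_⟩
    rw [LF, dif_pos h, lin]
    have h1 : ∀ k, MvPolynomial.C ((if i = k then 1 else 0) +
        MvPowerSeries.X ((⟨i, ⟨j, h⟩⟩ : TT a), k)) * MvPolynomial.X k =
        (if i = k then (MvPolynomial.X k : MvPolynomial (Fin n) (RA a)) else 0) +
        MvPolynomial.C (MvPowerSeries.X ((⟨i, ⟨j, h⟩⟩ : TT a), k)) * MvPolynomial.X k := by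
      intro k
      rw [map_add, add_mul]
      congr 1
      split_ifs <;> simp
    rw [Finset.sum_congr rfl (fun j _ => h1 j), Finset.sum_add_distrib, Finset.sum_ite_eq]
    simp [ix]
  · refine ⟨fun k => if i = k then 1 else 0, ?_⟩
    rw [LF, dif_neg h]
    have h1 : ∀ k, MvPolynomial.C (if i = k then (1 : RA a) else 0) * MvPolynomial.X k =
        (if i = k then (MvPolynomial.X k : MvPolynomial (Fin n) (RA a)) else 0) := by
      intro k
      split_ifs <;> simp
    rw [Finset.sum_congr rfl (fun j _ => h1 j), Finset.sum_ite_eq]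
    simp

lemma prod_update {M : Type*} [CommMonoid M] (f : Fin n → ℕ → M) (α : Fin n → ℕ) (i : Fin n) :
    ∏ i', ∏ j ∈ range ((α + (Pi.single i 1 : Fin n → ℕ)) i'), f i' j =
      (∏ i', ∏ j ∈ range (α i'), f i' j) * f i (α i) := by
  rw [← Finset.mul_prod_erase univ _ (Finset.mem_univ i),
    ← Finset.mul_prod_erase univ (fun i' => ∏ j ∈ range (α i'), f i' j) (Finset.mem_univ i)]
  have h1 : ∏ x ∈ univ.erase i, ∏ j ∈ range ((α + (Pi.single i 1 : Fin n → ℕ)) x), f x j =
      ∏ x ∈ univ.erase i, ∏ j ∈ range (α x), f x j := by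
    apply Finset.prod_congr rfl
    intro x hx
    rw [Finset.mem_erase] at hx
    simp [Pi.single_eq_of_ne hx.1]
  rw [h1]
  simp only [Pi.add_apply, Pi.single_eq_same, Finset.prod_range_succ]
  rw [mul_assoc, mul_assoc]
  congr 1
  rw [mul_comm]

lemma pp_succ (α : Fin n → ℕ) (i : Fin n) :
    pp a (α + (Pi.single i 1 : Fin n → ℕ)) = pp a α * LF a i (α i) := by
  rw [pp, prod_update (fun i j => LF a i j)]; rfl

lemma pq_succ (β : Fin n → ℕ) (i : Fin n) :
    pq a (β + (Pi.single i 1 : Fin n → ℕ)) = pq a β * LF a i (a i - β i) := by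
  rw [pq, prod_update (fun i j => LF a i (a i - j))]; rfl

lemma full_eq (i : Fin n) :
    ∏ j ∈ range (a i + 1), LF a i j = ∏ τ ∈ univ.filter (fun τ => ix a τ = i), lin (ix a) τ := by
  classical
  rw [Finset.prod_range]
  apply Finset.prod_bij (fun (j : Fin (a i + 1)) _ => (⟨i, j⟩ : TT a))
  · intro j _; rw [Finset.mem_filter]; exact ⟨Finset.mem_univ _, rfl⟩
  · intro j _ j' _ h; simpa using h
  · rintro ⟨i', j⟩ hτ
    rw [Finset.mem_filter] at hτ
    have hτ' : i' = i := hτ.2
    subst hτ'
    exact ⟨j, Finset.mem_univ _, rfl⟩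
  · intro j _
    rw [LF, dif_pos j.2]

lemma upper_prod (i : Fin n) (m c : ℕ) (h : m + c = a i + 1) :
    ∏ j ∈ range (a i + 1), LF a i j =
      (∏ j ∈ range m, LF a i j) * ∏ j ∈ range c, LF a i (a i - j) := by
  rw [← h, Finset.prod_range_add]
  congr 1
  rw [← Finset.prod_range_reflect]
  apply Finset.prod_congr rfl
  intro j hj
  rw [Finset.mem_range] at hj
  congr 1
  omega

lemma dvd_of_not_le (α β : Fin n → ℕ) (i : Fin n) (hβ : β i ≤ a i) (h : a i - β i < α i) :
    (∏ τ ∈ univ.filter (fun τ => ix a τ = i), lin (ix a) τ) ∣ pp a α * pq a β := by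
  rw [← full_eq, upper_prod a i (a i + 1 - β i) (β i) (by omega)]
  apply mul_dvd_mul
  · refine dvd_trans ?_ (Finset.dvd_prod_of_mem _ (Finset.mem_univ i))
    exact Finset.prod_dvd_prod_of_subset _ _ _ (by
      intro x hx; rw [Finset.mem_range] at *; omega)
  · exact Finset.dvd_prod_of_mem (fun i => ∏ j ∈ range (β i), LF a i (a i - j)) (Finset.mem_univ i)

lemma full_dvd_pq (β : Fin n → ℕ) (i : Fin n) (h : a i + 1 ≤ β i) :
    (∏ j ∈ range (a i + 1), LF a i j) ∣ pq a β := by
  rw [upper_prod a i 0 (a i + 1) (by omega)]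
  simp only [Finset.range_zero, Finset.prod_empty, one_mul]
  refine dvd_trans ?_ (Finset.dvd_prod_of_mem _ (Finset.mem_univ i))
  exact Finset.prod_dvd_prod_of_subset _ _ _ (by
      intro x hx; rw [Finset.mem_range] at *; omega)

lemma diag_ne_zero (α : Fin n → ℕ) (hα : α ≤ a) :
    res (ix a) (pp a α * pq a (a - α)) ≠ 0 := by
  apply res_ne_zero_of_mul (ix a) (fun i => ⟨i, ⟨α i, Nat.lt_succ_of_le (hα i)⟩⟩)
  · intro i; rfl
  · rw [Fintype.prod_sigma, pp, pq, ← Finset.prod_mul_distrib, ← Finset.prod_mul_distrib]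
    apply Finset.prod_congr rfl
    intro i _
    have h1 : ∏ y : Fin (a i + 1), lin (ix a) ⟨i, y⟩ = ∏ j ∈ range (a i + 1), LF a i j := by
      rw [Finset.prod_range]
      apply Finset.prod_congr rfl
      intro j _
      rw [LF, dif_pos j.2]
    have h2 : α i ≤ a i := hα i
    rw [h1, upper_prod a i (α i + 1) (a i - α i) (by omega), Finset.prod_range_succ]
    have h3 : lin (ix a) (⟨i, ⟨α i, Nat.lt_succ_of_le (hα i)⟩⟩ : TT a) = LF a i (α i) := by
      rw [LF, dif_pos (Nat.lt_succ_of_le h2)]
    rw [h3]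
    simp only [Pi.sub_apply]
    ring

/-- a polynomial killed by all `res(b * mon)` in degree `r` is killed against homogeneous ones -/
lemma res_mul_homog (b g : MvPolynomial (Fin n) (RA a)) (r : ℕ) (hg : g.IsHomogeneous r)
    (h : ∀ N : Fin n → ℕ, ∑ i, N i = r → res (ix a) (b * mon (RA a) N) = 0) :
    res (ix a) (b * g) = 0 := by
  have h1 : b * g = ∑ v ∈ g.support, MvPolynomial.coeff v g • (b * mon (RA a) v) := by
    conv_lhs => rw [g.as_sum, Finset.mul_sum]
    apply Finset.sum_congr rfl
    intro v _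
    have h2 : (MvPolynomial.monomial v) (MvPolynomial.coeff v g) =
        MvPolynomial.coeff v g • (MvPolynomial.monomial v (1 : RA a)) := by
      rw [MvPolynomial.smul_monomial, smul_eq_mul, mul_one]
    rw [mon_eq, h2, mul_smul_comm, Finsupp.equivFunOnFinite_symm_coe]
  rw [h1]
  change resL (ix a) _ = 0
  rw [map_sum]
  apply Finset.sum_eq_zero
  intro v hv
  rw [map_smul]
  have : resL (ix a) (b * mon (RA a) v) = 0 := by
    apply h
    have := hg (MvPolynomial.mem_support_iff.mp hv)
    rw [← this, Finsupp.weight_apply, Finsupp.sum_fintype _ _ (by intro i; simp)]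
    simp
  rw [this, smul_zero]

lemma exists_le_sum {n : ℕ} (N : Fin n → ℕ) (r : ℕ) (h : r ≤ ∑ i, N i) :
    ∃ J : Fin n → ℕ, (∀ i, J i ≤ N i) ∧ ∑ i, J i = r := by
  induction r with
  | zero => exact ⟨0, by simp, by simp⟩
  | succ r ih =>
    obtain ⟨J, hJ, hs⟩ := ih (by omega)
    have : ∃ i, J i < N i := by
      by_contra hcon
      have hcon' : ∀ i, N i ≤ J i := fun i => not_lt.mp (fun hh => hcon ⟨i, hh⟩)
      have := Finset.sum_le_sum (fun i (_ : i ∈ univ) => hcon' i)
      omega
    obtain ⟨i, hi⟩ := this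
    refine ⟨Function.update J i (J i + 1), ?_, ?_⟩
    · intro j
      by_cases hj : j = i
      · subst hj; simp; omega
      · simp [Function.update_of_ne hj, hJ j]
    · rw [Finset.sum_update_of_mem (Finset.mem_univ i), ← hs,
        ← Finset.add_sum_erase univ J (Finset.mem_univ i), Finset.sdiff_singleton_eq_erase]
      ring

lemma exists_fiber {n : ℕ} {T : Type*} [Fintype T] [DecidableEq T] (I : Fin n → ℕ)
    (h : ∑ i, I i = Fintype.card T) :
    ∃ k : T → Fin n, ∀ i, (univ.filter (fun τ => k τ = i)).card = I i := by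
  have hc : Fintype.card T = Fintype.card (Σ i : Fin n, Fin (I i)) := by
    rw [Fintype.card_sigma]; simp [h]
  let e := Fintype.equivOfCardEq hc
  refine ⟨fun τ => (e τ).1, fun i => ?_⟩
  have h1 : (univ.filter (fun τ => (e τ).1 = i)).card =
      (univ.filter (fun x : Σ i : Fin n, Fin (I i) => x.1 = i)).card := by
    apply Finset.card_bij (fun τ _ => e τ)
    · intro τ hτ; simpa using hτ
    · intro τ _ τ' _ h; exact e.injective h
    · intro x hx
      refine ⟨e.symm x, ?_, by simp⟩
      simpa using hx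
  rw [h1]
  have h2 : (univ.filter (fun x : Σ i : Fin n, Fin (I i) => x.1 = i)).card =
      (univ : Finset (Fin (I i))).card := by
    symm
    apply Finset.card_bij (fun j _ => (⟨i, j⟩ : Σ i : Fin n, Fin (I i)))
    · intro j _; simp
    · intro j _ j' _ h; simpa using h
    · rintro ⟨i', j⟩ hx
      simp only [Finset.mem_filter, Finset.mem_univ, true_and] at hx
      subst hx
      exact ⟨j, Finset.mem_univ _, rfl⟩
  rw [h2]; simp

lemma LF_homog (i : Fin n) (j : ℕ) : (LF a i j).IsHomogeneous 1 := by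
  obtain ⟨c, hc⟩ := LF_eq_sum a i j
  rw [hc]
  apply MvPolynomial.IsHomogeneous.sum
  intro k _
  exact MvPolynomial.isHomogeneous_C_mul_X _ _

lemma pp_homog (α : Fin n → ℕ) : (pp a α).IsHomogeneous (∑ i, α i) := by
  rw [pp]
  apply MvPolynomial.IsHomogeneous.prod
  intro i _
  have := MvPolynomial.IsHomogeneous.prod (range (α i)) (fun j => LF a i j) (fun _ => 1)
    (fun j _ => LF_homog a i j)
  simpa using this

lemma pq_homog (β : Fin n → ℕ) : (pq a β).IsHomogeneous (∑ i, β i) := by
  rw [pq]
  apply MvPolynomial.IsHomogeneous.prod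
  intro i _
  have := MvPolynomial.IsHomogeneous.prod (range (β i)) (fun j => LF a i (a i - j)) (fun _ => 1)
    (fun j _ => LF_homog a i _)
  simpa using this

/-- anisotropy in residue form -/
lemma res_mon_eq_zero (b : MvPolynomial (Fin n) (RA a)) (q : ℕ) (hq : 2 * q ≤ ∑ i, a i)
    (h : ∀ J : Fin n → ℕ, res (ix a) (b ^ 2 * mon (RA a) J) = 0)
    (N : Fin n → ℕ) (hN : ∑ i, N i = (∑ i, a i) - q) : res (ix a) (b * mon (RA a) N) = 0 := by
  obtain ⟨J, hJ, hJs⟩ := exists_le_sum N ((∑ i, a i) - 2 * q) (by omega)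
  have hcard : ∑ i, (2 * N i + 1 - J i) = Fintype.card (TT a) := by
    have h1 : ∑ i, (2 * N i + 1 - J i) + ∑ i, J i = ∑ i, (2 * N i + 1) := by
      rw [← Finset.sum_add_distrib]
      apply Finset.sum_congr rfl
      intro i _
      have := hJ i
      omega
    have h2 : ∑ i, (2 * N i + 1) = 2 * ∑ i, N i + n := by
      rw [Finset.sum_add_distrib, ← Finset.mul_sum]; simp
    have h3 : Fintype.card (TT a) = ∑ i, a i + n := by
      rw [Fintype.card_sigma]; simp [Finset.sum_add_distrib]
    omega
  obtain ⟨k, hk⟩ := exists_fiber (T := TT a) _ hcard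
  ext e'
  have := res_sq (ix a) k J N (by intro i; rw [hk]; have := hJ i; omega) b e'
  rw [mon, ← this]
  have h5 := h J
  rw [mon] at h5
  rw [h5]
  simp

/-- index set of the lower products -/
def IA (U : Finset (Fin n → ℕ)) (q : ℕ) : Finset (Fin n → ℕ) :=
  (Finset.piAntidiag univ q).filter (fun α => α ∉ U)

open Classical in
/-- index set of the upper products -/
noncomputable def IB (U : Finset (Fin n → ℕ)) (q : ℕ) : Finset (Fin n → ℕ) :=
  (Finset.piAntidiag univ q).filter (fun β => β ≤ a ∧ a - β ∈ U)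

lemma mem_IA (U : Finset (Fin n → ℕ)) (q : ℕ) (α : Fin n → ℕ) :
    α ∈ IA U q ↔ ∑ i, α i = q ∧ α ∉ U := by
  unfold IA
  rw [Finset.mem_filter, Finset.mem_piAntidiag]
  simp

lemma mem_IB (U : Finset (Fin n → ℕ)) (q : ℕ) (β : Fin n → ℕ) :
    β ∈ IB a U q ↔ ∑ i, β i = q ∧ β ≤ a ∧ a - β ∈ U := by
  classical
  unfold IB
  rw [Finset.mem_filter, Finset.mem_piAntidiag]
  simp

/-- the combined family -/
noncomputable def fam (U : Finset (Fin n → ℕ)) (q : ℕ) : (IA U q) ⊕ (IB a U q) →
    MvPolynomial (Fin n) (RA a) :=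
  Sum.elim (fun α => pp a α.1) (fun β => pq a β.1)

lemma fam_li (U : Finset (Fin n → ℕ)) (hU : ∀ α ∈ U, ∀ β ≤ α, β ∈ U) (q : ℕ)
    (hq : 2 * q ≤ ∑ i, a i) : LinearIndependent (RA a) (fam a U q) := by
  classical
  rw [Fintype.linearIndependent_iff]
  intro g hg
  rw [Fintype.sum_sum_type] at hg
  simp only [fam, Sum.elim_inl, Sum.elim_inr] at hg
  set s : IA U q → RA a := fun α => g (Sum.inl α) with hs
  set t : IB a U q → RA a := fun β => g (Sum.inr β) with ht
  set b : MvPolynomial (Fin n) (RA a) := ∑ β, t β • pq a β.1 with hb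
  have hb2 : b = - ∑ α, s α • pp a α.1 := by
    rw [eq_neg_iff_add_eq_zero, add_comm]; exact hg
  -- products vanish
  have hvan : ∀ α β : Fin n → ℕ, β ≤ a → ¬ (α ≤ a - β) → ∀ c,
      res (ix a) (pp a α * pq a β * c) = 0 := by
    intro α β hβ hne c
    rw [Pi.le_def, not_forall] at hne
    obtain ⟨i, hi⟩ := hne
    apply res_eq_zero_of_dvd (ix a) i
    apply Dvd.dvd.mul_right
    exact dvd_of_not_le a α β i (hβ i) (by simpa using hi)
  have hsq : ∀ J : Fin n → ℕ, res (ix a) (b ^ 2 * mon (RA a) J) = 0 := by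
    intro J
    have h1 : b ^ 2 * mon (RA a) J = ∑ β, ∑ α, (-(t β * s α)) •
        (pp a α.1 * pq a β.1 * mon (RA a) J) := by
      rw [pow_two]
      conv_lhs => rw [show b * b = (∑ β, t β • pq a β.1) * (- ∑ α, s α • pp a α.1) by
        rw [← hb2]]
      rw [← Finset.sum_neg_distrib, Finset.sum_mul_sum, Finset.sum_mul]
      apply Finset.sum_congr rfl
      intro β _
      rw [Finset.sum_mul]
      apply Finset.sum_congr rfl
      intro α _
      rw [← smul_neg, smul_mul_smul_comm, smul_mul_assoc, neg_smul, ← smul_neg]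
      congr 1
      ring
    rw [h1]
    change resL (ix a) _ = 0
    rw [map_sum]
    apply Finset.sum_eq_zero
    intro β _
    rw [map_sum]
    apply Finset.sum_eq_zero
    intro α _
    rw [map_smul]
    have hβ := (mem_IB a U q β.1).mp β.2
    have hα := (mem_IA U q α.1).mp α.2
    have : resL (ix a) (pp a α.1 * pq a β.1 * mon (RA a) J) = 0 :=
      hvan α.1 β.1 hβ.2.1 (fun hle => hα.2 (hU _ hβ.2.2 _ hle)) _
    rw [this, smul_zero]
  have hmon := res_mon_eq_zero a b q hq hsq
  have ht0 : ∀ β, t β = 0 := by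
    intro β₀
    have hβ₀ := (mem_IB a U q β₀.1).mp β₀.2
    have hdeg : ∑ i, (a - β₀.1) i = (∑ i, a i) - q := by
      have : ∑ i, (a - β₀.1) i + ∑ i, β₀.1 i = ∑ i, a i := by
        rw [← Finset.sum_add_distrib]
        apply Finset.sum_congr rfl
        intro i _
        have h9 : β₀.1 i ≤ a i := hβ₀.2.1 i
        simp only [Pi.sub_apply]; omega
      have h2 := hβ₀.1
      omega
    have h1 : res (ix a) (b * pp a (a - β₀.1)) = 0 :=
      res_mul_homog a b _ _ (pp_homog a _) (by rw [hdeg]; exact hmon)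
    have h2 : b * pp a (a - β₀.1) = ∑ β, t β • (pp a (a - β₀.1) * pq a β.1 * 1) := by
      rw [hb, Finset.sum_mul]
      apply Finset.sum_congr rfl
      intro β _
      rw [smul_mul_assoc, mul_one, mul_comm]
    rw [h2] at h1
    change resL (ix a) _ = 0 at h1
    rw [map_sum, Finset.sum_eq_single β₀] at h1
    · rw [map_smul, smul_eq_mul, mul_eq_zero] at h1
      rcases h1 with h1 | h1
      · exact h1
      · exfalso
        apply diag_ne_zero a (a - β₀.1) (by intro i; simp)
        have h3 : a - (a - β₀.1) = β₀.1 := by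
          funext i
          have h9 : β₀.1 i ≤ a i := hβ₀.2.1 i
          simp only [Pi.sub_apply]; omega
        rw [h3]
        rw [mul_one] at h1
        exact h1
    · intro β _ hne
      rw [map_smul]
      have hβ := (mem_IB a U q β.1).mp β.2
      have : resL (ix a) (pp a (a - β₀.1) * pq a β.1 * 1) = 0 := by
        apply hvan _ _ hβ.2.1
        intro hle
        apply hne
        have hle2 : ∀ i, β.1 i ≤ β₀.1 i := by
          intro i
          have h1 : (a - β₀.1) i ≤ (a - β.1) i := hle i
          have h2 : β.1 i ≤ a i := hβ.2.1 i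
          have h3 : β₀.1 i ≤ a i := hβ₀.2.1 i
          simp only [Pi.sub_apply] at h1
          omega
        apply Subtype.ext
        funext i
        exact (Finset.sum_eq_sum_iff_of_le (fun i _ => hle2 i)).mp
          (hβ.1.trans hβ₀.1.symm) i (Finset.mem_univ i)
      rw [this, smul_zero]
    · intro h; exact absurd (Finset.mem_univ _) h
  have hb0 : b = 0 := by
    rw [hb]; apply Finset.sum_eq_zero; intro β _; rw [ht0 β, zero_smul]
  have hs0 : ∑ α, s α • pp a α.1 = 0 := by
    rw [hb0] at hb2
    simpa using hb2.symm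
  have hli := (pp_li a).comp (fun α : IA U q => α.1) Subtype.val_injective
  rw [Fintype.linearIndependent_iff] at hli
  have hs1 := hli s hs0
  rintro (α | β)
  · exact hs1 α
  · exact ht0 β

end families

end Pool.Agent.MP_d42654_co
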