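import Mathlib

namespace Pool.Agent.Lib.MP_d42654_co

open Finset

/-- strict order comparing the last coordinate where two vectors differ -/
def Lt {n : ℕ} (u w : Fin n → ℕ) : Prop := ∃ i, u i < w i ∧ ∀ j, i < j → u j = w j

abbrev cn {n : ℕ} (c : ℕ) (v : Fin n → ℕ) : Fin (n + 1) → ℕ := Fin.cons c v

abbrev un {n : ℕ} (i : Fin n) : Fin n → ℕ := Pi.single i 1

abbrev deg {n : ℕ} (u : Fin n → ℕ) : ℕ := ∑ i, u i

lemma cn_inj {n : ℕ} {c d : ℕ} {u v : Fin n → ℕ} : cn c u = cn d v ↔ c = d ∧ u = v :=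
  Fin.cons_inj

lemma exists_cn {n : ℕ} (w : Fin (n + 1) → ℕ) : ∃ c v, w = cn c v :=
  ⟨w 0, Fin.tail w, (Fin.cons_self_tail w).symm⟩

lemma deg_cn {n : ℕ} (c : ℕ) (v : Fin n → ℕ) : deg (cn c v) = c + deg v := by
  simp [deg, cn, Fin.sum_univ_succ]

lemma cn_le_iff {n : ℕ} {c d : ℕ} {u v : Fin n → ℕ} : cn c u ≤ cn d v ↔ c ≤ d ∧ u ≤ v :=
  Fin.cons_le_cons

lemma cn_add_un_zero {n : ℕ} (c : ℕ) (v : Fin n → ℕ) : cn c v + un 0 = cn (c + 1) v := by
  funext i
  refine Fin.cases ?_ (fun j => ?_) i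
  · simp [cn, un]
  · simp [cn, un, Fin.succ_ne_zero]

lemma cn_add_un_succ {n : ℕ} (c : ℕ) (v : Fin n → ℕ) (i : Fin n) :
    cn c v + un i.succ = cn c (v + un i) := by
  funext j
  refine Fin.cases ?_ (fun j => ?_) j
  · simp [cn, un, (Fin.succ_ne_zero i).symm]
  · simp [cn, un, Pi.single_apply]

lemma deg_add {n : ℕ} (u v : Fin n → ℕ) : deg (u + v) = deg u + deg v := by
  simp [deg, Finset.sum_add_distrib]

lemma deg_un {n : ℕ} (i : Fin n) : deg (un i) = 1 := by
  simp [deg, un]

lemma deg_add_un {n : ℕ} (u : Fin n → ℕ) (i : Fin n) : deg (u + un i) = deg u + 1 := by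
  rw [deg_add, deg_un]

lemma deg_mono {n : ℕ} {u v : Fin n → ℕ} (h : u ≤ v) : deg u ≤ deg v :=
  Finset.sum_le_sum fun i _ => h i

lemma eq_of_le_of_deg {n : ℕ} {u v : Fin n → ℕ} (h : u ≤ v) (h' : deg u = deg v) : u = v := by
  by_contra hne
  have hlt : u < v := lt_of_le_of_ne h hne
  obtain ⟨_, i, hi⟩ := Pi.lt_def.1 hlt
  have : deg u < deg v := Finset.sum_lt_sum (fun i _ => h i) ⟨i, Finset.mem_univ _, hi⟩
  omega

lemma le_add_un {n : ℕ} (u : Fin n → ℕ) (i : Fin n) : u ≤ u + un i := by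
  intro j
  simp

/-- if `u ≤ w` and the degree is smaller, a unit can be removed from `w` -/
lemma exists_between {n : ℕ} {u w : Fin n → ℕ} (h : u ≤ w) (h' : deg u < deg w) :
    ∃ x i, w = x + un i ∧ u ≤ x := by
  have hne : ∃ i, u i < w i := by
    by_contra hcon
    push Not at hcon
    have : w = u := le_antisymm hcon h
    subst this
    exact lt_irrefl _ h'
  obtain ⟨i, hi⟩ := hne
  refine ⟨Function.update w i (w i - 1), i, ?_, ?_⟩
  · funext j
    by_cases hj : j = i
    · subst hj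
      simp
      omega
    · simp [hj]
  · intro j
    by_cases hj : j = i
    · subst hj
      simp
      omega
    · simp only [Function.update_of_ne hj]
      exact h j

lemma exists_between' {n : ℕ} {u w : Fin n → ℕ} (h : u ≤ w) (h' : deg u < deg w) :
    ∃ i, u + un i ≤ w := by
  have hne : ∃ i, u i < w i := by
    by_contra hcon
    push Not at hcon
    have : w = u := le_antisymm hcon h
    subst this
    exact lt_irrefl _ h'
  obtain ⟨i, hi⟩ := hne
  refine ⟨i, fun j => ?_⟩
  by_cases hj : j = i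
  · subst hj
    simpa using hi
  · simpa [hj] using h j

lemma exists_le_deg {n : ℕ} (w : Fin n → ℕ) (r : ℕ) (h : r ≤ deg w) :
    ∃ x, x ≤ w ∧ deg x = r := by
  induction hk : deg w - r generalizing w with
  | zero => exact ⟨w, le_rfl, by omega⟩
  | succ k ih =>
    have h0 : (0 : Fin n → ℕ) ≤ w := fun i => Nat.zero_le _
    have h0' : deg (0 : Fin n → ℕ) = 0 := by simp [deg]
    obtain ⟨x, i, hx, -⟩ := exists_between h0 (by omega)
    have hd : deg w = deg x + 1 := by rw [hx, deg_add_un]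
    obtain ⟨y, hy, hy'⟩ := ih x (by omega) (by omega)
    exact ⟨y, hy.trans (by rw [hx]; exact le_add_un x i), hy'⟩

lemma Lt.irrefl {n : ℕ} (u : Fin n → ℕ) : ¬ Lt u u := by
  rintro ⟨i, hi, -⟩
  exact lt_irrefl _ hi

lemma Lt.trans {n : ℕ} {u v w : Fin n → ℕ} (h : Lt u v) (h' : Lt v w) : Lt u w := by
  obtain ⟨i, hi, hi'⟩ := h
  obtain ⟨j, hj, hj'⟩ := h'
  rcases lt_trichotomy i j with hij | hij | hij
  · refine ⟨j, ?_, fun k hk => ?_⟩
    · rw [hi' j hij]; exact hj
    · rw [hi' k (hij.trans hk), hj' k hk]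
  · subst hij
    exact ⟨i, hi.trans hj, fun k hk => (hi' k hk).trans (hj' k hk)⟩
  · refine ⟨i, ?_, fun k hk => ?_⟩
    · rw [← hj' i hij]; exact hi
    · rw [hi' k hk, hj' k (hij.trans hk)]

lemma Lt.asymm {n : ℕ} {u v : Fin n → ℕ} (h : Lt u v) (h' : Lt v u) : False :=
  Lt.irrefl _ (h.trans h')

lemma Lt.total {n : ℕ} (u v : Fin n → ℕ) : Lt u v ∨ u = v ∨ Lt v u := by
  by_cases h : u = v
  · exact Or.inr (Or.inl h)
  · have hne : (Finset.univ.filter fun i => u i ≠ v i).Nonempty := by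
      obtain ⟨i, hi⟩ := Function.ne_iff.1 h
      exact ⟨i, by simp [hi]⟩
    obtain ⟨i, hi, hmax⟩ := Finset.exists_max_image _ (fun i => i) hne
    have hi' : u i ≠ v i := by simpa using hi
    have hrest : ∀ j, i < j → u j = v j := by
      intro j hj
      by_contra hcon
      have := hmax j (by simp [hcon])
      exact absurd hj (not_lt.2 this)
    rcases lt_or_gt_of_ne hi' with h1 | h1
    · exact Or.inl ⟨i, h1, hrest⟩
    · exact Or.inr (Or.inr ⟨i, h1, fun j hj => (hrest j hj).symm⟩)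

lemma Lt.cn_iff {n : ℕ} {c d : ℕ} {u v : Fin n → ℕ} :
    Lt (cn c u) (cn d v) ↔ Lt u v ∨ (u = v ∧ c < d) := by
  constructor
  · rintro ⟨i, hi, hi'⟩
    revert hi hi'
    refine Fin.cases ?_ (fun j => ?_) i
    · intro hi hi'
      right
      refine ⟨?_, by simpa [cn] using hi⟩
      funext j
      have := hi' j.succ (Fin.succ_pos j)
      simpa [cn] using this
    · intro hi hi'
      left
      refine ⟨j, by simpa [cn] using hi, fun k hk => ?_⟩
      have := hi' k.succ (Fin.succ_lt_succ_iff.2 hk)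
      simpa [cn] using this
  · rintro (⟨i, hi, hi'⟩ | ⟨rfl, hcd⟩)
    · refine ⟨i.succ, by simpa [cn] using hi, fun k hk => ?_⟩
      revert hk
      refine Fin.cases ?_ (fun j => ?_) k
      · intro hk
        exact absurd hk (by simp)
      · intro hk
        have := hi' j (Fin.succ_lt_succ_iff.1 hk)
        simpa [cn] using this
    · refine ⟨0, by simpa [cn] using hcd, fun k hk => ?_⟩
      revert hk
      refine Fin.cases ?_ (fun j => ?_) k
      · intro hk
        exact absurd hk (by simp)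
      · intro hk
        simp [cn]

lemma Lt.add_un {n : ℕ} (u : Fin n → ℕ) (i : Fin n) : Lt u (u + un i) :=
  ⟨i, by simp, fun j hj => by simp [(ne_of_gt hj)]⟩

/-- moving a unit to a later coordinate increases the vector -/
lemma Lt.move {n : ℕ} (v : Fin n → ℕ) {k i : Fin n} (h : k < i) : Lt (v + un k) (v + un i) :=
  ⟨i, by simp [(ne_of_gt h)], fun j hj => by
    simp [(ne_of_gt hj), (ne_of_gt (h.trans hj))]⟩

/-- Lemma R -/
lemma Lt.remove {n : ℕ} : ∀ {u w : Fin n → ℕ}, Lt u w → deg u < deg w →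
    ∃ x k, w = x + un k ∧ (u = x ∨ Lt u x) := by
  induction n with
  | zero =>
    rintro u w ⟨i, _⟩ _
    exact i.elim0
  | succ n ih =>
    intro u w h hd
    obtain ⟨a, u, rfl⟩ := exists_cn u
    obtain ⟨b, w, rfl⟩ := exists_cn w
    rw [deg_cn, deg_cn] at hd
    rw [Lt.cn_iff] at h
    rcases Nat.eq_zero_or_pos b with hb | hb
    · subst hb
      have huw : Lt u w := by
        rcases h with h | ⟨_, h⟩
        · exact h
        · exact absurd h (Nat.not_lt_zero _)
      obtain ⟨x, k, hx, hux⟩ := ih huw (by omega)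
      have hdw : deg w = deg x + 1 := by rw [hx, deg_add_un]
      refine ⟨cn 0 x, k.succ, by rw [cn_add_un_succ, hx], ?_⟩
      rcases hux with rfl | hux
      · left
        have : a = 0 := by omega
        rw [this]
      · right
        exact Lt.cn_iff.2 (Or.inl hux)
    · refine ⟨cn (b - 1) w, 0, ?_, ?_⟩
      · rw [cn_add_un_zero]
        congr 1
        omega
      · rcases h with h | ⟨rfl, h⟩
        · exact Or.inr (Lt.cn_iff.2 (Or.inl h))
        · rcases Nat.lt_or_ge a (b - 1) with h1 | h1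
          · exact Or.inr (Lt.cn_iff.2 (Or.inr ⟨rfl, h1⟩))
          · left
            have : a = b - 1 := by omega
            rw [this]

lemma Lt.below {n : ℕ} (m : ℕ) : ∀ {u w : Fin n → ℕ}, Lt u w → deg w = deg u + m →
    ∃ x, x ≤ w ∧ deg x = deg u ∧ (u = x ∨ Lt u x) := by
  induction m with
  | zero =>
    intro u w h hd
    exact ⟨w, le_rfl, by omega, Or.inr h⟩
  | succ m ih =>
    intro u w h hd
    obtain ⟨x, k, hx, hux⟩ := h.remove (by omega)
    have hdw : deg w = deg x + 1 := by rw [hx, deg_add_un]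
    have hxw : x ≤ w := by rw [hx]; exact le_add_un x k
    rcases hux with rfl | hux
    · exact ⟨u, hxw, rfl, Or.inl rfl⟩
    · obtain ⟨y, hy, hy', hy''⟩ := ih hux (by omega)
      exact ⟨y, hy.trans hxw, hy', hy''⟩

lemma exists_max {n : ℕ} (S : Finset (Fin n → ℕ)) (hS : S.Nonempty) :
    ∃ m ∈ S, ∀ w ∈ S, w = m ∨ Lt w m := by
  classical
  induction hS using Finset.Nonempty.cons_induction with
  | singleton a => exact ⟨a, by simp, by simp⟩
  | cons a s ha hs ih =>
    obtain ⟨m, hm, hmax⟩ := ih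
    rcases Lt.total a m with h | h | h
    · refine ⟨m, by simp [hm], fun w hw => ?_⟩
      rcases Finset.mem_cons.1 hw with rfl | hw
      · exact Or.inr h
      · exact hmax w hw
    · subst h
      exact absurd hm ha
    · refine ⟨a, by simp, fun w hw => ?_⟩
      rcases Finset.mem_cons.1 hw with rfl | hw
      · exact Or.inl rfl
      · rcases hmax w hw with rfl | h'
        · exact Or.inr h
        · exact Or.inr (h'.trans h)

end Pool.Agent.Lib.MP_d42654_co
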