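import Mathlib
import Pool.Agent.Lib.MP_d42654_co.Families

set_option autoImplicit false

open Finset

namespace Pool.Agent.MP_d42654_co

/-- greedy basis count -/
lemma greedy {K V ι κ L : Type*} [Field K] [AddCommGroup V] [Module K V] [Fintype ι]
    [LinearOrder L] [Fintype κ] (f : ι → L) (hf : Function.Injective f)
    (e : ι → V) (he : LinearIndependent K e) (w : κ → V) (hw : LinearIndependent K w)
    (hsub : ∀ k, w k ∈ Submodule.span K (Set.range e))
    (O : Finset ι) (hO : ∀ i, i ∈ O ↔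
      e i ∉ Submodule.span K (Set.range w) ⊔ Submodule.span K (e '' {j | f j < f i})) :
    O.card + Fintype.card κ = Fintype.card ι := by
  classical
  set W := Submodule.span K (Set.range w) with hW
  set E := Submodule.span K (e '' (O : Set ι)) with hE
  -- spanning
  have h1 : ∀ i, e i ∈ W ⊔ E := by
    have wf : WellFounded (fun i j : ι => f i < f j) :=
      Finite.wellFounded_of_trans_of_irrefl (r := fun i j : ι => f i < f j) |> fun h => h
    intro i
    induction i using wf.induction with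
    | _ i ih =>
      by_cases hi : i ∈ O
      · exact Submodule.mem_sup_right (Submodule.subset_span ⟨i, hi, rfl⟩)
      · rw [hO, not_not] at hi
        have hle : W ⊔ Submodule.span K (e '' {j | f j < f i}) ≤ W ⊔ E := by
          apply sup_le le_sup_left
          rw [Submodule.span_le]
          rintro _ ⟨j, hj, rfl⟩
          exact ih j hj
        exact hle hi
  have h2 : Submodule.span K (Set.range e) = W ⊔ E := by
    apply le_antisymm
    · rw [Submodule.span_le]
      rintro _ ⟨i, rfl⟩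
      exact h1 i
    · apply sup_le
      · rw [hW, Submodule.span_le]
        rintro _ ⟨k, rfl⟩
        exact hsub k
      · rw [hE]
        apply Submodule.span_mono
        rintro _ ⟨i, _, rfl⟩
        exact ⟨i, rfl⟩
  have h3 : W ⊓ E = ⊥ := by
    rw [Submodule.eq_bot_iff]
    rintro x ⟨hxW, hxE⟩
    rw [SetLike.mem_coe, hE, Finsupp.mem_span_image_iff_linearCombination] at hxE
    obtain ⟨l, hl, rfl⟩ := hxE
    by_contra hne
    have hl0 : l.support.Nonempty := by
      rw [Finset.nonempty_iff_ne_empty]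
      intro h
      apply hne
      rw [Finsupp.support_eq_empty.mp h, map_zero]
    obtain ⟨i, hi, hmax⟩ := Finset.exists_max_image l.support f hl0
    have hiO : i ∈ O := hl hi
    rw [hO] at hiO
    apply hiO
    have hli : l i ≠ 0 := Finsupp.mem_support_iff.mp hi
    have hsum : l i • e i = Finsupp.linearCombination K e l -
        ∑ j ∈ l.support.erase i, l j • e j := by
      rw [Finsupp.linearCombination_apply, Finsupp.sum, ← Finset.add_sum_erase _ _ hi]
      abel
    have hmem : l i • e i ∈ W ⊔ Submodule.span K (e '' {j | f j < f i}) := by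
      rw [hsum]
      apply Submodule.sub_mem
      · exact Submodule.mem_sup_left hxW
      · apply Submodule.mem_sup_right
        apply Submodule.sum_mem
        intro j hj
        apply Submodule.smul_mem
        apply Submodule.subset_span
        refine ⟨j, ?_, rfl⟩
        rw [Finset.mem_erase] at hj
        exact lt_of_le_of_ne (hmax j hj.2) (fun h => hj.1 (hf h))
    exact (Submodule.smul_mem_iff _ hli).mp hmem
  have : FiniteDimensional K W := FiniteDimensional.span_of_finite K (Set.finite_range w)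
  have : FiniteDimensional K E := FiniteDimensional.span_of_finite K (Set.toFinite _)
  have h4 := Submodule.finrank_sup_add_finrank_inf_eq W E
  rw [h3, finrank_bot, ← h2, finrank_span_eq_card he, finrank_span_eq_card hw] at h4
  have h5 : Module.finrank K E = O.card := by
    have : E = Submodule.span K (Set.range (fun i : O => e i.1)) := by
      rw [hE]; congr 1
      ext x; simp
    have h6 : LinearIndependent K (fun i : O => e i.1) :=
      he.comp (fun i : O => i.1) Subtype.val_injective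
    rw [this, finrank_span_eq_card h6]
    simp
  omega

section closure

variable {n : ℕ} (a : Fin n → ℕ)

/-- span of the lower products -/
noncomputable def PP (U : Finset (Fin n → ℕ)) (q : ℕ) : Submodule (RA a) (MvPolynomial (Fin n) (RA a)) :=
  Submodule.span (RA a) (pp a '' {α | ∑ i, α i = q ∧ α ∉ U})

lemma sum_add_single (α : Fin n → ℕ) (i : Fin n) :
    ∑ j, (α + (Pi.single i 1 : Fin n → ℕ)) j = ∑ j, α j + 1 := by
  simp [Finset.sum_add_distrib]

lemma PP_X_mul (U : Finset (Fin n → ℕ)) (hU : ∀ α ∈ U, ∀ β ≤ α, β ∈ U) (q : ℕ) (k : Fin n)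
    (x : MvPolynomial (Fin n) (RA a)) (hx : x ∈ PP a U q) : MvPolynomial.X k * x ∈ PP a U (q + 1) := by
  rw [PP] at hx
  induction hx using Submodule.span_induction with
  | mem x hx =>
    obtain ⟨α, ⟨hα1, hα2⟩, rfl⟩ := hx
    obtain ⟨c, hc⟩ := X_mem_span a α k
    rw [hc, Finset.sum_mul]
    apply Submodule.sum_mem
    intro i _
    rw [mul_assoc, ← MvPolynomial.smul_eq_C_mul]
    apply Submodule.smul_mem
    rw [mul_comm, ← pp_succ]
    apply Submodule.subset_span
    refine ⟨_, ⟨?_, ?_⟩, rfl⟩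
    · rw [sum_add_single, hα1]
    · intro h
      exact hα2 (hU _ h _ (by intro j; simp))
  | zero => rw [mul_zero]; exact Submodule.zero_mem _
  | add x y _ _ hx hy => rw [mul_add]; exact Submodule.add_mem _ hx hy
  | smul r x _ hx => rw [mul_smul_comm]; exact Submodule.smul_mem _ _ hx

lemma PP_LF_mul (U : Finset (Fin n → ℕ)) (hU : ∀ α ∈ U, ∀ β ≤ α, β ∈ U) (q : ℕ) (i : Fin n) (j : ℕ)
    (x : MvPolynomial (Fin n) (RA a)) (hx : x ∈ PP a U q) : LF a i j * x ∈ PP a U (q + 1) := by
  obtain ⟨c, hc⟩ := LF_eq_sum a i j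
  rw [hc, Finset.sum_mul]
  apply Submodule.sum_mem
  intro k _
  rw [mul_assoc, ← MvPolynomial.smul_eq_C_mul]
  exact Submodule.smul_mem _ _ (PP_X_mul a U hU q k x hx)

lemma PP_prod_mul (U : Finset (Fin n → ℕ)) (hU : ∀ α ∈ U, ∀ β ≤ α, β ∈ U) (g : Fin n → ℕ → ℕ)
    (γ : Fin n → ℕ) (S : Finset (Fin n)) (q : ℕ) (x : MvPolynomial (Fin n) (RA a))
    (hx : x ∈ PP a U q) :
    (∏ i ∈ S, ∏ j ∈ range (γ i), LF a i (g i j)) * x ∈ PP a U (q + ∑ i ∈ S, γ i) := by
  classical
  induction S using Finset.induction_on with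
  | empty => simpa using hx
  | insert i S hi ih =>
    rw [Finset.prod_insert hi, Finset.sum_insert hi, mul_assoc]
    have key : ∀ m, (∏ j ∈ range m, LF a i (g i j)) *
        ((∏ i ∈ S, ∏ j ∈ range (γ i), LF a i (g i j)) * x) ∈ PP a U (q + (m + ∑ i ∈ S, γ i)) := by
      intro m
      induction m with
      | zero => simpa using ih
      | succ m ihm =>
        rw [Finset.prod_range_succ, mul_comm (∏ x ∈ range m, LF a i (g i x)), mul_assoc]
        have := PP_LF_mul a U hU _ i (g i m) _ ihm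
        convert this using 2
        ring
    exact key (γ i)

lemma pq_mem_PP (U : Finset (Fin n → ℕ)) (hU : ∀ α ∈ U, ∀ β ≤ α, β ∈ U)
    (hUa : ∀ α ∈ U, α ≤ a) (γ : Fin n → ℕ) (i : Fin n) (h : γ i = a i + 1) :
    pq a γ ∈ PP a U (∑ j, γ j) := by
  classical
  rw [pq, ← Finset.mul_prod_erase univ _ (Finset.mem_univ i), h, mul_comm]
  have h1 : ∏ j ∈ range (a i + 1), LF a i (a i - j) = pp a (Pi.single i (a i + 1)) := by
    have := upper_prod a i 0 (a i + 1) (by omega)
    rw [Finset.range_zero, Finset.prod_empty, one_mul] at this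
    rw [← this, pp, Finset.prod_eq_single i]
    · simp
    · intro j _ hj
      simp [Pi.single_eq_of_ne hj]
    · intro h; exact absurd (Finset.mem_univ _) h
  rw [h1]
  have h2 : pp a (Pi.single i (a i + 1)) ∈ PP a U (a i + 1) := by
    apply Submodule.subset_span
    refine ⟨_, ⟨by simp, ?_⟩, rfl⟩
    intro hmem
    have := hUa _ hmem i
    simp at this
  have := PP_prod_mul a U hU (fun i j => a i - j) γ (univ.erase i) _ _ h2
  convert this using 2
  rw [← h, Finset.add_sum_erase univ γ (Finset.mem_univ i)]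

/-- span of the combined family -/
noncomputable def WW (U : Finset (Fin n → ℕ)) (q : ℕ) : Submodule (RA a) (MvPolynomial (Fin n) (RA a)) :=
  Submodule.span (RA a) (Set.range (fam a U q))

lemma PP_le_WW (U : Finset (Fin n → ℕ)) (q : ℕ) : PP a U q ≤ WW a U q := by
  rw [PP, WW]
  apply Submodule.span_mono
  rintro _ ⟨α, ⟨h1, h2⟩, rfl⟩
  exact ⟨Sum.inl ⟨α, (mem_IA U q α).mpr ⟨h1, h2⟩⟩, rfl⟩

lemma fam_X_mul (U : Finset (Fin n → ℕ)) (hU : ∀ α ∈ U, ∀ β ≤ α, β ∈ U)
    (hUa : ∀ α ∈ U, α ≤ a) (q : ℕ) (k : Fin n) (s : (IA U q) ⊕ (IB a U q)) :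
    MvPolynomial.X k * fam a U q s ∈ WW a U (q + 1) := by
  classical
  rcases s with α | β
  · apply PP_le_WW
    apply PP_X_mul a U hU
    apply Submodule.subset_span
    exact ⟨α.1, (mem_IA U q α.1).mp α.2, rfl⟩
  · have hβ := (mem_IB a U q β.1).mp β.2
    obtain ⟨c, hc⟩ := X_mem_span a (a - β.1) k
    change MvPolynomial.X k * pq a β.1 ∈ _
    rw [hc, Finset.sum_mul]
    apply Submodule.sum_mem
    intro i _
    rw [mul_assoc, ← MvPolynomial.smul_eq_C_mul]
    apply Submodule.smul_mem
    have h1 : LF a i ((a - β.1) i) * pq a β.1 = pq a (β.1 + (Pi.single i 1 : Fin n → ℕ)) := by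
      rw [pq_succ, mul_comm]; rfl
    rw [h1]
    have h9 : β.1 i ≤ a i := hβ.2.1 i
    by_cases hi : β.1 i = a i
    · apply PP_le_WW
      have h2 := pq_mem_PP a U hU hUa (β.1 + (Pi.single i 1 : Fin n → ℕ)) i (by simp [hi])
      rwa [sum_add_single, hβ.1] at h2
    · apply Submodule.subset_span
      refine ⟨Sum.inr ⟨β.1 + (Pi.single i 1 : Fin n → ℕ), (mem_IB a U _ _).mpr ⟨?_, ?_, ?_⟩⟩, rfl⟩
      · rw [sum_add_single, hβ.1]
      · intro j
        by_cases hj : j = i
        · subst hj; simp; omega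
        · simp [Pi.single_eq_of_ne hj]; exact hβ.2.1 j
      · apply hU _ hβ.2.2
        intro j
        simp only [Pi.sub_apply, Pi.add_apply]
        omega

instance : IsDomain (RA a) := NoZeroDivisors.to_isDomain _

/-- fraction field of the parameter ring -/
abbrev KK (a : Fin n → ℕ) := FractionRing (RA a)

/-- base change -/
noncomputable def bc (a : Fin n → ℕ) :
    MvPolynomial (Fin n) (RA a) →ₐ[RA a] MvPolynomial (Fin n) (KK a) :=
  MvPolynomial.mapAlgHom (Algebra.ofId (RA a) (KK a))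

lemma bc_inj : Function.Injective (bc a) := by
  have h : Function.Injective (MvPolynomial.map (σ := Fin n) (algebraMap (RA a) (KK a))) :=
    MvPolynomial.map_injective _ (IsFractionRing.injective (RA a) (KK a))
  exact h

lemma bc_X (k : Fin n) : bc a (MvPolynomial.X k) = MvPolynomial.X k := by
  simp [bc]

lemma famK_li (U : Finset (Fin n → ℕ)) (hU : ∀ α ∈ U, ∀ β ≤ α, β ∈ U) (q : ℕ)
    (hq : 2 * q ≤ ∑ i, a i) : LinearIndependent (KK a) (fun s => bc a (fam a U q s)) := by
  rw [← LinearIndependent.iff_fractionRing (R := RA a) (K := KK a)]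
  have := (fam_li a U hU q hq).map' (bc a).toLinearMap (LinearMap.ker_eq_bot.mpr (bc_inj a))
  exact this

/-- base-changed span -/
noncomputable def WK (U : Finset (Fin n → ℕ)) (q : ℕ) :
    Submodule (KK a) (MvPolynomial (Fin n) (KK a)) :=
  Submodule.span (KK a) (Set.range (fun s => bc a (fam a U q s)))

lemma bc_mem_WK (U : Finset (Fin n → ℕ)) (q : ℕ) (x : MvPolynomial (Fin n) (RA a))
    (hx : x ∈ WW a U q) : bc a x ∈ WK a U q := by
  rw [WW] at hx
  induction hx using Submodule.span_induction with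
  | mem x hx =>
    obtain ⟨s, rfl⟩ := hx
    exact Submodule.subset_span ⟨s, rfl⟩
  | zero => rw [map_zero]; exact Submodule.zero_mem _
  | add x y _ _ hx hy => rw [map_add]; exact Submodule.add_mem _ hx hy
  | smul r x _ hx =>
    rw [map_smul, ← algebraMap_smul (KK a) r]
    exact Submodule.smul_mem _ _ hx

lemma WK_X_mul (U : Finset (Fin n → ℕ)) (hU : ∀ α ∈ U, ∀ β ≤ α, β ∈ U)
    (hUa : ∀ α ∈ U, α ≤ a) (q : ℕ) (k : Fin n) (x : MvPolynomial (Fin n) (KK a))
    (hx : x ∈ WK a U q) : MvPolynomial.X k * x ∈ WK a U (q + 1) := by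
  rw [WK] at hx
  induction hx using Submodule.span_induction with
  | mem x hx =>
    obtain ⟨s, rfl⟩ := hx
    have := bc_mem_WK a U (q + 1) _ (fam_X_mul a U hU hUa q k s)
    rwa [map_mul, bc_X] at this
  | zero => rw [mul_zero]; exact Submodule.zero_mem _
  | add x y _ _ hx hy => rw [mul_add]; exact Submodule.add_mem _ hx hy
  | smul r x _ hx => rw [mul_smul_comm]; exact Submodule.smul_mem _ _ hx

/-- the order ideal, as a predicate -/
def OP (U : Finset (Fin n → ℕ)) (γ : Fin n → ℕ) : Prop :=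
  mon (KK a) γ ∉ WK a U (∑ i, γ i) ⊔
    Submodule.span (KK a) (mon (KK a) '' {δ | ∑ i, δ i = ∑ i, γ i ∧ toLex δ < toLex γ})

lemma mon_add_single {A : Type*} [CommSemiring A] (γ : Fin n → ℕ) (k : Fin n) :
    mon A (γ + (Pi.single k 1 : Fin n → ℕ)) = MvPolynomial.X k * mon A γ := by
  classical
  simp only [mon, Pi.add_apply, pow_add, Finset.prod_mul_distrib]
  rw [mul_comm]
  congr 1
  rw [Finset.prod_eq_single k]
  · simp
  · intro j _ hj; simp [Pi.single_eq_of_ne hj]
  · intro h; exact absurd (Finset.mem_univ _) h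

lemma lex_add_single (δ γ : Fin n → ℕ) (k : Fin n) (h : toLex δ < toLex γ) :
    toLex (δ + (Pi.single k 1 : Fin n → ℕ)) < toLex (γ + (Pi.single k 1 : Fin n → ℕ)) := by
  obtain ⟨i, h1, h2⟩ := h
  refine ⟨i, fun j hj => ?_, ?_⟩
  · have := h1 j hj
    simp only [Pi.toLex_apply, Pi.add_apply] at this ⊢
    rw [this]
  · simp only [Pi.toLex_apply, Pi.add_apply] at h2 ⊢
    omega

lemma OP_down (U : Finset (Fin n → ℕ)) (hU : ∀ α ∈ U, ∀ β ≤ α, β ∈ U)
    (hUa : ∀ α ∈ U, α ≤ a) (γ : Fin n → ℕ) (k : Fin n)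
    (h : OP a U (γ + (Pi.single k 1 : Fin n → ℕ))) : OP a U γ := by
  intro hcon
  apply h
  rw [mon_add_single, sum_add_single]
  obtain ⟨x, hx, y, hy, hxy⟩ := Submodule.mem_sup.mp hcon
  rw [← hxy, mul_add]
  apply Submodule.add_mem
  · exact Submodule.mem_sup_left (WK_X_mul a U hU hUa _ k x hx)
  · apply Submodule.mem_sup_right
    clear hxy hcon h
    induction hy using Submodule.span_induction with
    | mem y hy =>
      obtain ⟨δ, ⟨h1, h2⟩, rfl⟩ := hy
      apply Submodule.subset_span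
      refine ⟨δ + (Pi.single k 1 : Fin n → ℕ), ⟨?_, lex_add_single _ _ _ h2⟩, mon_add_single _ _⟩
      rw [sum_add_single, h1]
    | zero => rw [mul_zero]; exact Submodule.zero_mem _
    | add x y _ _ hx hy => rw [mul_add]; exact Submodule.add_mem _ hx hy
    | smul r x _ hx => rw [mul_smul_comm]; exact Submodule.smul_mem _ _ hx

lemma OP_le (U : Finset (Fin n → ℕ)) (hU : ∀ α ∈ U, ∀ β ≤ α, β ∈ U)
    (hUa : ∀ α ∈ U, α ≤ a) (γ β : Fin n → ℕ) (hβ : β ≤ γ) (h : OP a U γ) : OP a U β := by
  classical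
  have key : ∀ r : ℕ, ∀ γ : Fin n → ℕ, β ≤ γ → ∑ i, γ i = ∑ i, β i + r → OP a U γ → OP a U β := by
    intro r
    induction r with
    | zero =>
      intro γ hβ hs h
      have : β = γ := by
        funext i
        exact (Finset.sum_eq_sum_iff_of_le (fun i _ => hβ i)).mp (by omega) i (Finset.mem_univ i)
      rw [this]; exact h
    | succ r ih =>
      intro γ hβ hs h
      have : ∃ i, β i < γ i := by
        by_contra hcon
        have hcon' : ∀ i, γ i ≤ β i := fun i => not_lt.mp (fun hh => hcon ⟨i, hh⟩)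
        have := Finset.sum_le_sum (fun i (_ : i ∈ univ) => hcon' i)
        omega
      obtain ⟨i, hi⟩ := this
      have h1 : γ = (γ - (Pi.single i 1 : Fin n → ℕ)) + (Pi.single i 1 : Fin n → ℕ) := by
        funext j
        by_cases hj : j = i
        · subst hj; simp; omega
        · simp [Pi.single_eq_of_ne hj]
      apply ih (γ - (Pi.single i 1 : Fin n → ℕ))
      · intro j
        have hj' : β j ≤ γ j := hβ j
        by_cases hj : j = i
        · subst hj; simp; omega
        · simp [Pi.single_eq_of_ne hj]; exact hj'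
      · have := sum_add_single (γ - (Pi.single i 1 : Fin n → ℕ)) i
        rw [← h1] at this
        omega
      · rw [h1] at h
        exact OP_down a U hU hUa _ i h
  have hle : ∑ i, β i ≤ ∑ i, γ i := Finset.sum_le_sum (fun i _ => hβ i)
  exact key (∑ i, γ i - ∑ i, β i) γ hβ (by omega) h

lemma mon_span_homog {A : Type*} [CommSemiring A] (p : MvPolynomial (Fin n) A) (q : ℕ)
    (hp : p.IsHomogeneous q) :
    p ∈ Submodule.span A (mon A '' {γ | ∑ i, γ i = q}) := by
  rw [p.as_sum]
  apply Submodule.sum_mem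
  intro v hv
  have h2 : (MvPolynomial.monomial v) (MvPolynomial.coeff v p) =
      MvPolynomial.coeff v p • (MvPolynomial.monomial v (1 : A)) := by
    rw [MvPolynomial.smul_monomial, smul_eq_mul, mul_one]
  rw [h2]
  apply Submodule.smul_mem
  apply Submodule.subset_span
  refine ⟨v, ?_, ?_⟩
  · have := hp (MvPolynomial.mem_support_iff.mp hv)
    rw [Set.mem_ofPred_eq, ← this, Finsupp.weight_apply, Finsupp.sum_fintype _ _ (by intro i; simp)]
    simp
  · rw [mon_eq, Finsupp.equivFunOnFinite_symm_coe]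

lemma fam_homog (U : Finset (Fin n → ℕ)) (q : ℕ) (s : (IA U q) ⊕ (IB a U q)) :
    (fam a U q s).IsHomogeneous q := by
  rcases s with α | β
  · have h := pp_homog a α.1
    rw [((mem_IA U q α.1).mp α.2).1] at h
    exact h
  · have h := pq_homog a β.1
    rw [((mem_IB a U q β.1).mp β.2).1] at h
    exact h

lemma OP_count (U : Finset (Fin n → ℕ)) (hU : ∀ α ∈ U, ∀ β ≤ α, β ∈ U)
    (hUa : ∀ α ∈ U, α ≤ a) (q : ℕ) (hq : 2 * q ≤ ∑ i, a i)
    (O : Finset (Fin n → ℕ)) (hO : ∀ γ, γ ∈ O ↔ ∑ i, γ i = q ∧ OP a U γ) :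
    O.card + (U.filter (fun α => ∑ i, α i = (∑ i, a i) - q)).card =
      (U.filter (fun α => ∑ i, α i = q)).card := by
  classical
  set D : Finset (Fin n → ℕ) := Finset.piAntidiag univ q with hD
  have hmemD : ∀ γ, γ ∈ D ↔ ∑ i, γ i = q := by
    intro γ; rw [hD, Finset.mem_piAntidiag]; simp
  have hOD : O ⊆ D := by
    intro γ hγ; rw [hmemD]; exact ((hO γ).mp hγ).1
  let e : D → MvPolynomial (Fin n) (KK a) := fun γ => mon (KK a) γ.1
  have he : LinearIndependent (KK a) e :=
    (mon_linearIndependent (KK a)).comp (fun γ : D => γ.1) Subtype.val_injective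
  have hrange : ∀ s : Set (Fin n → ℕ), (∀ γ ∈ s, γ ∈ D) →
      e '' {γ | γ.1 ∈ s} = mon (KK a) '' s := by
    intro s hs
    ext x
    constructor
    · rintro ⟨γ, hγ, rfl⟩; exact ⟨γ.1, hγ, rfl⟩
    · rintro ⟨γ, hγ, rfl⟩; exact ⟨⟨γ, hs γ hγ⟩, hγ, rfl⟩
  have hg := greedy (K := KK a) (L := Lex (Fin n → ℕ)) (fun γ : D => toLex γ.1)
    (by intro γ γ' h; exact Subtype.ext (toLex.injective h)) e he
    (fun s => bc a (fam a U q s)) (famK_li a U hU q hq) (by
      intro s
      have h1 : (bc a (fam a U q s)).IsHomogeneous q := by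
        exact (fam_homog a U q s).map _
      have h2 := mon_span_homog _ q h1
      have h3 : mon (KK a) '' {γ | ∑ i, γ i = q} = Set.range e := by
        rw [← hrange {γ | ∑ i, γ i = q} (fun γ hγ => (hmemD γ).mpr hγ), ← Set.image_univ]
        congr 1
        ext γ
        simp [(hmemD γ.1).mp γ.2]
      rwa [h3] at h2)
    (univ.filter (fun γ : D => γ.1 ∈ O)) (by
      intro γ
      rw [Finset.mem_filter, hO, OP]
      have hγ := (hmemD γ.1).mp γ.2
      have h4 : e '' {j | toLex j.1 < toLex γ.1} =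
          mon (KK a) '' {δ | ∑ i, δ i = ∑ i, γ.1 i ∧ toLex δ < toLex γ.1} := by
        rw [← hrange {δ | ∑ i, δ i = ∑ i, γ.1 i ∧ toLex δ < toLex γ.1}
          (fun δ hδ => (hmemD δ).mpr (hδ.1.trans hγ))]
        congr 1
        ext δ
        simp [(hmemD δ.1).mp δ.2, hγ]
      have h6 : (Submodule.span (KK a) (Set.range fun s => bc a (fam a U q s)) ⊔
          Submodule.span (KK a) (e '' {j : D | toLex j.1 < toLex γ.1})) =
          WK a U (∑ i, γ.1 i) ⊔ Submodule.span (KK a)
            (mon (KK a) '' {δ | ∑ i, δ i = ∑ i, γ.1 i ∧ toLex δ < toLex γ.1}) := by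
        rw [h4, hγ]; rfl
      constructor
      · rintro ⟨_, _, h⟩ hcon
        apply h
        rw [← h6]
        exact hcon
      · intro h
        refine ⟨Finset.mem_univ _, hγ, ?_⟩
        rw [← h6]
        exact h)
  have hcO : (univ.filter (fun γ : D => γ.1 ∈ O)).card = O.card := by
    apply Finset.card_bij (fun γ _ => γ.1)
    · intro γ hγ; simpa using hγ
    · intro γ _ γ' _ h; exact Subtype.ext h
    · intro γ hγ; exact ⟨⟨γ, hOD hγ⟩, by simpa using hγ, rfl⟩
  rw [hcO, Fintype.card_sum, Fintype.card_coe, Fintype.card_coe, Fintype.card_coe] at hg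
  have hA : (IA U q).card + (U.filter (fun α => ∑ i, α i = q)).card = D.card := by
    have h1 : IA U q = D.filter (fun α => α ∉ U) := rfl
    have h2 : U.filter (fun α => ∑ i, α i = q) = D.filter (fun α => α ∈ U) := by
      ext α; rw [Finset.mem_filter, Finset.mem_filter, hmemD]; tauto
    rw [h1, h2, add_comm]
    exact Finset.card_filter_add_card_filter_not _
  have hB : (IB a U q).card = (U.filter (fun α => ∑ i, α i = (∑ i, a i) - q)).card := by
    have hsub : ∀ β : Fin n → ℕ, β ≤ a → ∑ i, (a - β) i + ∑ i, β i = ∑ i, a i := by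
      intro β hβ
      rw [← Finset.sum_add_distrib]
      apply Finset.sum_congr rfl
      intro i _
      have h9 : β i ≤ a i := hβ i
      simp only [Pi.sub_apply]; omega
    have hinv : ∀ β : Fin n → ℕ, β ≤ a → a - (a - β) = β := by
      intro β hβ
      funext i
      have h9 : β i ≤ a i := hβ i
      simp only [Pi.sub_apply]; omega
    apply Finset.card_bij (fun β _ => a - β)
    · intro β hβ
      have hβ := (mem_IB a U q β).mp hβ
      rw [Finset.mem_filter]
      refine ⟨hβ.2.2, ?_⟩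
      have := hsub β hβ.2.1
      omega
    · intro β hβ β' hβ' h
      have hβ := (mem_IB a U q β).mp hβ
      have hβ' := (mem_IB a U q β').mp hβ'
      rw [← hinv β hβ.2.1, ← hinv β' hβ'.2.1, h]
    · intro α hα
      rw [Finset.mem_filter] at hα
      have hαa := hUa α hα.1
      refine ⟨a - α, (mem_IB a U q _).mpr ⟨?_, ?_, ?_⟩, hinv α hαa⟩
      · have := hsub α hαa
        omega
      · intro i; simp
      · rw [hinv α hαa]; exact hα.1
  omega

/-- the step lemma -/
theorem step (U : Finset (Fin n → ℕ)) (hU : ∀ α ∈ U, ∀ β ≤ α, β ∈ U)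
    (hUa : ∀ α ∈ U, α ≤ a) :
    ∃ O : Finset (Fin n → ℕ), (∀ α ∈ O, ∀ β ≤ α, β ∈ O) ∧
      ∀ q, 2 * q + 1 ≤ ∑ i, a i →
        (O.filter (fun α => ∑ i, α i = q)).card +
          (U.filter (fun α => ∑ i, α i = (∑ i, a i) - q)).card =
        (U.filter (fun α => ∑ i, α i = q)).card := by
  classical
  let O : Finset (Fin n → ℕ) :=
    ((range (∑ i, a i)).biUnion (fun q => Finset.piAntidiag univ q)).filter
      (fun γ => 2 * (∑ i, γ i) + 1 ≤ ∑ i, a i ∧ OP a U γ)
  have hO : ∀ γ, γ ∈ O ↔ 2 * (∑ i, γ i) + 1 ≤ ∑ i, a i ∧ OP a U γ := by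
    intro γ
    simp only [O, Finset.mem_filter, Finset.mem_biUnion, Finset.mem_range, Finset.mem_piAntidiag]
    constructor
    · rintro ⟨_, h⟩; exact h
    · intro h
      exact ⟨⟨∑ i, γ i, by omega, rfl, by simp⟩, h⟩
  refine ⟨O, ?_, ?_⟩
  · intro α hα β hβ
    rw [hO] at hα ⊢
    have hle : ∑ i, β i ≤ ∑ i, α i := Finset.sum_le_sum (fun i _ => hβ i)
    exact ⟨by omega, OP_le a U hU hUa α β hβ hα.2⟩
  · intro q hq
    apply OP_count a U hU hUa q (by omega)
    intro γ
    rw [Finset.mem_filter, hO]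
    constructor
    · rintro ⟨⟨_, h1⟩, h2⟩; exact ⟨h2, h1⟩
    · rintro ⟨h1, h2⟩; exact ⟨⟨by omega, h2⟩, h1⟩

end closure

end Pool.Agent.MP_d42654_co
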