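import Mathlib
import Pool.Agent.Lib.MP_d42654_co.Step

set_option autoImplicit false

open Finset

namespace Pool.Agent.MP_d42654_co

variable {n : ℕ}

/-- number of elements of degree `q` -/
def cnt (P : Finset (Fin n → ℕ)) (q : ℕ) : ℕ := (P.filter (fun α => ∑ i, α i = q)).card

lemma cnt_union_inter (P Q : Finset (Fin n → ℕ)) (q : ℕ) :
    cnt (P ∪ Q) q + cnt (P ∩ Q) q = cnt P q + cnt Q q := by
  classical
  unfold cnt
  rw [Finset.filter_union, Finset.filter_inter_distrib, Finset.card_union_add_card_inter]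

lemma cnt_Iic_symm (m : Fin n → ℕ) (q : ℕ) (hq : q ≤ ∑ i, m i) :
    cnt (Finset.Iic m) (∑ i, m i - q) = cnt (Finset.Iic m) q := by
  classical
  have hsub : ∀ β : Fin n → ℕ, β ≤ m → ∑ i, (m - β) i + ∑ i, β i = ∑ i, m i := by
    intro β hβ
    rw [← Finset.sum_add_distrib]
    apply Finset.sum_congr rfl
    intro i _
    have h9 : β i ≤ m i := hβ i
    simp only [Pi.sub_apply]; omega
  have hinv : ∀ β : Fin n → ℕ, β ≤ m → m - (m - β) = β := by
    intro β hβ
    funext i
    have h9 : β i ≤ m i := hβ i
    simp only [Pi.sub_apply]; omega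
  unfold cnt
  apply Finset.card_bij (fun β _ => m - β)
  · intro β hβ
    rw [Finset.mem_filter, Finset.mem_Iic] at hβ ⊢
    refine ⟨fun i => by simp, ?_⟩
    have := hsub β hβ.1
    omega
  · intro β hβ β' hβ' h
    rw [Finset.mem_filter, Finset.mem_Iic] at hβ hβ'
    rw [← hinv β hβ.1, ← hinv β' hβ'.1, h]
  · intro β hβ
    rw [Finset.mem_filter, Finset.mem_Iic] at hβ
    refine ⟨m - β, ?_, hinv β hβ.1⟩
    rw [Finset.mem_filter, Finset.mem_Iic]
    refine ⟨fun i => by simp, ?_⟩
    have := hsub β hβ.1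
    omega

/-- order ideal -/
def Down (P : Finset (Fin n → ℕ)) : Prop := ∀ α ∈ P, ∀ β ≤ α, β ∈ P

theorem pure_sum (d : ℕ) (hd : 1 ≤ d) (M : Finset (Fin n → ℕ)) (hM : ∀ m ∈ M, ∑ i, m i = d) :
    ∃ L : List (Finset (Fin n → ℕ)), (∀ O ∈ L, O.Nonempty ∧ Down O) ∧
      ∀ q, 2 * q + 1 ≤ d → cnt (M.biUnion Finset.Iic) (d - q) =
        cnt (M.biUnion Finset.Iic) q + (L.map (fun O => cnt O q)).sum := by
  classical
  induction M using Finset.induction_on with
  | empty => exact ⟨[], by simp, by intro q _; simp [cnt]⟩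
  | insert m M hm ih =>
    obtain ⟨L, hL1, hL2⟩ := ih (fun m' hm' => hM m' (Finset.mem_insert_of_mem hm'))
    have hmd : ∑ i, m i = d := hM m (Finset.mem_insert_self _ _)
    set P := M.biUnion Finset.Iic with hP
    have hmP : m ∉ P := by
      intro h
      rw [hP, Finset.mem_biUnion] at h
      obtain ⟨m', hm', hle⟩ := h
      rw [Finset.mem_Iic] at hle
      have h1 := hM m' (Finset.mem_insert_of_mem hm')
      have : m = m' := by
        funext i
        exact (Finset.sum_eq_sum_iff_of_le (fun i _ => hle i)).mp (hmd.trans h1.symm) i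
          (Finset.mem_univ i)
      rw [this] at hm
      exact hm hm'
    rw [Finset.biUnion_insert, ← hP]
    have hPd : Down P := by
      intro α hα β hβ
      rw [hP, Finset.mem_biUnion] at hα ⊢
      obtain ⟨m', hm', hle⟩ := hα
      rw [Finset.mem_Iic] at hle
      exact ⟨m', hm', Finset.mem_Iic.mpr (hβ.trans hle)⟩
    set U := Finset.Iic m ∩ P with hUdef
    have hUd : Down U := by
      intro α hα β hβ
      rw [hUdef, Finset.mem_inter, Finset.mem_Iic] at hα ⊢
      exact ⟨hβ.trans hα.1, hPd α hα.2 β hβ⟩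
    have hUm : ∀ α ∈ U, α ≤ m := by
      intro α hα
      rw [hUdef, Finset.mem_inter, Finset.mem_Iic] at hα
      exact hα.1
    have hmU : m ∉ U := by
      intro h
      rw [hUdef, Finset.mem_inter] at h
      exact hmP h.2
    have hUdeg : cnt U d = 0 := by
      unfold cnt
      rw [Finset.card_eq_zero, Finset.filter_eq_empty_iff]
      intro α hα hs
      apply hmU
      have : α = m := by
        funext i
        exact (Finset.sum_eq_sum_iff_of_le (fun i _ => hUm α hα i)).mp (hs.trans hmd.symm) i
          (Finset.mem_univ i)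
      rwa [← this]
    obtain ⟨O, hO1, hO2⟩ := step m U hUd hUm
    rw [hmd] at hO2
    have hO2' : ∀ q, 2 * q + 1 ≤ d → cnt O q + cnt U (d - q) = cnt U q := hO2
    by_cases hUne : U.Nonempty
    · refine ⟨O :: L, ?_, ?_⟩
      · intro O' hO'
        rw [List.mem_cons] at hO'
        rcases hO' with rfl | h
        · refine ⟨?_, hO1⟩
          have h0 := hO2' 0 (by omega)
          rw [Nat.sub_zero, hUdeg] at h0
          have h1 : 0 < cnt U 0 := by
            obtain ⟨α, hα⟩ := hUne
            unfold cnt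
            rw [Finset.card_pos]
            refine ⟨0, ?_⟩
            rw [Finset.mem_filter]
            refine ⟨hUd α hα 0 (fun i => Nat.zero_le _), by simp⟩
          have h2 : 0 < cnt O' 0 := by omega
          unfold cnt at h2
          rw [Finset.card_pos] at h2
          exact h2.mono (Finset.filter_subset _ _)
        · exact hL1 O' h
      · intro q hq
        have e1 := cnt_union_inter (Finset.Iic m) P (d - q)
        have e2 := cnt_union_inter (Finset.Iic m) P q
        have e3 := cnt_Iic_symm m q (by omega)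
        have e4 := hO2' q hq
        have e5 := hL2 q hq
        rw [hmd] at e3
        rw [← hUdef] at e1 e2
        rw [List.map_cons, List.sum_cons]
        omega
    · refine ⟨L, hL1, ?_⟩
      intro q hq
      have e1 := cnt_union_inter (Finset.Iic m) P (d - q)
      have e2 := cnt_union_inter (Finset.Iic m) P q
      have e3 := cnt_Iic_symm m q (by omega)
      have e5 := hL2 q hq
      rw [hmd] at e3
      rw [Finset.not_nonempty_iff_eq_empty] at hUne
      rw [← hUdef, hUne] at e1 e2
      simp only [cnt, Finset.filter_empty, Finset.card_empty] at e1 e2 e3 e5 ⊢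
      omega

/-- version for pure order ideals -/
theorem pure_sum' (d : ℕ) (hd : 1 ≤ d) (P : Finset (Fin n → ℕ)) (hP : Down P)
    (hmax : ∀ α ∈ P, (∀ i, α + (Pi.single i 1 : Fin n → ℕ) ∉ P) → ∑ i, α i = d) :
    ∃ L : List (Finset (Fin n → ℕ)), (∀ O ∈ L, O.Nonempty ∧ Down O) ∧
      ∀ q, 2 * q + 1 ≤ d → cnt P (d - q) =
        cnt P q + (L.map (fun O => cnt O q)).sum := by
  classical
  have hPM : P = (P.filter (fun α => ∑ i, α i = d)).biUnion Finset.Iic := by
    ext α
    rw [Finset.mem_biUnion]
    constructor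
    · intro hα
      have hne : (P.filter (fun γ => α ≤ γ)).Nonempty := ⟨α, by simp [hα]⟩
      obtain ⟨γ, hγ, hγmax⟩ := Finset.exists_max_image _ (fun γ : Fin n → ℕ => ∑ i, γ i) hne
      rw [Finset.mem_filter] at hγ
      refine ⟨γ, ?_, Finset.mem_Iic.mpr hγ.2⟩
      rw [Finset.mem_filter]
      refine ⟨hγ.1, hmax γ hγ.1 ?_⟩
      intro i hi
      have := hγmax (γ + (Pi.single i 1 : Fin n → ℕ)) (by
        rw [Finset.mem_filter]
        exact ⟨hi, hγ.2.trans (by intro j; simp)⟩)
      rw [sum_add_single] at this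
      omega
    · rintro ⟨γ, hγ, hle⟩
      rw [Finset.mem_filter] at hγ
      exact hP γ hγ.1 α (Finset.mem_Iic.mp hle)
  have := pure_sum d hd (P.filter (fun α => ∑ i, α i = d)) (fun m hm => (Finset.mem_filter.mp hm).2)
  rw [← hPM] at this
  exact this

end Pool.Agent.MP_d42654_co
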