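import Mathlib
import Pool.Agent.Lib.MP_d42654_co.Pure

set_option autoImplicit false

open Finset MvPolynomial

namespace Pool.Agent.Lib.MP_d42654_co.MainAlt

variable {K : Type*} [Field K] {n : ℕ}

/-- `I` is generated by monomials. -/
def IsMonomialIdeal (I : Ideal (MvPolynomial (Fin n) K)) : Prop :=
  ∃ S : Set (Fin n →₀ ℕ), I = Ideal.span ((fun s => monomial s (1 : K)) '' S)

/-- The degree `i` component of the graded algebra `K[x_1,...,x_n] / I`: the image of the forms of
degree `i`. -/
noncomputable def piece (I : Ideal (MvPolynomial (Fin n) K)) (i : ℕ) :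
    Submodule K (MvPolynomial (Fin n) K ⧸ I) :=
  (homogeneousSubmodule (Fin n) K i).map (Ideal.Quotient.mkₐ K I).toLinearMap

/-- The Hilbert function of `K[x_1,...,x_n] / I`. -/
noncomputable def hilb (I : Ideal (MvPolynomial (Fin n) K)) (i : ℕ) : ℕ :=
  Module.finrank K (piece I i)

/-- `K[x_1,...,x_n] / I` is a finite-dimensional level monomial algebra of top degree `d`:
its socle is contained in degree `d`. -/
structure IsLevelMonomial (I : Ideal (MvPolynomial (Fin n) K)) (d : ℕ) : Prop where
  mono : IsMonomialIdeal I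
  fin : Module.Finite K (MvPolynomial (Fin n) K ⧸ I)
  top : piece I d ≠ ⊥
  above : piece I (d + 1) = ⊥
  level : ∀ y : MvPolynomial (Fin n) K ⧸ I,
    (∀ i : Fin n, Ideal.Quotient.mk I (X i) * y = 0) → y ∈ piece I d

/-- `h` is an M-vector: the Hilbert function of a nonzero finite-dimensional quotient of a polynomial
ring over `K` by a monomial ideal. -/
def IsMVector (K : Type*) [Field K] (h : ℕ → ℕ) : Prop :=
  ∃ (m : ℕ) (J : Ideal (MvPolynomial (Fin m) K)), IsMonomialIdeal J ∧ J ≠ ⊤ ∧
    Module.Finite K (MvPolynomial (Fin m) K ⧸ J) ∧ ∀ i, h i = hilb J i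

lemma mem_iff {I : Ideal (MvPolynomial (Fin n) K)} (hI : IsMonomialIdeal I)
    (f : MvPolynomial (Fin n) K) : f ∈ I ↔ ∀ v ∈ f.support, monomial v (1 : K) ∈ I := by
  obtain ⟨S, rfl⟩ := hI
  rw [mem_ideal_span_monomial_image]
  constructor
  · intro h v hv
    rw [mem_ideal_span_monomial_image]
    intro w hw
    have : w = v := by
      by_contra hne
      rw [mem_support_iff, coeff_monomial, if_neg (fun h => hne h.symm)] at hw
      exact hw rfl
    rw [this]
    exact h v hv
  · intro h v hv
    have := h v hv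
    rw [mem_ideal_span_monomial_image] at this
    exact this v (by rw [mem_support_iff, coeff_monomial, if_pos rfl]; exact one_ne_zero)

lemma li_std {I : Ideal (MvPolynomial (Fin n) K)} (hI : IsMonomialIdeal I) :
    LinearIndependent K (fun v : {v : Fin n →₀ ℕ // monomial v (1 : K) ∉ I} =>
      Ideal.Quotient.mk I (monomial v.1 (1 : K))) := by
  classical
  rw [linearIndependent_iff']
  intro s g hg i hi
  by_contra hne
  have h1 : (∑ v ∈ s, monomial v.1 (g v) : MvPolynomial (Fin n) K) ∈ I := by
    rw [← Ideal.Quotient.eq_zero_iff_mem, map_sum, ← hg]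
    apply Finset.sum_congr rfl
    intro v _
    have : monomial v.1 (g v) = g v • monomial v.1 (1 : K) := by
      rw [smul_monomial, smul_eq_mul, mul_one]
    rw [this]
    exact map_smul (Ideal.Quotient.mkₐ K I) _ _
  rw [mem_iff hI] at h1
  apply i.2
  apply h1
  rw [mem_support_iff, coeff_sum, Finset.sum_eq_single i]
  · rw [coeff_monomial, if_pos rfl]; exact hne
  · intro v _ hv
    rw [coeff_monomial, if_neg]
    intro h; exact hv (Subtype.ext h)
  · intro h; exact absurd hi h

lemma piece_eq_span (I : Ideal (MvPolynomial (Fin n) K)) (i : ℕ) :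
    piece I i = Submodule.span K ((fun v => Ideal.Quotient.mk I (monomial v (1 : K))) ''
      {v : Fin n →₀ ℕ | ∑ j, v j = i ∧ monomial v (1 : K) ∉ I}) := by
  apply le_antisymm
  · rintro _ ⟨f, hf, rfl⟩
    have hf' : f.IsHomogeneous i := hf
    rw [f.as_sum, map_sum]
    apply Submodule.sum_mem
    intro v hv
    have : monomial v (coeff v f) = coeff v f • monomial v (1 : K) := by
      rw [smul_monomial, smul_eq_mul, mul_one]
    rw [this, map_smul]
    apply Submodule.smul_mem
    by_cases hI : monomial v (1 : K) ∈ I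
    · have h0 : (Ideal.Quotient.mkₐ K I).toLinearMap (monomial v (1 : K)) = 0 :=
        Ideal.Quotient.eq_zero_iff_mem.mpr hI
      rw [h0]; exact Submodule.zero_mem _
    · apply Submodule.subset_span
      refine ⟨v, ⟨?_, hI⟩, rfl⟩
      have := hf' (mem_support_iff.mp hv)
      rw [← this, Finsupp.weight_apply, Finsupp.sum_fintype _ _ (by intro i; simp)]
      simp
  · rw [Submodule.span_le]
    rintro _ ⟨v, ⟨hv, _⟩, rfl⟩
    refine ⟨monomial v (1 : K), ?_, rfl⟩
    apply isHomogeneous_monomial
    rw [← hv, Finsupp.degree_eq_sum]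

/-- standard exponents -/
def Std (I : Ideal (MvPolynomial (Fin n) K)) : Set (Fin n → ℕ) :=
  {α | monomial (Finsupp.equivFunOnFinite.symm α) (1 : K) ∉ I}

lemma hilb_eq {I : Ideal (MvPolynomial (Fin n) K)} (hI : IsMonomialIdeal I)
    (P : Finset (Fin n → ℕ)) (hP : ∀ α, α ∈ P ↔ α ∈ Std I) (i : ℕ) :
    hilb I i = Pool.Agent.MP_d42654_co.cnt P i := by
  classical
  rw [hilb, piece_eq_span]
  let Q := P.filter (fun α => ∑ j, α j = i)
  have h1 : (fun v => Ideal.Quotient.mk I (monomial v (1 : K))) ''
      {v : Fin n →₀ ℕ | ∑ j, v j = i ∧ monomial v (1 : K) ∉ I} =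
      Set.range (fun α : Q => Ideal.Quotient.mk I
        (monomial (Finsupp.equivFunOnFinite.symm α.1) (1 : K))) := by
    ext x
    constructor
    · rintro ⟨v, ⟨h1, h2⟩, rfl⟩
      refine ⟨⟨v, ?_⟩, ?_⟩
      · simp only [Q, Finset.mem_filter]
        refine ⟨(hP _).mpr ?_, h1⟩
        simpa [Std] using h2
      · simp
    · rintro ⟨α, rfl⟩
      have hα := α.2
      simp only [Q, Finset.mem_filter] at hα
      exact ⟨Finsupp.equivFunOnFinite.symm α.1, ⟨by simpa using hα.2, (hP _).mp hα.1⟩, rfl⟩
  have hli : LinearIndependent K (fun α : Q => Ideal.Quotient.mk I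
        (monomial (Finsupp.equivFunOnFinite.symm α.1) (1 : K))) := by
    have := (li_std hI).comp (fun α : Q => (⟨Finsupp.equivFunOnFinite.symm α.1, by
      have hα := α.2
      simp only [Q, Finset.mem_filter] at hα
      exact (hP _).mp hα.1⟩ : {v : Fin n →₀ ℕ // monomial v (1 : K) ∉ I})) (by
      intro α β h
      apply Subtype.ext
      exact Finsupp.equivFunOnFinite.symm.injective (congrArg Subtype.val h))
    exact this
  rw [h1, finrank_span_eq_card hli, Fintype.card_coe]
  rfl

lemma std_finite {I : Ideal (MvPolynomial (Fin n) K)} (hI : IsMonomialIdeal I)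
    [Module.Finite K (MvPolynomial (Fin n) K ⧸ I)] : (Std I).Finite := by
  have h1 : Finite {v : Fin n →₀ ℕ // monomial v (1 : K) ∉ I} := by
    by_contra hinf
    rw [not_finite_iff_infinite] at hinf
    have h0 := (li_std hI).finrank_eq_zero_of_infinite
    have hsub : Subsingleton (MvPolynomial (Fin n) K ⧸ I) := by
      rwa [← Module.finrank_eq_zero_iff_of_free K] at *
    have htop : I = ⊤ := Ideal.Quotient.subsingleton_iff.mp hsub
    obtain ⟨v⟩ := hinf.nonempty
    exact v.2 (htop.symm ▸ (Submodule.mem_top : monomial v.1 (1 : K) ∈ (⊤ : Ideal _)))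
  have h2 : Std I = (fun v : {v : Fin n →₀ ℕ // monomial v (1 : K) ∉ I} => (v.1 : Fin n → ℕ)) ''
      Set.univ := by
    ext α
    constructor
    · intro h
      exact ⟨⟨Finsupp.equivFunOnFinite.symm α, h⟩, trivial, by simp⟩
    · rintro ⟨v, _, rfl⟩
      have := v.2
      simpa [Std] using this
  rw [h2]
  exact Set.Finite.image _ Set.finite_univ

lemma mon_dvd_mem {I : Ideal (MvPolynomial (Fin n) K)} {v w : Fin n →₀ ℕ} (h : v ≤ w)
    (hv : monomial v (1 : K) ∈ I) : monomial w (1 : K) ∈ I := by
  have : monomial w (1 : K) = monomial (w - v) 1 * monomial v 1 := by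
    rw [monomial_mul, one_mul, tsub_add_cancel_of_le h]
  rw [this]
  exact I.mul_mem_left _ hv

/-- the monomial ideal with standard monomials `O` -/
noncomputable def idealOf (K : Type*) [Field K] (O : Finset (Fin n → ℕ)) : Ideal (MvPolynomial (Fin n) K) :=
  Ideal.span ((fun s => monomial s (1 : K)) '' {v : Fin n →₀ ℕ | (v : Fin n → ℕ) ∉ O})

lemma mem_idealOf (O : Finset (Fin n → ℕ)) (hO : Pool.Agent.MP_d42654_co.Down O)
    (v : Fin n →₀ ℕ) : monomial v (1 : K) ∈ idealOf K O ↔ (v : Fin n → ℕ) ∉ O := by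
  classical
  rw [idealOf, mem_ideal_span_monomial_image]
  constructor
  · intro h hv
    obtain ⟨w, hw, hle⟩ := h v (by
      rw [mem_support_iff, coeff_monomial, if_pos rfl]; exact one_ne_zero)
    exact hw (hO v hv w hle)
  · intro h w hw
    refine ⟨v, h, ?_⟩
    by_contra hne
    rw [mem_support_iff, coeff_monomial, if_neg] at hw
    · exact hw rfl
    · rintro rfl; exact hne le_rfl

lemma mvector_of (O : Finset (Fin n → ℕ)) (hne : O.Nonempty)
    (hO : Pool.Agent.MP_d42654_co.Down O) :
    IsMVector K (fun q => Pool.Agent.MP_d42654_co.cnt O q) := by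
  classical
  have hmono : IsMonomialIdeal (idealOf K O) := ⟨_, rfl⟩
  have hP : ∀ α, α ∈ O ↔ α ∈ Std (idealOf K O) := by
    intro α
    rw [Std, Set.mem_ofPred_eq, mem_idealOf O hO]
    simp
  refine ⟨n, idealOf K O, hmono, ?_, ?_, ?_⟩
  · intro htop
    obtain ⟨α, hα⟩ := hne
    have := (hP α).mp hα
    rw [Std, Set.mem_ofPred_eq, htop] at this
    exact this Submodule.mem_top
  · -- spanned by the finitely many standard monomials
    refine ⟨⟨O.image (fun α => Ideal.Quotient.mk (idealOf K O)
      (monomial (Finsupp.equivFunOnFinite.symm α) (1 : K))), ?_⟩⟩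
    rw [eq_top_iff]
    rintro x -
    obtain ⟨f, rfl⟩ := Ideal.Quotient.mk_surjective x
    rw [f.as_sum, map_sum]
    apply Submodule.sum_mem
    intro v _
    have : monomial v (coeff v f) = coeff v f • monomial v (1 : K) := by
      rw [smul_monomial, smul_eq_mul, mul_one]
    rw [this]
    have h3 : Ideal.Quotient.mk (idealOf K O) (coeff v f • monomial v (1 : K)) =
        coeff v f • Ideal.Quotient.mk (idealOf K O) (monomial v (1 : K)) :=
      map_smul (Ideal.Quotient.mkₐ K (idealOf K O)) _ _
    rw [h3]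
    apply Submodule.smul_mem
    by_cases hv : (v : Fin n → ℕ) ∈ O
    · apply Submodule.subset_span
      rw [Finset.coe_image]
      exact ⟨v, hv, by simp⟩
    · have h0 : Ideal.Quotient.mk (idealOf K O) (monomial v (1 : K)) = 0 :=
        Ideal.Quotient.eq_zero_iff_mem.mpr ((mem_idealOf O hO v).mpr hv)
      rw [h0]; exact Submodule.zero_mem _
  · intro i
    exact (hilb_eq hmono O hP i).symm

/-- **Main theorem.** For every pure O-sequence `a = (a_0,...,a_d)` with `d ≥ 1`, the complementary
vector `c_q = a_{d-q} - a_q`, `0 ≤ q ≤ (d-1)/2`, is a componentwise sum of M-vectors. -/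
theorem result {K : Type*} [Field K] {n d : ℕ} (hd : 1 ≤ d) (I : Ideal (MvPolynomial (Fin n) K))
    (hI : IsLevelMonomial I d) :
    ∃ (r : ℕ) (h : Fin r → ℕ → ℕ), (∀ j, IsMVector K (h j)) ∧
      ∀ q, q ≤ (d - 1) / 2 →
        (hilb I (d - q) : ℤ) - (hilb I q : ℤ) = ∑ j, (h j q : ℤ) := by
  classical
  have := hI.fin
  have hfin := std_finite hI.mono
  let P := hfin.toFinset
  have hP : ∀ α, α ∈ P ↔ α ∈ Std I := fun α => hfin.mem_toFinset
  have hdown : Pool.Agent.MP_d42654_co.Down P := by
    intro α hα β hβ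
    rw [hP, Std, Set.mem_ofPred_eq] at hα ⊢
    intro hmem
    exact hα (mon_dvd_mem (v := Finsupp.equivFunOnFinite.symm β)
      (w := Finsupp.equivFunOnFinite.symm α) (fun i => hβ i) hmem)
  have hmax : ∀ α ∈ P, (∀ i, α + (Pi.single i 1 : Fin n → ℕ) ∉ P) → ∑ i, α i = d := by
    intro α hα hmx
    set v : Fin n →₀ ℕ := Finsupp.equivFunOnFinite.symm α with hv
    have hvI : monomial v (1 : K) ∉ I := (hP α).mp hα
    have h1 := hI.level (Ideal.Quotient.mk I (monomial v (1 : K))) (by
      intro i
      rw [← map_mul, Ideal.Quotient.eq_zero_iff_mem]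
      have h2 := hmx i
      rw [hP, Std, Set.mem_ofPred_eq, not_not] at h2
      have h3 : X i * monomial v (1 : K) =
          monomial (Finsupp.equivFunOnFinite.symm (α + (Pi.single i 1 : Fin n → ℕ))) (1 : K) := by
        have h3' : Finsupp.equivFunOnFinite.symm (α + (Pi.single i 1 : Fin n → ℕ)) =
            Finsupp.single i 1 + v := by
          ext j
          simp only [Finsupp.add_apply, Finsupp.equivFunOnFinite_symm_apply_apply, hv,
            Pi.add_apply]
          rw [add_comm, Finsupp.single_eq_pi_single]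
        rw [h3', X, monomial_mul, one_mul]
      rw [h3]; exact h2)
    obtain ⟨f, hf, hfv⟩ := h1
    have hf' : f.IsHomogeneous d := hf
    have h4 : monomial v (1 : K) - f ∈ I := by
      rw [← Ideal.Quotient.eq_zero_iff_mem, map_sub, sub_eq_zero]
      exact hfv.symm
    by_contra hne
    apply hvI
    rw [mem_iff hI.mono] at h4
    apply h4
    rw [mem_support_iff, coeff_sub, coeff_monomial, if_pos rfl]
    have h5 : coeff v f = 0 := by
      by_contra h6
      apply hne
      have := hf' h6
      rw [← this, Finsupp.weight_apply, Finsupp.sum_fintype _ _ (by intro i; simp)]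
      simp [hv]
    rw [h5]; simp
  obtain ⟨L, hL1, hL2⟩ := Pool.Agent.MP_d42654_co.pure_sum' d hd P hdown hmax
  refine ⟨L.length, fun j => fun q => Pool.Agent.MP_d42654_co.cnt (L.get j) q, ?_, ?_⟩
  · intro j
    exact mvector_of _ (hL1 _ (List.get_mem L j)).1 (hL1 _ (List.get_mem L j)).2
  · intro q hq
    have h1 := hL2 q (by omega)
    have h2 : (((L.map (fun O => Pool.Agent.MP_d42654_co.cnt O q)).sum : ℕ) : ℤ) =
        ∑ j : Fin L.length, (Pool.Agent.MP_d42654_co.cnt (L.get j) q : ℤ) := by
      rw [← Nat.cast_sum]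
      congr 1
      rw [← List.sum_ofFn]
      congr 1
      apply List.ext_get
      · simp
      · intro m h1 h2; simp
    rw [hilb_eq hI.mono P hP, hilb_eq hI.mono P hP, h1, Nat.cast_add, h2]
    ring

end Pool.Agent.Lib.MP_d42654_co.MainAlt
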