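import Pool.Agent.Lib.MP_d42654_co.Lex

namespace Pool.Agent.Lib.MP_d42654_co

open Finset

/-- the vectors below `a` with coordinate sum `q` -/
def P {n : ℕ} (a : Fin n → ℕ) (q : ℕ) : Finset (Fin n → ℕ) :=
  (Finset.Iic a).filter fun u => deg u = q

lemma mem_P {n : ℕ} {a : Fin n → ℕ} {q : ℕ} {u : Fin n → ℕ} :
    u ∈ P a q ↔ u ≤ a ∧ deg u = q := by
  simp [P]

open Classical in
/-- the upper shadow inside the box -/
noncomputable def upS {n : ℕ} (a : Fin n → ℕ) (A : Finset (Fin n → ℕ)) : Finset (Fin n → ℕ) :=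
  (Finset.Iic a).filter fun w => ∃ u ∈ A, ∃ i, u + un i = w

lemma mem_up {n : ℕ} {a : Fin n → ℕ} {A : Finset (Fin n → ℕ)} {w : Fin n → ℕ} :
    w ∈ upS a A ↔ w ≤ a ∧ ∃ u ∈ A, ∃ i, u + un i = w := by
  classical
  simp [upS]

def LexInit {n : ℕ} (a : Fin n → ℕ) (q : ℕ) (L : Finset (Fin n → ℕ)) : Prop :=
  L ⊆ P a q ∧ ∀ u ∈ L, ∀ w ∈ P a q, Lt u w → w ∈ L

def Shifted {n : ℕ} (a : Fin n → ℕ) (A : Finset (Fin n → ℕ)) : Prop :=
  ∀ (v : Fin n → ℕ) (k i : Fin n), k < i → v + un k ∈ A → v + un i ≤ a → v + un i ∈ A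

noncomputable def slc {n : ℕ} (A : Finset (Fin (n + 1) → ℕ)) (c : ℕ) : Finset (Fin n → ℕ) :=
  A.preimage (cn c) (Fin.cons_right_injective (α := fun _ => ℕ) c).injOn

lemma mem_slice {n : ℕ} {A : Finset (Fin (n + 1) → ℕ)} {c : ℕ} {v : Fin n → ℕ} :
    v ∈ slc A c ↔ cn c v ∈ A := by
  simp [slc]

lemma up_subset_P {n : ℕ} {a : Fin n → ℕ} {q : ℕ} {A : Finset (Fin n → ℕ)} (h : A ⊆ P a q) :
    upS a A ⊆ P a (q + 1) := by
  intro w hw
  obtain ⟨hwa, u, hu, i, rfl⟩ := mem_up.1 hw
  have := (mem_P.1 (h hu)).2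
  exact mem_P.2 ⟨hwa, by rw [deg_add_un, this]⟩

lemma LexInit.up {n : ℕ} {a : Fin n → ℕ} {q : ℕ} {L : Finset (Fin n → ℕ)}
    (h : LexInit a q L) : LexInit a (q + 1) (upS a L) := by
  refine ⟨up_subset_P h.1, fun w hw w' hw' hlt => ?_⟩
  obtain ⟨hwa, u, hu, i, rfl⟩ := mem_up.1 hw
  have hdu := (mem_P.1 (h.1 hu)).2
  have hdw := (mem_P.1 hw').2
  have hlt' : Lt u w' := (Lt.add_un u i).trans hlt
  obtain ⟨x, k, hx, hux⟩ := hlt'.remove (by omega)
  have hwx : deg w' = deg x + 1 := by rw [hx, deg_add_un]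
  have hxa : x ≤ a := le_trans (by rw [hx]; exact le_add_un x k) (mem_P.1 hw').1
  have hxL : x ∈ L := by
    rcases hux with rfl | hux
    · exact hu
    · exact h.2 u hu x (mem_P.2 ⟨hxa, by omega⟩) hux
  exact mem_up.2 ⟨(mem_P.1 hw').1, x, hxL, k, hx.symm⟩

lemma LexInit.shifted {n : ℕ} {a : Fin n → ℕ} {q : ℕ} {L : Finset (Fin n → ℕ)}
    (h : LexInit a q L) : Shifted a L := by
  intro v k i hki hv hva
  refine h.2 _ hv _ (mem_P.2 ⟨hva, ?_⟩) (Lt.move v hki)
  have := (mem_P.1 (h.1 hv)).2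
  rw [deg_add_un] at this ⊢
  exact this

lemma LexInit.slice {n : ℕ} {a : Fin (n + 1) → ℕ} {q : ℕ} {L : Finset (Fin (n + 1) → ℕ)}
    (h : LexInit a q L) {c r : ℕ} (hc : c + r = q) :
    LexInit (Fin.tail a) r (slc L c) := by
  have ha : a = cn (a 0) (Fin.tail a) := (Fin.cons_self_tail a).symm
  have key : ∀ v, cn c v ∈ P a q ↔ c ≤ a 0 ∧ v ∈ P (Fin.tail a) r := by
    intro v
    rw [mem_P, mem_P, deg_cn, ha, cn_le_iff]
    simp only [cn, Fin.cons_zero, Fin.tail_cons]
    constructor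
    · rintro ⟨⟨h1, h2⟩, h3⟩
      exact ⟨h1, h2, by omega⟩
    · rintro ⟨h1, h2, h3⟩
      exact ⟨⟨h1, h2⟩, by omega⟩
  refine ⟨fun v hv => ((key v).1 (h.1 (mem_slice.1 hv))).2, fun u hu w hw hlt => ?_⟩
  have hu' := mem_slice.1 hu
  have hc0 := ((key u).1 (h.1 hu')).1
  exact mem_slice.2 (h.2 _ hu' _ ((key w).2 ⟨hc0, hw⟩) (Lt.cn_iff.2 (Or.inl hlt)))

lemma Shifted.slice {n : ℕ} {a : Fin (n + 1) → ℕ} {A : Finset (Fin (n + 1) → ℕ)}
    (h : Shifted a A) {c : ℕ} (hc : c ≤ a 0) :
    Shifted (Fin.tail a) (slc A c) := by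
  intro v k i hki hv hva
  rw [mem_slice, ← cn_add_un_succ] at hv ⊢
  refine h _ _ _ (Fin.succ_lt_succ_iff.2 hki) hv ?_
  rw [cn_add_un_succ]
  have ha : a = cn (a 0) (Fin.tail a) := (Fin.cons_self_tail a).symm
  rw [ha, cn_le_iff]
  exact ⟨hc, hva⟩

lemma slice_subset_P {n : ℕ} {a : Fin (n + 1) → ℕ} {q : ℕ} {L : Finset (Fin (n + 1) → ℕ)}
    (h : L ⊆ P a q) {c r : ℕ} (hc : c + r = q) : slc L c ⊆ P (Fin.tail a) r := by
  intro v hv
  have h1 := mem_P.1 (h (mem_slice.1 hv))
  have ha : a = cn (a 0) (Fin.tail a) := (Fin.cons_self_tail a).symm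
  rw [ha, cn_le_iff, deg_cn] at h1
  exact mem_P.2 ⟨h1.1.2, by omega⟩

lemma slice_nonempty {n : ℕ} {a : Fin (n + 1) → ℕ} {q : ℕ} {L : Finset (Fin (n + 1) → ℕ)}
    (h : L ⊆ P a q) {c : ℕ} (hc : (slc L c).Nonempty) : c ≤ a 0 ∧ c ≤ q := by
  obtain ⟨v, hv⟩ := hc
  have h1 := mem_P.1 (h (mem_slice.1 hv))
  have ha : a = cn (a 0) (Fin.tail a) := (Fin.cons_self_tail a).symm
  rw [ha, cn_le_iff, deg_cn] at h1
  exact ⟨h1.1.1, by omega⟩

lemma card_slices {n : ℕ} {a : Fin (n + 1) → ℕ} {A : Finset (Fin (n + 1) → ℕ)}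
    (h : ∀ u ∈ A, u ≤ a) : #A = ∑ c ∈ range (a 0 + 1), #(slc A c) := by
  classical
  rw [Finset.card_eq_sum_card_fiberwise (f := fun u => u 0) (t := range (a 0 + 1))]
  · refine Finset.sum_congr rfl fun c _ => ?_
    symm
    refine Finset.card_bij (fun v _ => cn c v) ?_ ?_ ?_
    · intro v hv
      simp only [mem_filter]
      exact ⟨mem_slice.1 hv, by simp [cn]⟩
    · intro v _ w _ hvw
      exact (cn_inj.1 hvw).2
    · intro u hu
      obtain ⟨hu1, hu2⟩ := mem_filter.1 hu
      obtain ⟨b, v, rfl⟩ := exists_cn u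
      simp only [cn, Fin.cons_zero] at hu2
      subst hu2
      exact ⟨v, mem_slice.2 hu1, rfl⟩
  · intro u hu
    have := h u hu 0
    simp only [coe_range, Set.mem_Iio]
    exact Nat.lt_succ_of_le this

lemma slice_up_zero {n : ℕ} {a : Fin (n + 1) → ℕ} {A : Finset (Fin (n + 1) → ℕ)} :
    slc (upS a A) 0 = upS (Fin.tail a) (slc A 0) := by
  have ha : a = cn (a 0) (Fin.tail a) := (Fin.cons_self_tail a).symm
  ext w
  rw [mem_slice, mem_up, mem_up, ha, cn_le_iff]
  simp only [cn, Fin.tail_cons]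
  constructor
  · rintro ⟨⟨_, hw⟩, u, hu, i, hi⟩
    refine ⟨hw, ?_⟩
    obtain ⟨b, u, rfl⟩ := exists_cn u
    revert hi
    refine Fin.cases ?_ (fun j => ?_) i
    · intro hi
      have hi' : cn b u + un 0 = cn 0 w := hi
      rw [cn_add_un_zero] at hi'
      exact absurd (cn_inj.1 hi').1 (by omega)
    · intro hi
      have hi' : cn b u + un j.succ = cn 0 w := hi
      rw [cn_add_un_succ] at hi'
      obtain ⟨h1, h2⟩ := cn_inj.1 hi'
      subst h1
      exact ⟨u, mem_slice.2 hu, j, h2⟩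
  · rintro ⟨hw, u, hu, j, hj⟩
    refine ⟨⟨Nat.zero_le _, hw⟩, cn 0 u, mem_slice.1 hu, j.succ, ?_⟩
    rw [cn_add_un_succ, hj]

lemma Shifted.up_slice_subset {n : ℕ} {a : Fin (n + 1) → ℕ} {A : Finset (Fin (n + 1) → ℕ)}
    (h : Shifted a A) (hA : ∀ u ∈ A, u ≤ a) (c : ℕ) :
    upS (Fin.tail a) (slc A (c + 1)) ⊆ slc A c := by
  have ha : a = cn (a 0) (Fin.tail a) := (Fin.cons_self_tail a).symm
  intro w hw
  obtain ⟨hwa, u, hu, i, rfl⟩ := mem_up.1 hw
  have hu' := mem_slice.1 hu
  have hle := hA _ hu'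
  rw [ha, cn_le_iff] at hle
  rw [mem_slice, ← cn_add_un_succ]
  refine h _ 0 i.succ (Fin.succ_pos i) ?_ ?_
  · rw [cn_add_un_zero]; exact hu'
  · rw [cn_add_un_succ, ha, cn_le_iff]
    exact ⟨by omega, hwa⟩

lemma Shifted.slice_up_succ {n : ℕ} {a : Fin (n + 1) → ℕ} {A : Finset (Fin (n + 1) → ℕ)}
    (h : Shifted a A) (hA : ∀ u ∈ A, u ≤ a) {c : ℕ} (hc : c < a 0) :
    slc (upS a A) (c + 1) = slc A c := by
  have ha : a = cn (a 0) (Fin.tail a) := (Fin.cons_self_tail a).symm
  ext w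
  constructor
  · intro hw
    obtain ⟨hwa, u, hu, i, hi⟩ := mem_up.1 (mem_slice.1 hw)
    have hwa' := hwa
    rw [ha, cn_le_iff] at hwa'
    obtain ⟨b, u, rfl⟩ := exists_cn u
    revert hi
    refine Fin.cases ?_ (fun j => ?_) i
    · intro hi
      rw [cn_add_un_zero] at hi
      obtain ⟨h1, h2⟩ := cn_inj.1 hi
      obtain rfl : b = c := by omega
      subst h2
      exact mem_slice.2 hu
    · intro hi
      rw [cn_add_un_succ] at hi
      obtain ⟨h1, h2⟩ := cn_inj.1 hi
      subst h1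
      refine h.up_slice_subset hA c (mem_up.2 ⟨hwa'.2, u, mem_slice.2 hu, j, h2⟩)
  · intro hw
    have hw' := mem_slice.1 hw
    have hle := hA _ hw'
    rw [ha, cn_le_iff] at hle
    refine mem_slice.2 (mem_up.2 ⟨?_, cn c w, hw', 0, cn_add_un_zero c w⟩)
    rw [ha, cn_le_iff]
    exact ⟨hc, hle.2⟩

lemma Shifted.card_up {n : ℕ} {a : Fin (n + 1) → ℕ} {A : Finset (Fin (n + 1) → ℕ)}
    (h : Shifted a A) (hA : ∀ u ∈ A, u ≤ a) :
    #(upS a A) = #(upS (Fin.tail a) (slc A 0)) + ∑ c ∈ range (a 0), #(slc A c) := by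
  rw [card_slices (a := a) (A := upS a A) (fun u hu => (mem_up.1 hu).1), Finset.sum_range_succ',
    slice_up_zero, add_comm]
  congr 1
  exact Finset.sum_congr rfl fun c hc => by rw [h.slice_up_succ hA (mem_range.1 hc)]

/-- two such sets in one rank are nested -/
lemma LexInit.nested {n : ℕ} {a : Fin n → ℕ} {q : ℕ} {L M : Finset (Fin n → ℕ)}
    (hL : LexInit a q L) (hM : LexInit a q M) (h : #L ≤ #M) : L ⊆ M := by
  by_contra hcon
  obtain ⟨u, huL, huM⟩ := Finset.not_subset.1 hcon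
  have hML : M ⊆ L := by
    intro w hw
    rcases Lt.total u w with h1 | h1 | h1
    · exact hL.2 u huL w (hM.1 hw) h1
    · exact h1 ▸ huL
    · exact absurd (hM.2 w hw u (hL.1 huL) h1) huM
  have : M ⊂ L := ⟨hML, hcon⟩
  exact absurd (Finset.card_lt_card this) (by omega)

lemma exists_lexInit {n : ℕ} (a : Fin n → ℕ) (q s : ℕ) (h : s ≤ #(P a q)) :
    ∃ L, LexInit a q L ∧ #L = s := by
  classical
  induction s with
  | zero => exact ⟨∅, ⟨by simp, by simp⟩, by simp⟩
  | succ s ih =>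
    obtain ⟨L, hL, hLs⟩ := ih (by omega)
    have hne : (P a q \ L).Nonempty := by
      rw [← Finset.card_pos, Finset.card_sdiff_of_subset hL.1]
      omega
    obtain ⟨m, hm, hmax⟩ := exists_max _ hne
    obtain ⟨hm1, hm2⟩ := Finset.mem_sdiff.1 hm
    refine ⟨insert m L, ⟨?_, ?_⟩, by rw [Finset.card_insert_of_notMem hm2, hLs]⟩
    · intro u hu
      rcases Finset.mem_insert.1 hu with rfl | hu
      · exact hm1
      · exact hL.1 hu
    · intro u hu w hw hlt
      rcases Finset.mem_insert.1 hu with rfl | hu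
      · by_contra hcon
        have hwL : w ∉ L := fun hh => hcon (Finset.mem_insert_of_mem hh)
        rcases hmax w (Finset.mem_sdiff.2 ⟨hw, hwL⟩) with h1 | h1
        · exact hcon (by rw [h1]; exact Finset.mem_insert_self _ _)
        · exact Lt.asymm hlt h1
      · exact Finset.mem_insert_of_mem (hL.2 u hu w hw hlt)

lemma mem_iterate_up {n : ℕ} {a : Fin n → ℕ} {M : Finset (Fin n → ℕ)} {u : Fin n → ℕ}
    (hu : u ∈ M) (m : ℕ) : ∀ {w : Fin n → ℕ}, u ≤ w → w ≤ a → deg w = deg u + m →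
    w ∈ (upS a)^[m] M := by
  induction m with
  | zero =>
    intro w huw hwa hd
    have : u = w := eq_of_le_of_deg huw (by omega)
    simpa [this] using this ▸ hu
  | succ m ih =>
    intro w huw hwa hd
    obtain ⟨x, i, hx, hux⟩ := exists_between huw (by omega)
    have hwx : deg w = deg x + 1 := by rw [hx, deg_add_un]
    have hxw : x ≤ w := by rw [hx]; exact le_add_un x i
    rw [Function.iterate_succ_apply']
    exact mem_up.2 ⟨hwa, x, ih hux (hxw.trans hwa) (by omega), i, hx.symm⟩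

lemma LexInit.iterate_up {n : ℕ} {a : Fin n → ℕ} {r : ℕ} {M : Finset (Fin n → ℕ)}
    (hM : LexInit a r M) (m : ℕ) : LexInit a (r + m) ((upS a)^[m] M) := by
  induction m with
  | zero => simpa using hM
  | succ m ih =>
    rw [Function.iterate_succ_apply', ← add_assoc]
    exact ih.up

theorem card_up_le {n : ℕ} : ∀ {a : Fin n → ℕ} {q : ℕ} {A B L : Finset (Fin n → ℕ)},
    A ⊆ P a q → B ⊆ P a q → Shifted a A → Shifted a B → LexInit a q L → #L ≤ #A + #B →
    #(upS a L) ≤ #(upS a A) + #(upS a B) := by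
  induction n with
  | zero =>
    intro a q A B L _ _ _ _ _ _
    have : upS a L = ∅ := by
      rw [Finset.eq_empty_iff_forall_notMem]
      intro w hw
      obtain ⟨_, _, _, i, _⟩ := mem_up.1 hw
      exact i.elim0
    simp [this]
  | succ n ih =>
    intro a q A B L hAP hBP hA hB hL hcard
    have hA' : ∀ u ∈ A, u ≤ a := fun u hu => (mem_P.1 (hAP hu)).1
    have hB' : ∀ u ∈ B, u ≤ a := fun u hu => (mem_P.1 (hBP hu)).1
    have hL' : ∀ u ∈ L, u ≤ a := fun u hu => (mem_P.1 (hL.1 hu)).1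
    -- the main comparison
    have star : ∀ j₁ j, j < j₁ → #(slc L j₁) < #(slc A j₁) + #(slc B j₁) →
        #(slc L j) ≤ #(slc A j) + #(slc B j) := by
      intro j₁ j hjj hlt
      have hj₁ : j₁ ≤ a 0 ∧ j₁ ≤ q := by
        by_cases hAe : (slc A j₁).Nonempty
        · exact slice_nonempty hAP hAe
        · have hAe' : #(slc A j₁) = 0 := by
            rw [Finset.card_eq_zero]; exact Finset.not_nonempty_iff_eq_empty.1 hAe
          have : (slc B j₁).Nonempty := by
            rw [← Finset.card_pos]; omega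
          exact slice_nonempty hBP this
      obtain ⟨r, hr⟩ : ∃ r, j₁ + r = q := ⟨q - j₁, by omega⟩
      obtain ⟨M, hM, hMc⟩ := exists_lexInit (Fin.tail a) r
        (min (#(slc A j₁) + #(slc B j₁)) #(P (Fin.tail a) r)) (min_le_right _ _)
      have claim2 : ∀ m, m ≤ j₁ → #((upS (Fin.tail a))^[m] M) ≤
          #(slc A (j₁ - m)) + #(slc B (j₁ - m)) := by
        intro m
        induction m with
        | zero =>
          intro _
          simp only [Function.iterate_zero, id_eq, Nat.sub_zero]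
          rw [hMc]
          exact min_le_left _ _
        | succ m ihm =>
          intro hm
          rw [Function.iterate_succ_apply']
          have e : j₁ - m = (j₁ - (m + 1)) + 1 := by omega
          have hIH := ih (a := Fin.tail a) (q := r + m) (A := slc A (j₁ - m))
            (B := slc B (j₁ - m)) (L := (upS (Fin.tail a))^[m] M)
            (slice_subset_P hAP (by omega)) (slice_subset_P hBP (by omega))
            (hA.slice (by omega)) (hB.slice (by omega)) (hM.iterate_up m) (ihm (by omega))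
          refine hIH.trans (add_le_add ?_ ?_)
          · refine Finset.card_le_card ?_
            rw [e]
            exact hA.up_slice_subset hA' _
          · refine Finset.card_le_card ?_
            rw [e]
            exact hB.up_slice_subset hB' _
      have hLj : LexInit (Fin.tail a) r (slc L j₁) := hL.slice hr
      have claim3 : slc L j ⊆ (upS (Fin.tail a))^[j₁ - j] M := by
        intro w hw
        have hw' := mem_slice.1 hw
        have hwP := mem_P.1 (slice_subset_P hL.1 (show j + (q - j) = q by omega) hw)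
        have hdw : deg w = r + (j₁ - j) := by omega
        by_cases hsub : M ⊆ slc L j₁
        · -- then M is the whole rank
          have hMle := Finset.card_le_card hsub
          have hfull : #M = #(P (Fin.tail a) r) := by
            rw [hMc] at hMle ⊢
            omega
          have hMeq : M = P (Fin.tail a) r := Finset.eq_of_subset_of_card_le hM.1 hfull.ge
          obtain ⟨x, hx, hxd⟩ := exists_le_deg w r (by omega)
          refine mem_iterate_up (u := x) ?_ _ hx hwP.1 (by omega)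
          rw [hMeq]
          exact mem_P.2 ⟨hx.trans hwP.1, hxd⟩
        · obtain ⟨u₀, hu₀M, hu₀L⟩ := Finset.not_subset.1 hsub
          have hu₀P := mem_P.1 (hM.1 hu₀M)
          have hu₀L' : cn j₁ u₀ ∉ L := fun h => hu₀L (mem_slice.2 h)
          have ha : a = cn (a 0) (Fin.tail a) := (Fin.cons_self_tail a).symm
          have hu₀P' : cn j₁ u₀ ∈ P a q := by
            rw [mem_P, ha, cn_le_iff, deg_cn]
            exact ⟨⟨hj₁.1, hu₀P.1⟩, by omega⟩
          have hlt' : Lt u₀ w := by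
            rcases Lt.total (cn j₁ u₀) (cn j w) with h1 | h1 | h1
            · rcases Lt.cn_iff.1 h1 with h2 | ⟨_, h2⟩
              · exact h2
              · omega
            · exact absurd (h1 ▸ hw') hu₀L'
            · exact absurd (hL.2 _ hw' _ hu₀P' h1) hu₀L'
          obtain ⟨x, hxw, hxd, hux⟩ := Lt.below (j₁ - j) hlt' (by omega)
          have hxM : x ∈ M := by
            rcases hux with rfl | hux
            · exact hu₀M
            · exact hM.2 _ hu₀M _ (mem_P.2 ⟨hxw.trans hwP.1, by omega⟩) hux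
          exact mem_iterate_up hxM _ hxw hwP.1 (by omega)
      have h2 := claim2 (j₁ - j) (by omega)
      have e : j₁ - (j₁ - j) = j := by omega
      rw [e] at h2
      exact (Finset.card_le_card claim3).trans h2
    have htot : ∑ c ∈ range (a 0 + 1), #(slc L c) ≤
        ∑ c ∈ range (a 0 + 1), (#(slc A c) + #(slc B c)) := by
      rw [Finset.sum_add_distrib, ← card_slices hA', ← card_slices hB', ← card_slices hL']
      exact hcard
    have claim : ∀ k, k ≤ a 0 + 1 → ∑ c ∈ range k, #(slc L c) ≤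
        ∑ c ∈ range k, (#(slc A c) + #(slc B c)) := by
      intro k hk
      by_contra hcon
      push Not at hcon
      have hex : ∃ j₁ ∈ Finset.Ico k (a 0 + 1),
          #(slc L j₁) < #(slc A j₁) + #(slc B j₁) := by
        by_contra hcon2
        push Not at hcon2
        have h1 := Finset.sum_le_sum hcon2
        have h2 := Finset.sum_range_add_sum_Ico (fun c => #(slc L c)) hk
        have h3 := Finset.sum_range_add_sum_Ico (fun c => #(slc A c) + #(slc B c)) hk
        omega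
      obtain ⟨j₁, hj₁, hlt⟩ := hex
      have hk' : k ≤ j₁ := (Finset.mem_Ico.1 hj₁).1
      have : ∑ c ∈ range k, #(slc L c) ≤ ∑ c ∈ range k, (#(slc A c) + #(slc B c)) :=
        Finset.sum_le_sum fun c hc => star j₁ c (by
          have := Finset.mem_range.1 hc
          omega) hlt
      omega
    have c1 := claim 1 (by omega)
    have ca := claim (a 0) (by omega)
    simp only [Finset.sum_range_one] at c1
    have hIH := ih (a := Fin.tail a) (q := q) (A := slc A 0) (B := slc B 0) (L := slc L 0)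
      (slice_subset_P hAP (by omega)) (slice_subset_P hBP (by omega))
      (hA.slice (Nat.zero_le _)) (hB.slice (Nat.zero_le _)) (hL.slice (by omega)) c1
    rw [hA.card_up hA', hB.card_up hB', hL.shifted.card_up hL']
    rw [Finset.sum_add_distrib] at ca
    omega

end Pool.Agent.Lib.MP_d42654_co
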